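import Mathlib

set_option autoImplicit false
set_option linter.unusedSectionVars false

open Polynomial

namespace HasseDavenport

section defs

variable {F R : Type*} [Field F] [CommRing R]

/-- the completely multiplicative function on monic polynomials -/
noncomputable def lam (χ ψ : MulChar F R) (f : F[X]) : R :=
  χ ((-1) ^ f.natDegree * f.eval 0) * ψ (f.eval 1)

lemma lam_one (χ ψ : MulChar F R) : lam χ ψ 1 = 1 := by
  simp [lam]

lemma lam_mul (χ ψ : MulChar F R) {f g : F[X]} (hf : f.Monic) (hg : g.Monic) :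
    lam χ ψ (f * g) = lam χ ψ f * lam χ ψ g := by
  unfold lam
  rw [hf.natDegree_mul hg, eval_mul, eval_mul, pow_add,
    show (-1 : F) ^ f.natDegree * (-1) ^ g.natDegree * (f.eval 0 * g.eval 0) =
      ((-1) ^ f.natDegree * f.eval 0) * ((-1) ^ g.natDegree * g.eval 0) by ring, map_mul χ,
    map_mul ψ]
  ring

lemma lam_pow (χ ψ : MulChar F R) {f : F[X]} (hf : f.Monic) (k : ℕ) :
    lam χ ψ (f ^ k) = lam χ ψ f ^ k := by
  induction k with
  | zero => simp [lam_one]
  | succ k ih => rw [pow_succ, lam_mul χ ψ (hf.pow k) hf, ih, pow_succ]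

end defs

section monics

variable {F R : Type*} [Field F] [Fintype F] [CommRing R]

lemma finite_monic (n : ℕ) : {f : F[X] | f.Monic ∧ f.natDegree = n}.Finite := by
  have e : {p : F[X] // p.Monic ∧ p.natDegree = n} ≃ (Fin n → F) :=
    (monicEquivDegreeLT n).trans (degreeLTEquiv F n).toEquiv
  exact Set.finite_coe_iff.1 (Finite.of_equiv _ e.symm)

variable (F) in
/-- monic polynomials of degree `n` -/
noncomputable def M (n : ℕ) : Finset F[X] := (finite_monic n).toFinset

lemma mem_M {n : ℕ} {f : F[X]} : f ∈ M F n ↔ f.Monic ∧ f.natDegree = n := by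
  simp [M]

variable (χ ψ : MulChar F R)

/-- the coefficients of the `L`-function -/
noncomputable def A (n : ℕ) : R := ∑ f ∈ M F n, lam χ ψ f

lemma A_zero : A χ ψ 0 = 1 := by
  have : M F 0 = {1} := by
    ext f
    rw [mem_M, Finset.mem_singleton]
    constructor
    · rintro ⟨h1, h2⟩
      exact Polynomial.eq_one_of_monic_natDegree_zero h1 h2
    · rintro rfl
      exact ⟨monic_one, natDegree_one⟩
  rw [A, this, Finset.sum_singleton, lam_one]

lemma A_one : A χ ψ 1 = jacobiSum χ ψ := by
  rw [A, jacobiSum]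
  symm
  refine Finset.sum_bij (fun a _ => X - C a) ?_ ?_ ?_ ?_
  · intro a _
    rw [mem_M]
    exact ⟨monic_X_sub_C a, natDegree_X_sub_C a⟩
  · intro a _ b _ h
    simpa using h
  · intro f hf
    rw [mem_M] at hf
    refine ⟨-f.coeff 0, Finset.mem_univ _, ?_⟩
    rw [C_neg, sub_neg_eq_add]
    exact (hf.1.eq_X_add_C hf.2).symm
  · intro a _
    simp [lam]

/-- the twist -/
noncomputable def tw (u : F) (f : F[X]) : F[X] := f + C ((u - 1) * f.eval 0) * (1 - X)

lemma tw_eval_zero (u : F) (f : F[X]) : (tw u f).eval 0 = u * f.eval 0 := by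
  simp [tw]; ring

lemma tw_eval_one (u : F) (f : F[X]) : (tw u f).eval 1 = f.eval 1 := by
  simp [tw]

lemma tw_mem {n : ℕ} (hn : 2 ≤ n) (u : F) {f : F[X]} (hf : f ∈ M F n) : tw u f ∈ M F n := by
  rw [mem_M] at *
  have hdeg : (C ((u - 1) * f.eval 0) * (1 - X : F[X])).degree < f.degree := by
    have h1 : (C ((u - 1) * f.eval 0) * (1 - X : F[X])).degree ≤ 1 := by
      have h2 : (1 - X : F[X]).degree ≤ 1 := by
        refine (degree_sub_le _ _).trans ?_
        rw [degree_one, degree_X]
        simp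
      refine (degree_mul_le _ _).trans ?_
      calc (C ((u - 1) * f.eval 0)).degree + (1 - X : F[X]).degree ≤ 0 + 1 :=
            add_le_add degree_C_le h2
        _ = 1 := zero_add 1
    refine lt_of_le_of_lt h1 ?_
    rw [degree_eq_natDegree hf.1.ne_zero, hf.2]
    exact_mod_cast hn
  refine ⟨hf.1.add_of_left hdeg, ?_⟩
  rw [tw, natDegree_add_eq_left_of_degree_lt hdeg, hf.2]

lemma tw_tw {u : F} (hu : u ≠ 0) (f : F[X]) : tw u⁻¹ (tw u f) = f := by
  have h1 : (u⁻¹ - 1) * (u * f.eval 0) = -((u - 1) * f.eval 0) := by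
    field_simp
    ring
  rw [tw, tw_eval_zero, h1, tw, C_neg]
  ring

variable [IsDomain R]

lemma A_eq_zero (hχ : χ ≠ 1) {n : ℕ} (hn : 2 ≤ n) : A χ ψ n = 0 := by
  obtain ⟨u, hu⟩ := MulChar.ne_one_iff.1 hχ
  have hu0 : (u : F) ≠ 0 := u.ne_zero
  have key : A χ ψ n = χ u * A χ ψ n := by
    conv_rhs => rw [A, Finset.mul_sum]
    symm
    rw [A]
    refine Finset.sum_nbij' (tw (u : F)) (tw (u : F)⁻¹) (fun f hf => tw_mem hn _ hf)
      (fun f hf => tw_mem hn _ hf) (fun f _ => tw_tw hu0 f) (fun f _ => ?_) (fun f hf => ?_)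
    · have := tw_tw (inv_ne_zero hu0) f
      rwa [inv_inv] at this
    · have h1 := (mem_M.1 hf).2
      have h2 := (mem_M.1 (tw_mem hn (u : F) hf)).2
      have h3 : χ ((-1) ^ n * (u * f.eval 0)) = χ u * χ ((-1) ^ n * f.eval 0) := by
        rw [← map_mul χ]
        congr 1
        ring
      rw [lam, lam, h1, h2, tw_eval_zero, tw_eval_one, h3]
      ring
  have h2 : (χ u - 1) * A χ ψ n = 0 := by
    rw [sub_mul, one_mul, ← key, sub_self]
  rcases mul_eq_zero.1 h2 with h3 | h3
  · exact absurd (sub_eq_zero.1 h3) hu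
  · exact h3

end monics

section mangoldt

variable {F R : Type*} [Field F] [Fintype F] [CommRing R]

open Classical in
variable (F) in
/-- monic irreducible polynomials of degree at most `n` -/
noncomputable def Irr (n : ℕ) : Finset F[X] :=
  ((Finset.range (n + 1)).biUnion (M F)).filter Irreducible

lemma mem_Irr {n : ℕ} {P : F[X]} : P ∈ Irr F n ↔ P.Monic ∧ P.natDegree ≤ n ∧ Irreducible P := by
  classical
  simp only [Irr, Finset.mem_filter, Finset.mem_biUnion, Finset.mem_range, mem_M]
  constructor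
  · rintro ⟨⟨d, hd, h1, h2⟩, h3⟩
    exact ⟨h1, by omega, h3⟩
  · rintro ⟨h1, h2, h3⟩
    exact ⟨⟨P.natDegree, by omega, h1, rfl⟩, h3⟩

open Classical in
lemma natDegree_eq_sum {n : ℕ} {f : F[X]} (hf : f ∈ M F n) :
    n = ∑ P ∈ Irr F n, ∑ k ∈ Finset.Icc 1 n, if P ^ k ∣ f then P.natDegree else 0 := by
  rw [mem_M] at hf
  obtain ⟨hm, hn⟩ := hf
  have hf0 : f ≠ 0 := hm.ne_zero
  -- inner sum
  have hinner : ∀ P ∈ Irr F n, ∑ k ∈ Finset.Icc 1 n, (if P ^ k ∣ f then P.natDegree else 0) =
      (UniqueFactorizationMonoid.normalizedFactors f).count P * P.natDegree := by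
    intro P hP
    rw [mem_Irr] at hP
    obtain ⟨hPm, hPn, hPi⟩ := hP
    have hdvd : ∀ k, P ^ k ∣ f ↔ k ≤ (UniqueFactorizationMonoid.normalizedFactors f).count P := by
      intro k
      rw [pow_dvd_iff_le_emultiplicity,
        UniqueFactorizationMonoid.emultiplicity_eq_count_normalizedFactors hPi hf0,
        hPm.normalize_eq_self]
      exact_mod_cast Iff.rfl
    have hle : (UniqueFactorizationMonoid.normalizedFactors f).count P ≤ n := by
      have h1 := (hdvd _).2 le_rfl
      have h2 := natDegree_le_of_dvd h1 hf0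
      rw [natDegree_pow, hn] at h2
      have h3 : 1 ≤ P.natDegree := hPi.natDegree_pos
      nlinarith
    rw [← Finset.sum_filter, Finset.sum_const, smul_eq_mul]
    congr 1
    have : (Finset.Icc 1 n).filter (fun k => P ^ k ∣ f) =
        Finset.Icc 1 ((UniqueFactorizationMonoid.normalizedFactors f).count P) := by
      ext k
      simp only [Finset.mem_filter, Finset.mem_Icc, hdvd]
      omega
    rw [this, Nat.card_Icc]
    omega
  rw [Finset.sum_congr rfl hinner]
  -- the product of normalized factors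
  have hprod : (UniqueFactorizationMonoid.normalizedFactors f).prod = f := by
    have h1 := UniqueFactorizationMonoid.prod_normalizedFactors_eq hf0
    rw [h1, hm.normalize_eq_self]
  have hmon : ∀ P ∈ UniqueFactorizationMonoid.normalizedFactors f, P.Monic := by
    intro P hP
    have h1 := UniqueFactorizationMonoid.normalize_normalized_factor P hP
    rw [← h1]
    exact monic_normalize (UniqueFactorizationMonoid.irreducible_of_normalized_factor P hP).ne_zero
  have hdeg : n = ((UniqueFactorizationMonoid.normalizedFactors f).map natDegree).sum := by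
    rw [← hn]
    conv_lhs => rw [← hprod]
    have := natDegree_multiset_prod_of_monic
      ((UniqueFactorizationMonoid.normalizedFactors f)) hmon
    exact this
  conv_lhs => rw [hdeg]
  rw [Finset.sum_multiset_map_count]
  simp only [smul_eq_mul]
  refine Finset.sum_subset ?_ ?_
  · intro P hP
    rw [Multiset.mem_toFinset] at hP
    rw [mem_Irr]
    have hi := UniqueFactorizationMonoid.irreducible_of_normalized_factor P hP
    refine ⟨hmon P hP, ?_, hi⟩
    rw [← hn]
    exact natDegree_le_of_dvd (UniqueFactorizationMonoid.dvd_of_mem_normalizedFactors hP) hf0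
  · intro P _ hP
    rw [Multiset.mem_toFinset] at hP
    rw [Multiset.count_eq_zero_of_notMem hP, zero_mul]

variable (χ ψ : MulChar F R)

open Classical in
lemma sum_multiples {n k : ℕ} {P : F[X]} (hP : P.Monic) :
    (∑ f ∈ M F n, if P ^ k ∣ f then lam χ ψ f else 0) =
      if k * P.natDegree ≤ n then lam χ ψ P ^ k * A χ ψ (n - k * P.natDegree) else 0 := by
  have hdegk : (P ^ k).natDegree = k * P.natDegree := hP.natDegree_pow k
  split_ifs with h
  · rw [A, Finset.mul_sum, ← Finset.sum_filter]
    symm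
    refine Finset.sum_bij (fun g _ => P ^ k * g) ?_ ?_ ?_ ?_
    · intro g hg
      rw [mem_M] at hg
      rw [Finset.mem_filter, mem_M]
      refine ⟨⟨(hP.pow k).mul hg.1, ?_⟩, dvd_mul_right _ _⟩
      rw [(hP.pow k).natDegree_mul hg.1, hdegk, hg.2]
      omega
    · intro g _ g' _ h'
      exact mul_left_cancel₀ (hP.pow k).ne_zero h'
    · intro f hf
      rw [Finset.mem_filter, mem_M] at hf
      obtain ⟨⟨hfm, hfn⟩, g, rfl⟩ := hf
      have hg : g.Monic := (hP.pow k).of_mul_monic_left hfm
      refine ⟨g, ?_, rfl⟩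
      rw [mem_M]
      refine ⟨hg, ?_⟩
      rw [(hP.pow k).natDegree_mul hg, hdegk] at hfn
      omega
    · intro g hg
      rw [mem_M] at hg
      rw [lam_mul χ ψ (hP.pow k) hg.1, lam_pow χ ψ hP]
  · apply Finset.sum_eq_zero
    intro f hf
    rw [mem_M] at hf
    rw [if_neg]
    intro hdvd
    have := natDegree_le_of_dvd hdvd hf.1.ne_zero
    rw [hdegk, hf.2] at this
    exact h this

lemma newton (n : ℕ) : (n : R) * A χ ψ n = ∑ P ∈ Irr F n, ∑ k ∈ Finset.Icc 1 n,
    if k * P.natDegree ≤ n then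
      (P.natDegree : R) * (lam χ ψ P ^ k * A χ ψ (n - k * P.natDegree)) else 0 := by
  classical
  have h1 : (n : R) * A χ ψ n = ∑ f ∈ M F n, ∑ P ∈ Irr F n, ∑ k ∈ Finset.Icc 1 n,
      if P ^ k ∣ f then (P.natDegree : R) * lam χ ψ f else 0 := by
    rw [A, Finset.mul_sum]
    refine Finset.sum_congr rfl fun f hf => ?_
    conv_lhs => rw [natDegree_eq_sum hf]
    push_cast
    rw [Finset.sum_mul]
    refine Finset.sum_congr rfl fun P _ => ?_
    rw [Finset.sum_mul]
    refine Finset.sum_congr rfl fun k _ => ?_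
    split_ifs
    · rfl
    · rw [zero_mul]
  rw [h1, Finset.sum_comm]
  refine Finset.sum_congr rfl fun P hP => ?_
  rw [Finset.sum_comm]
  refine Finset.sum_congr rfl fun k _ => ?_
  have h2 := sum_multiples χ ψ (n := n) (k := k) (mem_Irr.1 hP).1
  have h3 : (∑ f ∈ M F n, if P ^ k ∣ f then (P.natDegree : R) * lam χ ψ f else 0) =
      (P.natDegree : R) * ∑ f ∈ M F n, if P ^ k ∣ f then lam χ ψ f else 0 := by
    rw [Finset.mul_sum]
    refine Finset.sum_congr rfl fun f _ => ?_
    split_ifs
    · rfl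
    · rw [mul_zero]
  rw [h3, h2]
  split_ifs
  · rfl
  · rw [mul_zero]

/-- power sums -/
noncomputable def S (n : ℕ) : R :=
  ∑ P ∈ Irr F n, if P.natDegree ∣ n then (P.natDegree : R) * lam χ ψ P ^ (n / P.natDegree) else 0

lemma inner_sum {n r d : ℕ} (hd : 1 ≤ d) (hr1 : 1 ≤ r) (hr : r ≤ n) (y : R) :
    (∑ k ∈ Finset.Icc 1 n, if k * d = r then y ^ k else 0) = if d ∣ r then y ^ (r / d) else 0 := by
  split_ifs with h
  · obtain ⟨k, rfl⟩ := h
    have hk : 1 ≤ k := by
      rcases Nat.eq_zero_or_pos k with h0 | h0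
      · subst h0; omega
      · exact h0
    have hkn : k ≤ n := by nlinarith
    rw [Finset.sum_eq_single k]
    · rw [if_pos (mul_comm k d), Nat.mul_div_cancel_left k (by omega)]
    · intro k' _ hne
      rw [if_neg]
      intro h'
      apply hne
      rw [mul_comm d k] at h'
      exact Nat.eq_of_mul_eq_mul_right (by omega) h'
    · intro h'
      exact absurd (Finset.mem_Icc.2 ⟨hk, hkn⟩) h'
  · apply Finset.sum_eq_zero
    intro k _
    rw [if_neg]
    rintro rfl
    exact h (dvd_mul_left d k)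

lemma S_eq_of_le {n r : ℕ} (hr1 : 1 ≤ r) (hr : r ≤ n) :
    S χ ψ r = ∑ P ∈ Irr F n,
      if P.natDegree ∣ r then (P.natDegree : R) * lam χ ψ P ^ (r / P.natDegree) else 0 := by
  rw [S]
  refine Finset.sum_subset ?_ ?_
  · intro P hP
    rw [mem_Irr] at *
    exact ⟨hP.1, hP.2.1.trans hr, hP.2.2⟩
  · intro P hP hP'
    rw [mem_Irr] at *
    rw [if_neg]
    intro h
    exact hP' ⟨hP.1, Nat.le_of_dvd (by omega) h, hP.2.2⟩

lemma S_one : S χ ψ 1 = A χ ψ 1 := by
  have h := newton χ ψ 1
  rw [Nat.cast_one, one_mul] at h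
  rw [h, S]
  refine Finset.sum_congr rfl fun P hP => ?_
  rw [mem_Irr] at hP
  have hd : P.natDegree = 1 := le_antisymm hP.2.1 hP.2.2.natDegree_pos
  rw [Finset.Icc_self, Finset.sum_singleton, hd]
  simp [A_zero]

variable [IsDomain R]

lemma S_succ (hχ : χ ≠ 1) {n : ℕ} (hn : 1 ≤ n) : S χ ψ (n + 1) = - (A χ ψ 1 * S χ ψ n) := by
  have h := newton χ ψ (n + 1)
  rw [A_eq_zero χ ψ hχ (by omega : 2 ≤ n + 1), mul_zero] at h
  have h1 : ∀ P ∈ Irr F (n + 1), (∑ k ∈ Finset.Icc 1 (n + 1),
      if k * P.natDegree ≤ n + 1 then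
        (P.natDegree : R) * (lam χ ψ P ^ k * A χ ψ (n + 1 - k * P.natDegree)) else 0) =
      (if P.natDegree ∣ n + 1 then (P.natDegree : R) * lam χ ψ P ^ ((n + 1) / P.natDegree) else 0) +
      A χ ψ 1 * (if P.natDegree ∣ n then (P.natDegree : R) * lam χ ψ P ^ (n / P.natDegree) else 0) := by
    intro P hP
    rw [mem_Irr] at hP
    have hd : 1 ≤ P.natDegree := hP.2.2.natDegree_pos
    have h2 : ∀ k ∈ Finset.Icc 1 (n + 1), (if k * P.natDegree ≤ n + 1 then
        (P.natDegree : R) * (lam χ ψ P ^ k * A χ ψ (n + 1 - k * P.natDegree)) else 0) =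
        (P.natDegree : R) * (if k * P.natDegree = n + 1 then lam χ ψ P ^ k else 0) +
        (A χ ψ 1 * (P.natDegree : R)) * (if k * P.natDegree = n then lam χ ψ P ^ k else 0) := by
      intro k _
      by_cases hk1 : k * P.natDegree = n + 1
      · rw [if_pos hk1.le, if_pos hk1, if_neg (by omega), hk1, Nat.sub_self, A_zero]
        ring
      · by_cases hk2 : k * P.natDegree = n
        · rw [if_pos (by omega), if_neg hk1, if_pos hk2, hk2, Nat.add_sub_cancel_left]
          ring
        · rw [if_neg hk1, if_neg hk2]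
          split_ifs with h3
          · rw [A_eq_zero χ ψ hχ (by omega)]
            ring
          · ring
    rw [Finset.sum_congr rfl h2, Finset.sum_add_distrib, ← Finset.mul_sum, ← Finset.mul_sum,
      inner_sum hd (by omega) le_rfl, inner_sum hd hn (by omega)]
    split_ifs <;> ring
  rw [Finset.sum_congr rfl h1, Finset.sum_add_distrib, ← Finset.mul_sum,
    ← S_eq_of_le χ ψ hn (by omega)] at h
  have h2 : S χ ψ (n + 1) + A χ ψ 1 * S χ ψ n = 0 := h.symm
  exact eq_neg_of_add_eq_zero_left h2

lemma S_eq (hχ : χ ≠ 1) : ∀ n : ℕ, S χ ψ (n + 1) = (-1) ^ n * jacobiSum χ ψ ^ (n + 1) := by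
  intro n
  induction n with
  | zero => simp [S_one, A_one]
  | succ n ih =>
    rw [S_succ χ ψ hχ (by omega), ih, A_one]
    ring

end mangoldt

section extension

variable {F E R : Type*} [Field F] [Fintype F] [Field E] [Fintype E] [Algebra F E] [CommRing R]

open IntermediateField in
lemma norm_eq (x : E) : Algebra.norm F x =
    ((-1) ^ (minpoly F x).natDegree * (minpoly F x).coeff 0) ^
      (Module.finrank F E / (minpoly F x).natDegree) := by
  have hx : IsIntegral F x := Algebra.IsIntegral.isIntegral x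
  have h1 := Algebra.norm_eq_norm_adjoin F x
  have h2 : Module.finrank F E / (minpoly F x).natDegree = Module.finrank F⟮x⟯ E := by
    rw [← adjoin.finrank hx, ← Module.finrank_mul_finrank F F⟮x⟯ E]
    refine Nat.mul_div_cancel_left _ ?_
    rw [adjoin.finrank hx]
    exact minpoly.natDegree_pos hx
  rw [h1, h2]
  congr 1
  have h3 := Algebra.PowerBasis.norm_gen_eq_coeff_zero_minpoly (adjoin.powerBasis hx)
  rw [adjoin.powerBasis_gen, adjoin.powerBasis_dim] at h3
  rw [h3, minpoly_gen]

lemma norm_one_sub_eq (x : E) : Algebra.norm F (1 - x) =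
    ((minpoly F x).eval 1) ^ (Module.finrank F E / (minpoly F x).natDegree) := by
  have h1 : minpoly F (1 - x) = (-1) ^ (minpoly F x).natDegree *
      ((minpoly F x).comp (-X)).comp (X - C 1) := by
    have h2 : (1 : E) - x = -x + algebraMap F E 1 := by
      rw [map_one]; ring
    rw [h2, minpoly.add_algebraMap, minpoly.neg]
    simp
  have hcomp : ((minpoly F x).comp (-X)).comp (X - C 1) = (minpoly F x).comp (C 1 - X) := by
    rw [comp_assoc]
    simp
  have hnd : (minpoly F (1 - x)).natDegree = (minpoly F x).natDegree := by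
    rw [h1, hcomp]
    have h3 : ((-1 : F[X]) ^ (minpoly F x).natDegree) = C ((-1) ^ (minpoly F x).natDegree) := by
      simp
    rw [h3, natDegree_C_mul (pow_ne_zero _ (neg_ne_zero.2 one_ne_zero)), natDegree_comp]
    have h4 : (C 1 - X : F[X]).natDegree = 1 := by
      rw [← natDegree_neg, neg_sub]
      exact natDegree_X_sub_C 1
    rw [h4, mul_one]
  rw [norm_eq, hnd]
  congr 1
  rw [coeff_zero_eq_eval_zero, h1, hcomp, eval_mul, eval_comp]
  simp only [eval_pow, eval_neg, eval_one, eval_sub, eval_C, eval_X, sub_zero]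
  rw [← mul_assoc, ← mul_pow]
  simp

lemma card_fiber (P : F[X]) (hP : P.Monic) (hi : Irreducible P) [DecidableEq F[X]] :
    (Finset.univ.filter (fun x : E => minpoly F x = P)).card =
      if P.natDegree ∣ Module.finrank F E then P.natDegree else 0 := by
  classical
  split_ifs with h
  · have hsplit : (P.map (algebraMap F E)).Splits := by
      have h1 : P ∣ X ^ Fintype.card E - X := by
        have h2 := hi.natDegree_dvd_iff_dvd_X_pow_card_pow_sub_X.1 h
        rwa [Nat.card_eq_fintype_card, ← Module.card_eq_pow_finrank] at h2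
      have h3 : ((X ^ Fintype.card E - X : F[X]).map (algebraMap F E)).Splits :=
        (FiniteField.isSplittingField_sub E F).splits
      refine Splits.of_dvd h3 ?_ (Polynomial.map_dvd _ h1)
      exact Polynomial.map_ne_zero (FiniteField.X_pow_card_sub_X_ne_zero F Fintype.one_lt_card)
    have hsep : P.Separable := PerfectField.separable_of_irreducible hi
    have hcard := Polynomial.card_rootSet_eq_natDegree hsep hsplit
    rw [← hcard, Fintype.card_subtype]
    congr 1
    ext x
    simp only [Finset.mem_filter, Finset.mem_univ, true_and]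
    rw [mem_rootSet_of_ne hi.ne_zero]
    constructor
    · rintro rfl
      exact minpoly.aeval F x
    · intro hx
      exact (minpoly.eq_of_irreducible_of_monic hi hx hP).symm
  · rw [Finset.card_eq_zero, Finset.filter_eq_empty_iff]
    rintro x _ rfl
    exact h (minpoly.degree_dvd (Algebra.IsIntegral.isIntegral x))

lemma sum_eq_S (χ ψ : MulChar F R) :
    ∑ x : E, χ (Algebra.norm F x) * ψ (Algebra.norm F (1 - x)) =
      S χ ψ (Module.finrank F E) := by
  classical
  have hmem : ∀ x ∈ (Finset.univ : Finset E), minpoly F x ∈ Irr F (Module.finrank F E) := by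
    intro x _
    have hx : IsIntegral F x := Algebra.IsIntegral.isIntegral x
    rw [mem_Irr]
    exact ⟨minpoly.monic hx, minpoly.natDegree_le x, minpoly.irreducible hx⟩
  rw [← Finset.sum_fiberwise_of_maps_to hmem, S]
  refine Finset.sum_congr rfl fun P hP => ?_
  rw [mem_Irr] at hP
  have h1 : ∀ x ∈ Finset.univ.filter (fun x : E => minpoly F x = P),
      χ (Algebra.norm F x) * ψ (Algebra.norm F (1 - x)) =
        lam χ ψ P ^ (Module.finrank F E / P.natDegree) := by
    intro x hx
    rw [Finset.mem_filter] at hx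
    rw [norm_eq, norm_one_sub_eq, hx.2, map_pow, map_pow, lam, mul_pow, coeff_zero_eq_eval_zero]
  rw [Finset.sum_congr rfl h1, Finset.sum_const, card_fiber P hP.1 hP.2.2]
  split_ifs
  · rw [nsmul_eq_mul]
  · rw [zero_smul]

end extension

end HasseDavenport

/-- Hasse-Davenport relation for Jacobi sums. -/
theorem hasse_davenport_jacobi
    {F E R : Type*} [Field F] [Fintype F] [Field E] [Fintype E] [Algebra F E]
    [CommRing R] [IsDomain R] (χ ψ : MulChar F R) (hχ : χ ≠ 1) :
    ∑ x : E, χ (Algebra.norm F x) * ψ (Algebra.norm F (1 - x))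
      = (-1) ^ (Module.finrank F E - 1) * (jacobiSum χ ψ) ^ (Module.finrank F E) := by
  rw [HasseDavenport.sum_eq_S]
  obtain ⟨n, hn⟩ : ∃ n, Module.finrank F E = n + 1 :=
    ⟨Module.finrank F E - 1, (Nat.sub_add_cancel Module.finrank_pos).symm⟩
  rw [hn, HasseDavenport.S_eq χ ψ hχ, Nat.add_sub_cancel]
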