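import Pool.Agent.Helper49.MagnusMain

set_option autoImplicit false

/-! # The weighted Magnus theorem: conclusion -/

namespace Pool.Agent.Helper49.MagnusW

open Pool.Agent.Helper7.Comm
open scoped commutatorElement

theorem gam_top_of_le {X : Type} (ω : X → ℕ) (n : ℕ) (h : ∀ x, n ≤ ω x) (g : FreeGroup X) :
    g ∈ Gam ω n := by
  have : Gam ω n = ⊤ := by
    rw [eq_top_iff, ← FreeGroup.closure_range_of, Subgroup.closure_le]
    rintro _ ⟨x, rfl⟩
    exact (gam_isNSeries ω).anti (h x) (of_mem_gam ω x)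
  rw [this]; trivial

theorem magnus_step {X : Type} [Fintype X] [DecidableEq X] (ω : X → ℕ) (d n : ℕ) (hd : 0 < d)
    (hdn : d < n) (hω : ∀ x, d ≤ ω x) (a : X) (ha : ω a = d)
    (μ : FreeGroup X →* (NC X ℚ)ˣ)
    (hμ : ∀ x, OrdGE ω (ω x + 1) ((μ (FreeGroup.of x) : NC X ℚ) - 1 - NC.letter x))
    (g : FreeGroup X) (hg : OrdGE ω n ((μ g : NC X ℚ) - 1))
    (IH : ∀ v : FreeGroup ({y : X // y ≠ a} × Fin n),
      OrdGE (fun p : {y : X // y ≠ a} × Fin n => ω p.1.1 + p.2.1 * d) n
        (((mag ℚ v : (NC ({y : X // y ≠ a} × Fin n) ℚ)ˣ) : NC ({y : X // y ≠ a} × Fin n) ℚ) - 1) →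
      v ∈ Gam (fun p : {y : X // y ≠ a} × Fin n => ω p.1.1 + p.2.1 * d) n) :
    g ∈ Gam ω n := by
  have hω0 : ∀ x, 0 < ω x := fun x => lt_of_lt_of_le hd (hω x)
  obtain ⟨v, z, e, hz, rfl⟩ := decomp ω a (hω0 a) n g
  have hzo := ordGE_of_mem_gam' hω0 hμ hz
  -- the exponent vanishes
  have hchi_of : ∀ x, (μ (FreeGroup.of x) : NC X ℚ) [a] = if x = a then 1 else 0 := by
    intro x
    have h := hμ x [a] (by
      have : wt ω [a] = d := by simp [wt, ha]
      have := hω x
      omega)
    simp only [NC.sub_apply, NC.one_cons, NC.letter, NC.mk_apply, sub_zero, sub_eq_zero] at h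
    rw [h]
    by_cases hx : x = a
    · simp [hx]
    · rw [if_neg (fun hh => hx (by simpa using hh.symm)), if_neg hx]
  have hchi_cc : ∀ (y : X), y ≠ a → ∀ k, chi hμ a (cc (FreeGroup.of a) (FreeGroup.of y) k) = 1 := by
    intro y hy k
    cases k with
    | zero =>
      rw [chi_apply, cc, hchi_of, if_neg hy]; rfl
    | succ k =>
      rw [cc, map_commutatorElement]
      exact commutatorElement_eq_one_iff_mul_comm.mpr (mul_comm _ _)
  have hchi_elim : chi hμ a (elim a n v) = 1 := by
    have : (chi hμ a).comp (elim a n) = 1 := by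
      ext p
      rw [MonoidHom.comp_apply, elim_of, hchi_cc _ p.1.2]
      rfl
    exact DFunLike.congr_fun this v
  have hwa : wt ω [a] < n := by simpa [wt, ha] using hdn
  have hchi_z : chi hμ a z = 1 := by
    have := hzo [a] hwa
    rw [NC.sub_apply, NC.one_cons, sub_zero] at this
    rw [chi_apply, this]; rfl
  have he : e = 0 := by
    have h1 : chi hμ a (elim a n v * z * FreeGroup.of a ^ e) = 1 := by
      have := hg [a] hwa
      rw [NC.sub_apply, NC.one_cons, sub_zero] at this
      rw [chi_apply, this]; rfl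
    rw [map_mul, map_mul, hchi_elim, hchi_z, one_mul, one_mul, map_zpow, chi_apply, hchi_of,
      if_pos rfl] at h1
    have h2 := congrArg Multiplicative.toAdd h1
    simpa using h2
  subst he
  rw [zpow_zero, mul_one] at hg ⊢
  -- the image of `v`
  have hvo : OrdGE ω n ((μ (elim a n v) : NC X ℚ) - 1) := by
    have h1 : elim a n v * z ∈ ordSub ω μ n := hg
    have h2 : z ∈ ordSub ω μ n := hzo
    have h3 : elim a n v = (elim a n v * z) * z⁻¹ := by group
    rw [← mem_ordSub, h3]
    exact mul_mem h1 (inv_mem h2)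
  set ω' : {y : X // y ≠ a} × Fin n → ℕ := fun p => ω p.1.1 + p.2.1 * d with hω'
  set h : {y : X // y ≠ a} × Fin n → NC X ℚ := fun p =>
    (μ (cc (FreeGroup.of a) (FreeGroup.of p.1.1) p.2.1) : NC X ℚ) - 1 with hh
  set q : {y : X // y ≠ a} × Fin n → NC X ℚ := fun p => adk a p.1.1 p.2.1 with hq
  have h0 : ∀ p, h p [] = 0 := by
    intro p
    simp only [hh, NC.sub_apply, mu_nil hμ, NC.one_nil, sub_self]
  have q0 : ∀ p, q p [] = 0 := fun p => adk_nil p.1.2 p.2.1
  have hho : ∀ p, OrdGE ω (ω' p) (h p) := by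
    intro p
    have := mu_cc_ordGE hω0 hμ a p.1.1 p.2.1
    rwa [ha] at this
  have hqh : ∀ p, Homog ω (ω' p) (q p) := by
    intro p
    have := homog_adk (R := ℚ) ω a p.1.1 p.2.1
    rwa [ha] at this
  have hqo : ∀ p, OrdGE ω (ω' p) (q p) := fun p => (hqh p).ordGE
  have hhq : ∀ p, OrdGE ω (ω' p + 1) (h p - q p) := by
    intro p
    have := mu_cc hω0 hμ a p.1.1 p.2.1
    rwa [ha] at this
  have hΨ : NC.subst h ((mag ℚ v : (NC ({y : X // y ≠ a} × Fin n) ℚ)ˣ) : NC ({y : X // y ≠ a} × Fin n) ℚ) = (μ (elim a n v) : NC X ℚ) := by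
    have : (Units.map (NC.substHom h h0 : NC ({y : X // y ≠ a} × Fin n) ℚ →* NC X ℚ)).comp (mag ℚ) =
        μ.comp (elim a n) := by
      ext1 p
      rw [MonoidHom.comp_apply, MonoidHom.comp_apply, elim_of]
      ext1
      change NC.subst h ((mag ℚ (FreeGroup.of p) : (NC ({y : X // y ≠ a} × Fin n) ℚ)ˣ) : NC ({y : X // y ≠ a} × Fin n) ℚ) = _
      rw [mag_of, NC.subst_add h h0, NC.subst_one h h0, NC.subst_letter h h0]
      simp only [hh]
      abel
    have h2 := DFunLike.congr_fun this v
    have h3 := congrArg (fun u : (NC X ℚ)ˣ => (u : NC X ℚ)) h2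
    exact h3
  have hΨ1 : NC.subst h (((mag ℚ v : (NC ({y : X // y ≠ a} × Fin n) ℚ)ˣ) : NC ({y : X // y ≠ a} × Fin n) ℚ) - 1) =
      (μ (elim a n v) : NC X ℚ) - 1 := by
    have := (NC.substHom h h0).map_sub ((mag ℚ v : (NC ({y : X // y ≠ a} × Fin n) ℚ)ˣ) : NC ({y : X // y ≠ a} × Fin n) ℚ) 1
    rw [map_one] at this
    change NC.subst h _ = NC.subst h _ - 1 at this
    rw [this, hΨ]
  have hord : ∀ m ≤ n, OrdGE ω' m (((mag ℚ v : (NC ({y : X // y ≠ a} × Fin n) ℚ)ˣ) : NC ({y : X // y ≠ a} × Fin n) ℚ) - 1) := by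
    intro m
    induction m with
    | zero => intro _ w hw; exact absurd hw (Nat.not_lt_zero _)
    | succ m ih =>
      intro hmn
      have hm := ih (by omega)
      set F : NC ({y : X // y ≠ a} × Fin n) ℚ := ((mag ℚ v : (NC ({y : X // y ≠ a} × Fin n) ℚ)ˣ) : NC ({y : X // y ≠ a} × Fin n) ℚ) - 1 with hF
      set f : NC ({y : X // y ≠ a} × Fin n) ℚ := ⟨fun w => if wt ω' w = m then F w else 0⟩ with hf
      have hfh : Homog ω' m f := by
        intro w hw
        simp only [hf, NC.mk_apply, if_neg hw]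
      have hFf : OrdGE ω' (m + 1) (F - f) := by
        intro w hw
        simp only [NC.sub_apply, hf, NC.mk_apply]
        by_cases hwm : wt ω' w = m
        · rw [if_pos hwm, sub_self]
        · rw [if_neg hwm, sub_zero]
          exact hm w (by omega)
      have s1 : OrdGE ω (m + 1) (NC.subst h (F - f)) := OrdGE.subst h0 hho (m + 1) _ hFf
      have s2 : OrdGE ω (m + 1) (NC.subst h f - NC.subst q f) :=
        OrdGE.subst_sub h0 q0 hho hqo hhq m f hfh.ordGE
      have s3 : OrdGE ω (m + 1) (NC.subst h F) := by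
        rw [hΨ1]; exact hvo.mono hmn
      have s4 : OrdGE ω (m + 1) (NC.subst q f) := by
        have e1 : NC.subst h F = NC.subst h (F - f) + NC.subst h f := by
          rw [← NC.subst_add h h0, sub_add_cancel]
        have e2 : NC.subst q f = NC.subst h F - NC.subst h (F - f) -
            (NC.subst h f - NC.subst q f) := by
          rw [e1]; abel
        rw [e2]
        exact (s3.sub s1).sub s2
      have s5 : NC.subst q f = 0 := by
        ext w
        by_cases hw : wt ω w = m
        · exact s4 w (by omega)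
        · exact Homog.subst q0 hqh m f hfh w hw
      have s6 : f = 0 := by
        refine NC.subst_injective q q0 ?_ f s5
        intro A hA
        exact adk_indep a (fun y : {y : X // y ≠ a} => y.1) Subtype.val_injective
          (fun y => y.2) n A hA
      rw [s6, sub_zero] at hFf
      exact hFf
  have hv := IH v (hord n le_rfl)
  have hv2 : elim a n v ∈ Gam ω n := by
    refine gam_le_comap ω' (elim a n) (Gam ω) (gam_isNSeries ω) ?_ n hv
    intro p
    rw [elim_of]
    have := cc_mem_gam ω a p.1.1 p.2.1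
    rwa [ha] at this
  exact mul_mem hv2 hz

theorem magnus_aux (n : ℕ) : ∀ (e d : ℕ), 0 < d → n ≤ d + e →
    ∀ (X : Type) [Fintype X] [DecidableEq X] (ω : X → ℕ) (_ : ∀ x, d ≤ ω x)
      (μ : FreeGroup X →* (NC X ℚ)ˣ)
      (_ : ∀ x, OrdGE ω (ω x + 1) ((μ (FreeGroup.of x) : NC X ℚ) - 1 - NC.letter x))
      (g : FreeGroup X) (_ : OrdGE ω n ((μ g : NC X ℚ) - 1)), g ∈ Gam ω n := by
  intro e
  induction e with
  | zero =>
    intro d hd hn X _ _ ω hω μ hμ g hg
    exact gam_top_of_le ω n (fun x => le_trans (by omega) (hω x)) g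
  | succ e ihe =>
    intro d hd hn
    have inner : ∀ (m : ℕ) (X : Type) [Fintype X] [DecidableEq X] (ω : X → ℕ)
        (_ : ∀ x, d ≤ ω x) (_ : Fintype.card {x : X // ω x = d} = m)
        (μ : FreeGroup X →* (NC X ℚ)ˣ)
        (_ : ∀ x, OrdGE ω (ω x + 1) ((μ (FreeGroup.of x) : NC X ℚ) - 1 - NC.letter x))
        (g : FreeGroup X) (_ : OrdGE ω n ((μ g : NC X ℚ) - 1)), g ∈ Gam ω n := by
      intro m
      induction m with
      | zero =>
        intro X _ _ ω hω hcard μ hμ g hg
        refine ihe (d + 1) (by omega) (by omega) X ω ?_ μ hμ g hg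
        intro x
        have h1 := hω x
        have h2 : ω x ≠ d := fun hx =>
          (Fintype.card_eq_zero_iff.mp hcard).false ⟨x, hx⟩
        omega
      | succ m ihm =>
        intro X _ _ ω hω hcard μ hμ g hg
        by_cases hdn : n ≤ d
        · exact gam_top_of_le ω n (fun x => le_trans hdn (hω x)) g
        have hpos : 0 < Fintype.card {x : X // ω x = d} := by omega
        obtain ⟨⟨a, ha⟩⟩ := Fintype.card_pos_iff.mp hpos
        refine magnus_step ω d n hd (by omega) hω a ha μ hμ g hg ?_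
        intro v hv
        refine ihm _ (fun p : {y : X // y ≠ a} × Fin n => ω p.1.1 + p.2.1 * d) ?_ ?_ (mag ℚ) ?_ v hv
        · intro p
          exact le_trans (hω p.1.1) (Nat.le_add_right _ _)
        · have hn0 : 0 < n := by omega
          have e1 : {p : {y : X // y ≠ a} × Fin n // ω p.1.1 + p.2.1 * d = d} ≃
              {x : {x : X // ω x = d} // x ≠ ⟨a, ha⟩} :=
            { toFun := fun p => ⟨⟨p.1.1.1, by
                have h1 := p.2
                have h2 := hω p.1.1.1
                nlinarith [Nat.zero_le (p.1.2.1 * d)]⟩, fun hh => p.1.1.2 (by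
                  simpa using congrArg (fun t : {x : X // ω x = d} => t.1) hh)⟩
              invFun := fun x => ⟨(⟨x.1.1, fun hh => x.2 (Subtype.ext hh)⟩, ⟨0, hn0⟩), by
                simp [x.1.2]⟩
              left_inv := by
                rintro ⟨⟨⟨y, hy⟩, k⟩, hp⟩
                have h2 := hω y
                have hk : k.1 = 0 := by
                  simp only at hp
                  by_contra hk
                  have : 1 ≤ k.1 := Nat.one_le_iff_ne_zero.mpr hk
                  nlinarith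
                have hk' : k = ⟨0, hn0⟩ := Fin.ext hk
                subst hk'
                rfl
              right_inv := by
                rintro ⟨⟨x, hx⟩, hne⟩
                rfl }
          rw [Fintype.card_congr e1, Fintype.card_subtype_compl, hcard]
          simp
        · intro p
          rw [mag_of]
          have : (1 + NC.letter p - 1 - NC.letter p : NC ({y : X // y ≠ a} × Fin n) ℚ) = 0 := by
            abel
          rw [this]
          exact OrdGE.zero
    intro X _ _ ω hω μ hμ g hg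
    exact inner _ X ω hω rfl μ hμ g hg

/-- **Weighted Magnus theorem.** -/
theorem magnus_weighted {X : Type} [Fintype X] [DecidableEq X] (ω : X → ℕ) (hω : ∀ x, 0 < ω x)
    (μ : FreeGroup X →* (NC X ℚ)ˣ)
    (hμ : ∀ x, OrdGE ω (ω x + 1) ((μ (FreeGroup.of x) : NC X ℚ) - 1 - NC.letter x))
    (n : ℕ) (g : FreeGroup X) (hg : OrdGE ω n ((μ g : NC X ℚ) - 1)) : g ∈ Gam ω n :=
  magnus_aux n n 1 one_pos (by omega) X ω hω μ hμ g hg

end Pool.Agent.Helper49.MagnusW
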