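import Pool.Agent.Helper49.BallGeom

set_option autoImplicit false
set_option linter.unusedSectionVars false

namespace BallQI

universe u

variable {E : Type*} [NormedAddCommGroup E] [InnerProductSpace ℝ E]

theorem attach_aux (hinf : (Metric.sphere (0 : E) 1).Infinite) {W₀ : Type u} [Finite W₀]
    (c₀ : W₀ → E) (r₀ : W₀ → ℝ) (hr₀ : ∀ w, 0 < r₀ w) (ρ₀ : W₀) (e₀ : E) (he₀ : ‖e₀‖ = 1)
    (hext₀ : ∀ w, w ≠ ρ₀ → inner ℝ (c₀ w) e₀ + r₀ w < inner ℝ (c₀ ρ₀) e₀ + r₀ ρ₀)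
    {I : Type u} (W : I → Type u) [∀ i, Finite (W i)]
    (c : ∀ i, W i → E) (r : ∀ i, W i → ℝ) (hr : ∀ i w, 0 < r i w)
    (ρ : ∀ i, W i) (e : I → E) (he : ∀ i, ‖e i‖ = 1)
    (hext : ∀ i w, w ≠ ρ i → inner ℝ (c i w) (e i) + r i w < inner ℝ (c i (ρ i)) (e i) + r i (ρ i))
    (h : I → W₀) (hexp : ∀ i w, w ≠ h i → r₀ (h i) + r₀ w ≤ dist (c₀ (h i)) (c₀ w))
    (s : Finset I) :
    ∃ (C : ∀ i, W i → E) (R : ∀ i, W i → ℝ), (∀ i ∈ s, ∀ w, 0 < R i w) ∧
      (∀ i ∈ s, ∀ w w', dist (C i w) (C i w') ≤ R i w + R i w' ↔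
        dist (c i w) (c i w') ≤ r i w + r i w') ∧
      (∀ i ∈ s, dist (c₀ (h i)) (C i (ρ i)) = r₀ (h i) + R i (ρ i)) ∧
      (∀ i ∈ s, ∀ w₁ w, ¬ (w₁ = h i ∧ w = ρ i) → r₀ w₁ + R i w < dist (c₀ w₁) (C i w)) ∧
      (∀ i ∈ s, ∀ j ∈ s, i ≠ j → ∀ w w', R i w + R j w' < dist (C i w) (C j w')) ∧
      (∀ i ∈ s, ∀ w, inner ℝ (C i w) e₀ + R i w < inner ℝ (c₀ ρ₀) e₀ + r₀ ρ₀) := by
  classical
  induction s using Finset.induction_on with
  | empty =>
    exact ⟨c, r, by simp, by simp, by simp, by simp, by simp, by simp⟩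
  | insert j s hj ih =>
    obtain ⟨C, R, hR, hC, htan, hdis, hdis', hex⟩ := ih
    let cc : (W₀ ⊕ Σ i : {i // i ∈ s}, W i.1) → E := Sum.elim c₀ (fun p => C p.1.1 p.2)
    let rr : (W₀ ⊕ Σ i : {i // i ∈ s}, W i.1) → ℝ := Sum.elim r₀ (fun p => R p.1.1 p.2)
    obtain ⟨c₂, r₂, h1, h2, h3, h4, h5, h6⟩ := attach hinf cc rr (c j) (r j)
      (by rintro (w | ⟨i, w⟩); exacts [hr₀ w, hR i.1 i.2 w]) (hr j) (Sum.inl (h j))
      (by
        rintro (w | ⟨i, w⟩) hw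
        · exact hexp j w (fun hw' => hw (by rw [hw']))
        · show r₀ (h j) + R i.1 w ≤ dist (c₀ (h j)) (C i.1 w)
          by_cases hcase : h j = h i.1 ∧ w = ρ i.1
          · rw [hcase.1, hcase.2]
            exact (htan i.1 i.2).ge
          · exact (hdis i.1 i.2 (h j) w hcase).le)
      (Sum.inl ρ₀) e₀ he₀
      (by
        rintro (w | ⟨i, w⟩) hw
        · exact hext₀ w (fun hw' => hw (by rw [hw']))
        · exact hex i.1 i.2 w)
      (ρ j) (e j) (he j) (hext j)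
    have hne : ∀ i ∈ s, i ≠ j := by
      rintro i hi rfl
      exact hj hi
    have hCj : ∀ i ∈ s, Function.update C j c₂ i = C i := fun i hi =>
      Function.update_of_ne (hne i hi) _ _
    have hRj : ∀ i ∈ s, Function.update R j r₂ i = R i := fun i hi =>
      Function.update_of_ne (hne i hi) _ _
    refine ⟨Function.update C j c₂, Function.update R j r₂, ?_, ?_, ?_, ?_, ?_, ?_⟩
    · intro i hi w
      rcases Finset.mem_insert.1 hi with rfl | hi
      · rw [Function.update_self]; exact h1 w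
      · rw [hRj i hi]; exact hR i hi w
    · intro i hi w w'
      rcases Finset.mem_insert.1 hi with rfl | hi
      · rw [Function.update_self, Function.update_self]; exact h2 w w'
      · rw [hRj i hi, hCj i hi]; exact hC i hi w w'
    · intro i hi
      rcases Finset.mem_insert.1 hi with rfl | hi
      · rw [Function.update_self, Function.update_self]; exact h3
      · rw [hRj i hi, hCj i hi]; exact htan i hi
    · intro i hi w₁ w hne
      rcases Finset.mem_insert.1 hi with rfl | hi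
      · rw [Function.update_self, Function.update_self]
        by_cases hw₁ : w₁ = h i
        · subst hw₁
          exact h4 w (fun hw => hne ⟨rfl, hw⟩)
        · exact h5 (Sum.inl w₁) (fun hw => hw₁ (by simpa using hw)) w
      · rw [hRj i hi, hCj i hi]; exact hdis i hi w₁ w hne
    · intro i hi0 i' hi0' hii w w'
      rcases Finset.mem_insert.1 hi0 with rfl | hi <;>
        rcases Finset.mem_insert.1 hi0' with hi' | hi'
      · exact absurd hi'.symm hii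
      · rw [hRj i' hi', hCj i' hi', Function.update_self, Function.update_self]
        have := h5 (Sum.inr ⟨⟨i', hi'⟩, w'⟩) (by simp) w
        rw [dist_comm, add_comm]
        exact this
      · subst hi'
        rw [hRj i hi, hCj i hi, Function.update_self, Function.update_self]
        exact h5 (Sum.inr ⟨⟨i, hi⟩, w⟩) (by simp) w'
      · rw [hRj i hi, hCj i hi, hRj i' hi', hCj i' hi']; exact hdis' i hi i' hi' hii w w'
    · intro i hi w
      rcases Finset.mem_insert.1 hi with rfl | hi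
      · rw [Function.update_self, Function.update_self]; exact h6 w
      · rw [hRj i hi, hCj i hi]; exact hex i hi w

/-- attaching finitely many configurations at exposed balls of a given configuration -/
theorem attach_many (hinf : (Metric.sphere (0 : E) 1).Infinite) {W₀ : Type u} [Finite W₀]
    (c₀ : W₀ → E) (r₀ : W₀ → ℝ) (hr₀ : ∀ w, 0 < r₀ w) (ρ₀ : W₀) (e₀ : E) (he₀ : ‖e₀‖ = 1)
    (hext₀ : ∀ w, w ≠ ρ₀ → inner ℝ (c₀ w) e₀ + r₀ w < inner ℝ (c₀ ρ₀) e₀ + r₀ ρ₀)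
    {I : Type u} [Finite I] (W : I → Type u) [∀ i, Finite (W i)]
    (c : ∀ i, W i → E) (r : ∀ i, W i → ℝ) (hr : ∀ i w, 0 < r i w)
    (ρ : ∀ i, W i) (e : I → E) (he : ∀ i, ‖e i‖ = 1)
    (hext : ∀ i w, w ≠ ρ i → inner ℝ (c i w) (e i) + r i w < inner ℝ (c i (ρ i)) (e i) + r i (ρ i))
    (h : I → W₀) (hexp : ∀ i w, w ≠ h i → r₀ (h i) + r₀ w ≤ dist (c₀ (h i)) (c₀ w)) :
    ∃ (cc : (W₀ ⊕ Σ i, W i) → E) (rr : (W₀ ⊕ Σ i, W i) → ℝ), (∀ w, 0 < rr w) ∧
      (∀ a b, (bgraph c₀ r₀).Adj a b → (bgraph cc rr).Adj (Sum.inl a) (Sum.inl b)) ∧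
      (∀ i a b, (bgraph (c i) (r i)).Adj a b →
        (bgraph cc rr).Adj (Sum.inr ⟨i, a⟩) (Sum.inr ⟨i, b⟩)) ∧
      (∀ i, (bgraph cc rr).Adj (Sum.inl (h i)) (Sum.inr ⟨i, ρ i⟩)) ∧
      (∀ s t, (bgraph cc rr).Adj s t →
        (∃ a b, s = Sum.inl a ∧ t = Sum.inl b ∧ (bgraph c₀ r₀).Adj a b) ∨
        (∃ i a b, s = Sum.inr ⟨i, a⟩ ∧ t = Sum.inr ⟨i, b⟩ ∧ (bgraph (c i) (r i)).Adj a b) ∨
        (∃ i, s = Sum.inl (h i) ∧ t = Sum.inr ⟨i, ρ i⟩) ∨
        (∃ i, t = Sum.inl (h i) ∧ s = Sum.inr ⟨i, ρ i⟩)) ∧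
      (∀ w, w ≠ Sum.inl ρ₀ → inner ℝ (cc w) e₀ + rr w <
        inner ℝ (cc (Sum.inl ρ₀)) e₀ + rr (Sum.inl ρ₀)) := by
  classical
  cases nonempty_fintype I
  obtain ⟨C, R, hR, hC, htan, hdis, hdis', hex⟩ := attach_aux hinf c₀ r₀ hr₀ ρ₀ e₀ he₀ hext₀ W c r hr
    ρ e he hext h hexp Finset.univ
  let cc : (W₀ ⊕ Σ i, W i) → E := Sum.elim c₀ (fun p => C p.1 p.2)
  let rr : (W₀ ⊕ Σ i, W i) → ℝ := Sum.elim r₀ (fun p => R p.1 p.2)
  have hmix : ∀ a i b, (bgraph cc rr).Adj (Sum.inl a) (Sum.inr ⟨i, b⟩) → a = h i ∧ b = ρ i := by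
    intro a i b hadj
    by_contra hcon
    have h1 := hdis i (Finset.mem_univ _) a b hcon
    have h2 : dist (c₀ a) (C i b) ≤ r₀ a + R i b := hadj.2
    linarith
  refine ⟨cc, rr, ?_, ?_, ?_, ?_, ?_, ?_⟩
  · rintro (w | ⟨i, w⟩)
    · exact hr₀ w
    · exact hR i (Finset.mem_univ _) w
  · intro a b hab
    exact ⟨fun h' => hab.1 (by simpa using h'), hab.2⟩
  · intro i a b hab
    refine ⟨fun h' => hab.1 (by simpa using h'), ?_⟩
    exact (hC i (Finset.mem_univ _) a b).2 hab.2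
  · intro i
    exact ⟨by simp, (htan i (Finset.mem_univ _)).le⟩
  · rintro (a | ⟨i, a⟩) (b | ⟨j, b⟩) hadj
    · left
      exact ⟨a, b, rfl, rfl, fun h' => hadj.1 (by rw [h']), hadj.2⟩
    · obtain ⟨rfl, rfl⟩ := hmix a j b hadj
      exact Or.inr (Or.inr (Or.inl ⟨j, rfl, rfl⟩))
    · obtain ⟨rfl, rfl⟩ := hmix b i a hadj.symm
      exact Or.inr (Or.inr (Or.inr ⟨i, rfl, rfl⟩))
    · right; left
      by_cases hij : i = j
      · subst hij
        refine ⟨i, a, b, rfl, rfl, fun h' => hadj.1 (by rw [h']), ?_⟩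
        exact (hC i (Finset.mem_univ _) a b).1 hadj.2
      · exfalso
        have h1 := hdis' i (Finset.mem_univ _) j (Finset.mem_univ _) hij a b
        have h2 : dist (C i a) (C j b) ≤ R i a + R j b := hadj.2
        linarith
  · rintro (w | ⟨i, w⟩) hw
    · exact hext₀ w (fun hw' => hw (by rw [hw']))
    · exact hex i (Finset.mem_univ _) w

end BallQI
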