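import Pool.Agent.Helper49.BallPiece

set_option autoImplicit false
set_option linter.unusedSectionVars false

namespace BallQI

universe u

variable {E : Type*} [NormedAddCommGroup E] [InnerProductSpace ℝ E]

lemma gmeet_honest {P : Type*} {comp : P → Prop} {c : P → E} {r : P → ℝ} {u v : P}
    (h : gmeet comp c r u v) (hu : ¬ comp u) (hv : ¬ comp v) : dist (c u) (c v) ≤ r u + r v := by
  rcases h with h1 | h1 | h1 | h1
  · exact absurd h1.1 hu
  · exact absurd h1.1 hu
  · exact absurd h1.2.1 hv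
  · exact h1.2.2

/-- The exposed configuration of honest balls replacing a configuration of generalised balls. -/
theorem piece [Nontrivial E] (hinf : (Metric.sphere (0 : E) 1).Infinite) {P : Type u} [Finite P]
    (comp : P → Prop) (c : P → E) (r : P → ℝ)
    (hr : ∀ u, 0 < r u) (x : P) (hx : comp x) (N : Set P) (hxN : x ∈ N)
    (hsep : ∀ h ∈ N, ∀ h' ∈ N, Within (ggraph comp c r) 4 h h' → h = h') :
    ∃ (W : Type u) (_ : Finite W) (c' : W → E) (r' : W → ℝ) (e : E) (θ : P → W) (ψ : W → P),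
      ‖e‖ = 1 ∧ (∀ w, 0 < r' w) ∧
      (∀ u v, (ggraph comp c r).Adj u v → Within (bgraph c' r') 2 (θ u) (θ v)) ∧
      (∀ w w', (bgraph c' r').Adj w w' → Within (ggraph comp c r) 3 (ψ w) (ψ w')) ∧
      (∀ h ∈ N, ψ (θ h) = h) ∧
      (∀ u, Within (ggraph comp c r) 1 (ψ (θ u)) u) ∧
      (∀ w, Within (bgraph c' r') 1 w (θ (ψ w))) ∧
      (∀ h ∈ N, ∀ w, w ≠ θ h → r' (θ h) + r' w ≤ dist (c' (θ h)) (c' w)) ∧
      (∀ w, w ≠ θ x → inner ℝ (c' w) e + r' w < inner ℝ (c' (θ x)) e + r' (θ x)) := by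
  classical
  set 𝔾 := ggraph comp c r with h𝔾
  -- honesty and insideness of non-neighbours of `x`
  have hinside : ∀ u, u ≠ x → ¬ 𝔾.Adj x u → ¬ comp u ∧ dist (c u) (c x) + r u < r x := by
    intro u hu hnu
    have hcu : ¬ comp u := fun hcu => hnu ⟨hu.symm, Or.inl ⟨hx, hcu⟩⟩
    refine ⟨hcu, ?_⟩
    by_contra hcon
    push Not at hcon
    exact hnu ⟨hu.symm, Or.inr (Or.inl ⟨hx, hcu, by rw [dist_comm]; exact hcon⟩)⟩
  let Ret : P → Prop := fun u => u ≠ x ∧ (u ∈ N ∨ ∀ h ∈ N, u ≠ h ∧ ¬ 𝔾.Adj h u)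
  let D2 : P → Prop := fun w => ∃ h ∈ N, w ≠ h ∧ ¬ 𝔾.Adj h w ∧ ∃ v, 𝔾.Adj h v ∧ 𝔾.Adj v w
  have hNN : ∀ h ∈ N, ∀ h' ∈ N, ¬ 𝔾.Adj h h' := by
    intro h hh h' hh' hadj
    exact hadj.ne (hsep h hh h' hh' ((Within.of_adj hadj).mono (by norm_num)))
  have hRet_nadj : ∀ u, Ret u → ¬ 𝔾.Adj x u := by
    rintro u ⟨hux, hu | hu⟩ hadj
    · exact hNN x hxN u hu hadj
    · exact (hu x hxN).2 hadj
  have hRet_in : ∀ u, Ret u → ¬ comp u ∧ dist (c u) (c x) + r u < r x :=
    fun u hu => hinside u hu.1 (hRet_nadj u hu)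
  have hbeta : ∀ w : {w // D2 w}, _ := fun w => exists_beta comp c r hr x hx N hxN hsep w.1 w.2
  choose hb vb cb rb hbN hbne hbnadj hbv hvw hbc hrb hmeet hsub hbx hbh using hbeta
  have huniq : ∀ h ∈ N, ∀ h' ∈ N, ∀ n, n ≤ 4 → Within 𝔾 n h h' → h = h' :=
    fun h hh h' hh' n hn hw => hsep h hh h' hh' (hw.mono hn)
  -- vertices at distance two from a hub are retained
  have hD2Ret : ∀ w, D2 w → Ret w := by
    rintro w ⟨h, hh, hwh, hnadj, v, hhv, hvw'⟩
    have h2 : Within 𝔾 2 h w := (Within.of_adj hhv).trans (Within.of_adj hvw')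
    have hwN : w ∉ N := fun hwN => hwh (huniq h hh w hwN 2 (by norm_num) h2).symm
    refine ⟨fun hwx => hwN (hwx ▸ hxN), Or.inr fun h' hh' => ⟨fun hw => hwN (hw ▸ hh'), fun hadj => ?_⟩⟩
    have : h = h' := huniq h hh h' hh' 3 (by norm_num) (h2.trans (Within.of_adj hadj.symm))
    subst this
    exact hnadj hadj
  -- the configuration
  let c0 : {u // Ret u} ⊕ {w // D2 w} → E := Sum.elim (fun u => c u.1) (fun w => cb w)
  let r0 : {u // Ret u} ⊕ {w // D2 w} → ℝ := Sum.elim (fun u => r u.1) (fun w => rb w)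
  have hr0 : ∀ w, 0 < r0 w := by
    rintro (u | w)
    · exact hr u.1
    · exact hrb w
  have hin0 : ∀ w, dist (c0 w) (c x) + r0 w < r x ∨ (dist (c0 w) (c x) + r0 w = r x ∧ c0 w ≠ c x) := by
    rintro (u | w)
    · exact Or.inl (hRet_in u.1 u.2).2
    · by_cases h : hb w = x
      · exact Or.inr (hbx w h)
      · exact Or.inl (hbh w h).2
  obtain ⟨c', r', e, he, hr', hle, hge, hroot, hrootge, hext⟩ :=
    invert_config hinf c0 r0 hr0 (c x) (r x) (hr x) hin0
  -- normal form
  have hnf : ∀ u, ∃ v, (v ∈ N ∧ 𝔾.Adj v u) ∨ ((∀ h ∈ N, ¬ 𝔾.Adj h u) ∧ v = u) := by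
    intro u
    by_cases h : ∃ h ∈ N, 𝔾.Adj h u
    · obtain ⟨h, hh, hadj⟩ := h
      exact ⟨h, Or.inl ⟨hh, hadj⟩⟩
    · push Not at h
      exact ⟨u, Or.inr ⟨h, rfl⟩⟩
  choose nf hnf using hnf
  have hnfN : ∀ h ∈ N, nf h = h := by
    intro h hh
    rcases hnf h with ⟨h1, h2⟩ | ⟨_, h2⟩
    · exact absurd h2 (hNN _ h1 h hh)
    · exact h2
  have hnfRet : ∀ u, nf u = x ∨ Ret (nf u) := by
    intro u
    by_cases hux : nf u = x
    · exact Or.inl hux
    right
    refine ⟨hux, ?_⟩
    rcases hnf u with ⟨h1, h2⟩ | ⟨h1, h2⟩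
    · exact Or.inl h1
    · rw [h2]
      by_cases huN : u ∈ N
      · exact Or.inl huN
      · exact Or.inr fun h hh => ⟨fun hu => huN (hu ▸ hh), h1 h hh⟩
  let g : P → Option ({u // Ret u} ⊕ {w // D2 w}) :=
    fun u => if h : Ret u then some (Sum.inl ⟨u, h⟩) else none
  have hgx : g x = none := dif_neg fun h => h.1 rfl
  have hgRet : ∀ u (h : Ret u), g u = some (Sum.inl ⟨u, h⟩) := fun u h => dif_pos h
  let ψ : Option ({u // Ret u} ⊕ {w // D2 w}) → P :=
    fun w => w.elim x (Sum.elim (fun u => u.1) (fun w => w.1))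
  have hψg : ∀ u, u = x ∨ Ret u → ψ (g u) = u := by
    rintro u (rfl | h)
    · rw [hgx]; rfl
    · rw [hgRet u h]; rfl
  -- touching facts
  have htouch : ∀ w : {w // D2 w}, (bgraph c' r').Adj (g (hb w)) (some (Sum.inr w)) := by
    intro w
    by_cases h : hb w = x
    · rw [h, hgx]
      refine ⟨fun h' => Option.some_ne_none _ h'.symm, ?_⟩
      exact (hroot (Sum.inr w)).2 (hbx w h).1
    · have hRet : Ret (hb w) := ⟨h, Or.inl (hbN w)⟩
      rw [hgRet _ hRet]
      refine ⟨fun h' => by simp at h', ?_⟩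
      refine (hle (Sum.inl ⟨hb w, hRet⟩) (Sum.inr w)).2 ?_
      show dist (c (hb w)) (cb w) ≤ r (hb w) + rb w
      rw [dist_comm, (hbh w h).1, add_comm]
  have hmeetw : ∀ w : {w // D2 w}, (bgraph c' r').Adj (some (Sum.inr w))
      (some (Sum.inl ⟨w.1, hD2Ret w.1 w.2⟩)) := by
    intro w
    refine ⟨fun h' => by simp at h', ?_⟩
    refine (hle (Sum.inr w) (Sum.inl ⟨w.1, hD2Ret w.1 w.2⟩)).2 ?_
    exact hmeet w
  have hadjRet : ∀ u v (hu : Ret u) (hv : Ret v), 𝔾.Adj u v →
      (bgraph c' r').Adj (some (Sum.inl ⟨u, hu⟩)) (some (Sum.inl ⟨v, hv⟩)) := by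
    intro u v hu hv hadj
    refine ⟨fun h' => hadj.ne (by simpa using h'), ?_⟩
    refine (hle (Sum.inl ⟨u, hu⟩) (Sum.inl ⟨v, hv⟩)).2 ?_
    show dist (c u) (c v) ≤ r u + r v
    exact gmeet_honest hadj.2 (hRet_in u hu).1 (hRet_in v hv).1
  -- key one sided case
  have hcase : ∀ u v, nf u ∈ N → 𝔾.Adj (nf u) u → (∀ h ∈ N, ¬ 𝔾.Adj h v) → 𝔾.Adj u v →
      Within (bgraph c' r') 2 (g (nf u)) (g v) := by
    intro u v huN hnu hnv huv
    by_cases hvh : v = nf u
    · rw [hvh]; exact Within.refl _ _ _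
    have hD : D2 v := ⟨nf u, huN, hvh, hnv _ huN, u, hnu, huv⟩
    have heq : nf u = hb ⟨v, hD⟩ := by
      refine hsep _ huN _ (hbN ⟨v, hD⟩) ?_
      exact (((Within.of_adj hnu).trans (Within.of_adj huv)).trans
        (Within.of_adj (hvw ⟨v, hD⟩).symm)).trans (Within.of_adj (hbv ⟨v, hD⟩).symm)
    rw [heq, hgRet v (hD2Ret v hD)]
    exact (Within.of_adj (htouch ⟨v, hD⟩)).trans (Within.of_adj (hmeetw ⟨v, hD⟩))
  refine ⟨Option ({u // Ret u} ⊕ {w // D2 w}), inferInstance, c', r', e, fun u => g (nf u), ψ, he,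
    hr', ?_, ?_, ?_, ?_, ?_, ?_, ?_⟩
  · -- (1)
    intro u v huv
    rcases hnf u with ⟨hu1, hu2⟩ | ⟨hu1, hu2⟩ <;> rcases hnf v with ⟨hv1, hv2⟩ | ⟨hv1, hv2⟩
    · have : nf u = nf v := by
        refine huniq _ hu1 _ hv1 3 (by norm_num) ?_
        exact ((Within.of_adj hu2).trans (Within.of_adj huv)).trans (Within.of_adj hv2.symm)
      show Within _ 2 (g (nf u)) (g (nf v))
      rw [this]
      exact Within.refl _ _ _
    · have := hcase u v hu1 hu2 hv1 huv
      show Within _ 2 (g (nf u)) (g (nf v))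
      rw [hv2]
      exact this
    · have := hcase v u hv1 hv2 hu1 huv.symm
      show Within _ 2 (g (nf u)) (g (nf v))
      rw [hu2]
      exact this.symm
    · show Within _ 2 (g (nf u)) (g (nf v))
      rw [hu2, hv2]
      have huN : u ∉ N := fun h => hv1 u h huv
      have hvN : v ∉ N := fun h => hu1 v h huv.symm
      have hRu : Ret u := ⟨fun h => huN (h ▸ hxN), Or.inr fun h hh => ⟨fun h' => huN (h' ▸ hh), hu1 h hh⟩⟩
      have hRv : Ret v := ⟨fun h => hvN (h ▸ hxN), Or.inr fun h hh => ⟨fun h' => hvN (h' ▸ hh), hv1 h hh⟩⟩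
      rw [hgRet u hRu, hgRet v hRv]
      exact (Within.of_adj (hadjRet u v hRu hRv huv)).mono (by norm_num)
  · -- (2)
    have hone : ∀ v u : P, gmeet comp c r v u → Within 𝔾 1 v u := by
      intro v u h
      by_cases hvu : v = u
      · exact Within.of_eq hvu
      · exact Within.of_adj ⟨hvu, h⟩
    have hsn : ∀ w, (bgraph c' r').Adj none (some w) → Within 𝔾 3 x (ψ (some w)) := by
      rintro (u | w) hadj
      · exfalso
        have := (hroot (Sum.inl u)).1 hadj.2
        exact absurd this (ne_of_lt (hRet_in u.1 u.2).2)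
      · have := (hroot (Sum.inr w)).1 hadj.2
        have hbwx : hb w = x := by
          by_contra h
          exact absurd this (ne_of_lt (hbh w h).2)
        show Within 𝔾 3 x w.1
        have h1 := hbv w
        have h2 := hvw w
        rw [hbwx] at h1
        exact ((Within.of_adj h1).trans (Within.of_adj h2)).mono (by norm_num)
    rintro (_ | w) (_ | w') hadj
    · exact absurd rfl hadj.1
    · exact hsn w' hadj
    · exact (hsn w hadj.symm).symm
    · have hd := (hle w w').1 hadj.2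
      rcases w with u | w <;> rcases w' with u' | w'
      · show Within 𝔾 3 u.1 u'.1
        exact (hone _ _ (Or.inr (Or.inr (Or.inr ⟨(hRet_in u.1 u.2).1, (hRet_in u'.1 u'.2).1, hd⟩)))).mono
          (by norm_num)
      · show Within 𝔾 3 u.1 w'.1
        have h1 : gmeet comp c r (vb w') u.1 := by
          refine (hsub w').meet (hRet_in u.1 u.2).1 ?_
          rw [dist_comm, add_comm]
          exact hd
        exact ((hone _ _ (gmeet_symm h1)).trans (Within.of_adj (hvw w'))).mono (by norm_num)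
      · show Within 𝔾 3 w.1 u'.1
        have h1 : gmeet comp c r (vb w) u'.1 := (hsub w).meet (hRet_in u'.1 u'.2).1 hd
        exact ((Within.of_adj (hvw w).symm).trans (hone _ _ h1)).mono (by norm_num)
      · show Within 𝔾 3 w.1 w'.1
        have h1 : gmeet comp c r (vb w) (vb w') := (hsub w).meet₂ (hsub w') hd
        exact ((Within.of_adj (hvw w).symm).trans (hone _ _ h1)).trans (Within.of_adj (hvw w'))
  · -- hubs
    intro h hh
    show ψ (g (nf h)) = h
    rw [hnfN h hh]
    apply hψg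
    have := hnfRet h
    rwa [hnfN h hh] at this
  · intro u
    show Within 𝔾 1 (ψ (g (nf u))) u
    rw [hψg _ (hnfRet u)]
    rcases hnf u with ⟨_, h2⟩ | ⟨_, h2⟩
    · exact Within.of_adj h2
    · exact Within.of_eq h2
  · rintro (_ | (u | w))
    · show Within _ 1 none (g (nf x))
      rw [hnfN x hxN, hgx]
      exact Within.refl _ _ _
    · show Within _ 1 (some (Sum.inl u)) (g (nf u.1))
      have hnfu : nf u.1 = u.1 := by
        rcases u.2.2 with h | h
        · exact hnfN _ h
        · rcases hnf u.1 with ⟨h1, h2⟩ | ⟨_, h2⟩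
          · exact absurd h2 (h _ h1).2
          · exact h2
      rw [hnfu, hgRet u.1 u.2]
      exact Within.refl _ _ _
    · show Within _ 1 (some (Sum.inr w)) (g (nf w.1))
      have hRet := hD2Ret w.1 w.2
      have hnfu : nf w.1 = w.1 := by
        rcases hRet.2 with h | h
        · exact hnfN _ h
        · rcases hnf w.1 with ⟨h1, h2⟩ | ⟨_, h2⟩
          · exact absurd h2 (h _ h1).2
          · exact h2
      rw [hnfu, hgRet w.1 hRet]
      exact Within.of_adj (hmeetw w)
  · -- exposure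
    intro h hh w hw
    change w ≠ g (nf h) at hw
    show r' (g (nf h)) + r' w ≤ dist (c' (g (nf h))) (c' w)
    rw [hnfN h hh] at hw ⊢
    by_cases hhx : h = x
    · subst hhx
      rw [hgx] at hw ⊢
      cases w with
      | none => exact absurd rfl hw
      | some w => exact hrootge w
    · have hRet : Ret h := ⟨hhx, Or.inl hh⟩
      rw [hgRet h hRet] at hw ⊢
      cases w with
      | none =>
        have := hrootge (Sum.inl ⟨h, hRet⟩)
        rw [dist_comm, add_comm]
        exact this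
      | some w =>
        refine (hge _ w).2 ?_
        rcases w with u | w
        · show r h + r u.1 ≤ dist (c h) (c u.1)
          by_contra hcon
          push Not at hcon
          have hne : h ≠ u.1 := by
            intro h'
            apply hw
            congr 2
            exact Subtype.ext h'.symm
          have hadj : 𝔾.Adj h u.1 :=
            ⟨hne, Or.inr (Or.inr (Or.inr ⟨(hRet_in h hRet).1, (hRet_in u.1 u.2).1, hcon.le⟩))⟩
          rcases u.2.2 with h' | h'
          · exact hNN _ hh _ h' hadj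
          · exact (h' h hh).2 hadj
        · show r h + rb w ≤ dist (c h) (cb w)
          by_cases hhb : hb w = h
          · have := (hbh w (by rw [hhb]; exact hhx)).1
            rw [hhb] at this
            rw [dist_comm, this, add_comm]
          · by_contra hcon
            push Not at hcon
            apply hhb
            have h1 : gmeet comp c r (vb w) h := by
              refine (hsub w).meet (hRet_in h hRet).1 ?_
              rw [dist_comm, add_comm]
              exact hcon.le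
            refine hsep _ (hbN w) _ hh ?_
            by_cases hvh : vb w = h
            · have := hbv w
              rw [hvh] at this
              exact (Within.of_adj this).mono (by norm_num)
            · have h2 : 𝔾.Adj (vb w) h := ⟨hvh, h1⟩
              exact ((Within.of_adj (hbv w)).trans (Within.of_adj h2)).mono (by norm_num)
  · intro w hw
    change w ≠ g (nf x) at hw
    show _ < inner ℝ (c' (g (nf x))) e + r' (g (nf x))
    rw [hnfN x hxN, hgx] at hw ⊢
    cases w with
    | none => exact absurd rfl hw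
    | some w => exact hext w

end BallQI
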