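import Pool.Agent.Helper49.SphNode
import Pool.Agent.Helper49.BallAttach
import Pool.Agent.Helper49.BallPieceMain

set_option autoImplicit false
set_option linter.unusedSectionVars false

namespace BallQI

universe u

variable {E : Type*} [NormedAddCommGroup E] [InnerProductSpace ℝ E]

/-- a rooted configuration of balls with maps from and to the vertex set -/
structure Conf (V : Type u) (E : Type*) [NormedAddCommGroup E] [InnerProductSpace ℝ E] where
  W : Type u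
  fin : Finite W
  c : W → E
  r : W → ℝ
  ρ : W
  e : E
  φ : V → W
  ψ : W → V
  hr : ∀ w, 0 < r w
  he : ‖e‖ = 1
  hext : ∀ w, w ≠ ρ → inner ℝ (c w) e + r w < inner ℝ (c ρ) e + r ρ

variable {V : Type u}

/-- the properties of the configuration -/
structure Conf.Good (C : Conf V E) (G : SimpleGraph V) (D top : Set V) (R : V) : Prop where
  a : ∀ z ∈ D, ∀ z' ∈ D, G.Adj z z' → Within (bgraph C.c C.r) 37 (C.φ z) (C.φ z')
  b : ∀ w w', (bgraph C.c C.r).Adj w w' → Within G 35 (C.ψ w) (C.ψ w')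
  c : ∀ z ∈ D, Within G 8 (C.ψ (C.φ z)) z
  d : ∀ w, Within (bgraph C.c C.r) 9 w C.ρ ∨ ∃ z ∈ D, Within (bgraph C.c C.r) 17 w (C.φ z)
  e : ∀ z ∈ D, z ∈ top → Within (bgraph C.c C.r) 8 (C.φ z) C.ρ
  f : C.ψ C.ρ = R

theorem glue (hinf : (Metric.sphere (0 : E) 1).Infinite) (G : SimpleGraph V) (D top : Set V) (R : V)
    (C₀ : Conf V E) (Q0 : Set V) (hQD : Q0 ⊆ D)
    (a0 : ∀ z ∈ Q0, ∀ z' ∈ Q0, G.Adj z z' → Within (bgraph C₀.c C₀.r) 37 (C₀.φ z) (C₀.φ z'))
    (b0 : ∀ w w', (bgraph C₀.c C₀.r).Adj w w' → Within G 35 (C₀.ψ w) (C₀.ψ w'))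
    (c0 : ∀ z ∈ Q0, Within G 8 (C₀.ψ (C₀.φ z)) z)
    (d0 : ∀ w, Within (bgraph C₀.c C₀.r) 9 w C₀.ρ ∨
      ∃ z ∈ Q0, Within (bgraph C₀.c C₀.r) 17 w (C₀.φ z))
    (e0 : ∀ z ∈ D, z ∈ top → z ∈ Q0 ∧ Within (bgraph C₀.c C₀.r) 8 (C₀.φ z) C₀.ρ)
    (f0 : C₀.ψ C₀.ρ = R)
    {I : Type u} [Finite I] (Sc tp : I → Set V) (Rc : I → V) (C : I → Conf V E)
    (hC : ∀ i, (C i).Good G (Sc i) (tp i) (Rc i))
    (h : I → C₀.W)
    (hexp : ∀ i w, w ≠ h i → C₀.r (h i) + C₀.r w ≤ dist (C₀.c (h i)) (C₀.c w))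
    (hR : ∀ i, Within G 35 (C₀.ψ (h i)) (Rc i))
    (g0 : ∀ i, ∀ z ∈ Sc i, z ∈ D ∧ z ∉ Q0)
    (g0' : ∀ z ∈ D, z ∉ Q0 → ∃ i, z ∈ Sc i)
    (g0'' : ∀ i j z, z ∈ Sc i → z ∈ Sc j → i = j)
    (g1 : ∀ i z z', z ∈ Q0 → z' ∈ Sc i → G.Adj z z' →
      z' ∈ tp i ∧ Within (bgraph C₀.c C₀.r) 28 (C₀.φ z) (h i))
    (g2 : ∀ i j z z', z ∈ Sc i → z' ∈ Sc j → G.Adj z z' → i = j)
    (g3 : ∀ i, ∃ z ∈ Sc i, z ∈ tp i) :
    ∃ C' : Conf V E, C'.Good G D top R := by
  classical
  have := C₀.fin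
  have : ∀ i, Finite (C i).W := fun i => (C i).fin
  obtain ⟨cc, rr, hrr, hll, hii, hlr, hclass, hext⟩ := attach_many hinf C₀.c C₀.r C₀.hr C₀.ρ C₀.e
    C₀.he C₀.hext (fun i => (C i).W) (fun i => (C i).c) (fun i => (C i).r) (fun i => (C i).hr)
    (fun i => (C i).ρ) (fun i => (C i).e) (fun i => (C i).he) (fun i => (C i).hext) h hexp
  set H := bgraph cc rr with hH
  have hWl : ∀ {n a b}, Within (bgraph C₀.c C₀.r) n a b → Within H n (Sum.inl a) (Sum.inl b) := by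
    intro n a b hw
    have := Within.map_lip (K := 1) (H := H) (fun a => (Sum.inl a : C₀.W ⊕ Σ i, (C i).W))
      (fun a b hab => Within.of_adj (hll a b hab)) hw
    simpa using this
  have hWr : ∀ {i n a b}, Within (bgraph (C i).c (C i).r) n a b →
      Within H n (Sum.inr ⟨i, a⟩) (Sum.inr ⟨i, b⟩) := by
    intro i n a b hw
    have := Within.map_lip (K := 1) (H := H) (fun a => (Sum.inr ⟨i, a⟩ : C₀.W ⊕ Σ i, (C i).W))
      (fun a b hab => Within.of_adj (hii i a b hab)) hw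
    simpa using this
  let φ : V → C₀.W ⊕ Σ i, (C i).W := fun z =>
    if z ∈ Q0 then Sum.inl (C₀.φ z) else
      if hs : ∃ i, z ∈ Sc i then Sum.inr ⟨hs.choose, (C hs.choose).φ z⟩ else Sum.inl (C₀.φ z)
  have hφQ : ∀ z ∈ Q0, φ z = Sum.inl (C₀.φ z) := fun z hz => if_pos hz
  have hφS : ∀ i, ∀ z ∈ Sc i, φ z = Sum.inr ⟨i, (C i).φ z⟩ := by
    intro i z hz
    have hnQ := (g0 i z hz).2
    have hs : ∃ i, z ∈ Sc i := ⟨i, hz⟩
    have h1 : φ z = Sum.inr ⟨hs.choose, (C hs.choose).φ z⟩ := by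
      simp only [φ, if_neg hnQ, dif_pos hs]
    have h2 : hs.choose = i := g0'' _ _ z hs.choose_spec hz
    rw [h1]
    generalize hs.choose = j at h2
    subst h2
    rfl
  let ψ : (C₀.W ⊕ Σ i, (C i).W) → V := Sum.elim C₀.ψ (fun p => (C p.1).ψ p.2)
  -- the crossing edges
  have hcross : ∀ i z z', z ∈ Q0 → z' ∈ Sc i → G.Adj z z' → Within H 37 (φ z) (φ z') := by
    intro i z z' hz hz' hadj
    obtain ⟨h1, h2⟩ := g1 i z z' hz hz' hadj
    rw [hφQ z hz, hφS i z' hz']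
    exact ((hWl h2).trans (Within.of_adj (hlr i))).trans (hWr ((hC i).e z' hz' h1)).symm
  refine ⟨{ W := C₀.W ⊕ Σ i, (C i).W, fin := inferInstance, c := cc, r := rr, ρ := Sum.inl C₀.ρ,
            e := C₀.e, φ := φ, ψ := ψ, hr := hrr, he := C₀.he, hext := hext }, ?_⟩
  refine ⟨?_, ?_, ?_, ?_, ?_, ?_⟩
  · intro z hz z' hz' hadj
    show Within H 37 (φ z) (φ z')
    by_cases hq : z ∈ Q0 <;> by_cases hq' : z' ∈ Q0
    · rw [hφQ z hq, hφQ z' hq']
      exact hWl (a0 z hq z' hq' hadj)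
    · obtain ⟨i, hi⟩ := g0' z' hz' hq'
      exact hcross i z z' hq hi hadj
    · obtain ⟨i, hi⟩ := g0' z hz hq
      exact (hcross i z' z hq' hi hadj.symm).symm
    · obtain ⟨i, hi⟩ := g0' z hz hq
      obtain ⟨j, hj⟩ := g0' z' hz' hq'
      have hij := g2 i j z z' hi hj hadj
      subst hij
      rw [hφS i z hi, hφS i z' hj]
      exact hWr ((hC i).a z hi z' hj hadj)
  · intro w w' hadj
    show Within G 35 (ψ w) (ψ w')
    rcases hclass w w' hadj with ⟨a, b, rfl, rfl, hab⟩ | ⟨i, a, b, rfl, rfl, hab⟩ | ⟨i, rfl, rfl⟩ |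
      ⟨i, rfl, rfl⟩
    · exact b0 a b hab
    · exact (hC i).b a b hab
    · show Within G 35 (C₀.ψ (h i)) ((C i).ψ (C i).ρ)
      rw [(hC i).f]
      exact hR i
    · show Within G 35 ((C i).ψ (C i).ρ) (C₀.ψ (h i))
      rw [(hC i).f]
      exact (hR i).symm
  · intro z hz
    show Within G 8 (ψ (φ z)) z
    by_cases hq : z ∈ Q0
    · rw [hφQ z hq]
      exact c0 z hq
    · obtain ⟨i, hi⟩ := g0' z hz hq
      rw [hφS i z hi]
      exact (hC i).c z hi
  · rintro (w | ⟨i, w⟩)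
    · rcases d0 w with h1 | ⟨z, hz, h1⟩
      · exact Or.inl (hWl h1)
      · refine Or.inr ⟨z, hQD hz, ?_⟩
        show Within H 17 _ (φ z)
        rw [hφQ z hz]
        exact hWl h1
    · right
      rcases (hC i).d w with h1 | ⟨z, hz, h1⟩
      · obtain ⟨z, hz, hz'⟩ := g3 i
        refine ⟨z, (g0 i z hz).1, ?_⟩
        show Within H 17 _ (φ z)
        rw [hφS i z hz]
        exact hWr (h1.trans ((hC i).e z hz hz').symm)
      · refine ⟨z, (g0 i z hz).1, ?_⟩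
        show Within H 17 _ (φ z)
        rw [hφS i z hz]
        exact hWr h1
  · intro z hz htop
    obtain ⟨hq, h1⟩ := e0 z hz htop
    show Within H 8 (φ z) (Sum.inl C₀.ρ)
    rw [hφQ z hq]
    exact hWl h1
  · exact f0

namespace Sys

variable {S : Sys V E}

theorem build [Nontrivial E] (hinf : (Metric.sphere (0 : E) 1).Infinite) [Finite V] :
    ∀ (m k : ℕ) (z₀ x : V), (∀ v, S.dep v ≤ k + m) → S.Node k z₀ x →
      ∃ C : Conf V E, C.Good S.G {z | S.CR k z₀ z} {z | S.dep z = k + 1} x := by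
  classical
  intro m
  induction m with
  | zero =>
    intro k z₀ x hM N
    have := hM z₀
    have := N.hz
    omega
  | succ m ih =>
    intro k z₀ x hM N
    -- the piece
    obtain ⟨Nh, hxN, hsep, hnear⟩ := exists_hubs (S.gg k z₀ x) ⟨x, N.xP⟩
    obtain ⟨W, hWfin, c', r', e, θ, ψ, he, hr', p1, p2, p3, p4, p5, p6, p7⟩ :=
      piece hinf (fun u : {u // S.Ps k z₀ x u} => S.compl k z₀ u.1) (fun u => S.c u.1)
        (fun u => S.r u.1) (fun u => S.hr u.1) ⟨x, N.xP⟩ N.x_compl Nh hxN hsep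
    set H₀ := bgraph c' r' with hH₀
    have hθ : ∀ {n a b}, Within (S.gg k z₀ x) n a b → Within H₀ (2 * n) (θ a) (θ b) :=
      fun hw => Within.map_lip (K := 2) θ p1 hw
    have hψ : ∀ {w w'}, H₀.Adj w w' → Within S.G 24 (ψ w).1 (ψ w').1 :=
      fun hw => N.gg_within (p2 _ _ hw)
    let φ₀ : V → W := fun z => if h : S.Ps k z₀ x z then θ ⟨z, h⟩ else θ ⟨x, N.xP⟩
    have hφ₀ : ∀ z (h : S.Ps k z₀ x z), φ₀ z = θ ⟨z, h⟩ := fun z h => dif_pos h
    let C₀ : Conf V E :=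
      { W := W
        fin := hWfin
        c := c'
        r := r'
        ρ := θ ⟨x, N.xP⟩
        e := e
        φ := φ₀
        ψ := fun w => (ψ w).1
        hr := hr'
        he := he
        hext := p7 }
    -- the children
    let I := {T : Set V // ∃ z, S.CR k z₀ z ∧ ∃ j, S.Lv k z j ∧ T = {z' | S.CR j z z'}}
    have hI : ∀ i : I, ∃ z, S.CR k z₀ z ∧ ∃ j, S.Lv k z j ∧ i.1 = {z' | S.CR j z z'} := fun i => i.2
    choose z₁ hz₁ j hj hT using hI
    have hwall : ∀ i, ∃ w, S.dep w + 1 = j i ∧ S.In (z₁ i) w := fun i => (hj i).1.2.2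
    choose x₁ hx₁ hin₁ using hwall
    have hnode : ∀ i, S.Node (j i) (z₁ i) (x₁ i) := fun i => ⟨hx₁ i, hin₁ i, (hj i).1.2.1⟩
    have hkj : ∀ i, k < j i := fun i => (hj i).1.1
    have hIH : ∀ i, ∃ C : Conf V E, C.Good S.G {z | S.CR (j i) (z₁ i) z} {z | S.dep z = j i + 1} (x₁ i) :=
      fun i => ih (j i) (z₁ i) (x₁ i) (fun v => by have := hM v; have := hkj i; omega) (hnode i)
    choose C hC using hIH
    -- attaching vertex
    have ht : ∀ i, ∃ t f, S.dep t = j i ∧ S.G.Adj t f ∧ S.CR (j i) (z₁ i) f := by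
      intro i
      obtain ⟨f, hf1, hf2⟩ := descend (S := S) _ (z₁ i) rfl (hj i).1.2.1
      have hne : f ≠ S.o := by
        rintro rfl
        rw [dep_root] at hf2
        omega
      obtain ⟨t, ht1, ht2⟩ := exists_pred (S := S) hne
      exact ⟨t, f, by omega, ht1.symm, hf1⟩
    choose t f htd htf hf using ht
    have htQ : ∀ i, S.Qs k z₀ (t i) := fun i => child_Q (hz₁ i) (hj i) (htd i) (htf i) (hf i)
    have hhub : ∀ i, ∃ h ∈ Nh, Within (S.gg k z₀ x) 4 ⟨t i, Or.inl (htQ i)⟩ h := fun i => hnear _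
    choose h hhN hh using hhub
    have hmemLv : ∀ i z, S.CR (j i) (z₁ i) z → S.Lv k z (j i) := fun i z hz => (hj i).transfer hz
    have huniq : ∀ (i i' : I) z, S.CR (j i) (z₁ i) z → S.CR (j i') (z₁ i') z → i = i' := by
      intro i i' z hz hz'
      have hjj : j i = j i' := (hmemLv i z hz).unique (hmemLv i' z hz')
      apply Subtype.ext
      rw [hT i, hT i']
      ext y
      simp only [Set.mem_ofPred_eq]
      constructor
      · intro hy
        rw [hjj] at hy hz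
        exact (hz'.trans hz.symm).trans hy
      · intro hy
        rw [← hjj] at hy hz'
        exact (hz.trans hz'.symm).trans hy
    refine glue hinf S.G _ _ x C₀ {z | S.Qs k z₀ z} (fun z hz => hz.1) ?_ ?_ ?_ ?_ ?_ ?_
      (fun i : I => {z | S.CR (j i) (z₁ i) z}) (fun i => {z | S.dep z = j i + 1}) x₁ C hC
      (fun i => θ (h i)) (fun i => p6 (h i) (hhN i)) ?_ ?_ ?_ ?_ ?_ ?_ ?_
    · intro z hz z' hz' hadj
      show Within H₀ 37 (φ₀ z) (φ₀ z')
      rw [hφ₀ z (Or.inl hz), hφ₀ z' (Or.inl hz')]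
      exact (p1 _ _ (gg_adj hadj)).mono (by norm_num)
    · intro w w' hadj
      exact (hψ hadj).mono (by norm_num)
    · intro z hz
      show Within S.G 8 (ψ (φ₀ z)).1 z
      rw [hφ₀ z (Or.inl hz)]
      exact N.gg_within (p4 ⟨z, Or.inl hz⟩)
    · intro w
      show Within H₀ 9 w (θ ⟨x, N.xP⟩) ∨ ∃ z ∈ {z | S.Qs k z₀ z}, Within H₀ 17 w (φ₀ z)
      have h5 := p5 w
      generalize ψ w = u at h5
      obtain ⟨u, hu⟩ := u
      rcases hu with hu | hu | hu
      · right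
        refine ⟨u, hu, ?_⟩
        rw [hφ₀ u (Or.inl hu)]
        exact h5.mono (by norm_num)
      · left
        exact (h5.trans (hθ (N.Y_gg hu))).mono (by norm_num)
      · left
        exact h5.trans (hθ (N.H_gg hu))
    · intro z hz htop
      have hQ := top_Q hz htop
      refine ⟨hQ, ?_⟩
      show Within H₀ 8 (φ₀ z) (θ ⟨x, N.xP⟩)
      rw [hφ₀ z (Or.inl hQ)]
      exact hθ (N.top_gg hz htop)
    · show (ψ (θ ⟨x, N.xP⟩)).1 = x
      rw [p3 _ hxN]
    · intro i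
      show Within S.G 35 (ψ (θ (h i))).1 (x₁ i)
      rw [p3 _ (hhN i)]
      have h1 : Within S.G 32 (t i) (h i).1 := N.gg_within (hh i)
      have h2 : Within S.G 3 (t i) (x₁ i) :=
        (hnode i).Y_within ⟨htd i, f i, hf i, not_ext_of_adj (htf i).symm⟩
      exact h1.symm.trans h2
    · intro i z hz
      exact ⟨(hz₁ i).trans (CR.mono (hkj i).le hz), fun hQ => hQ.not_Wl _ (hmemLv i z hz).1⟩
    · intro z hz hnQ
      obtain ⟨j', hj'⟩ := exists_Lv hz hnQ
      obtain ⟨i, hi⟩ : ∃ i : I, i.1 = {z' | S.CR j' z z'} := ⟨⟨_, z, hz, j', hj', rfl⟩, rfl⟩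
      refine ⟨i, ?_⟩
      have h2 : z ∈ i.1 := by
        rw [hi]
        exact CR.refl _ _
      rw [hT i] at h2
      exact h2
    · exact huniq
    · intro i z z' hz hz' hadj
      have hz'd : j i < S.dep z' := CR.dep hz' (hj i).1.2.1
      have hzd : S.dep z ≤ j i := by
        by_contra hcon
        push Not at hcon
        have : S.CR (j i) (z₁ i) z := CR.trans hz' (CR.of_adj hadj.symm hz'd hcon)
        exact Qs.not_Wl hz _ (hmemLv i z this).1
      have h3 := dep_adj hadj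
      have hzeq : S.dep z = j i := by omega
      refine ⟨by show S.dep z' = j i + 1; omega, ?_⟩
      show Within H₀ 28 (φ₀ z) (θ (h i))
      rw [hφ₀ z (Or.inl hz)]
      have hT := N.lemmaT (hj i) hzeq hadj hz' (htd i) (htf i) (hf i) hz (htQ i)
      exact (hθ hT).trans (hθ (hh i))
    · intro i i' z z' hz hz' hadj
      have hzd : j i < S.dep z := CR.dep hz (hj i).1.2.1
      have hzd' : j i' < S.dep z' := CR.dep hz' (hj i').1.2.1
      rcases le_total (j i) (j i') with hle | hle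
      · exact huniq i i' z' (CR.trans hz (CR.of_adj hadj hzd (by omega))) hz'
      · exact huniq i i' z hz (CR.trans hz' (CR.of_adj hadj.symm hzd' (by omega)))
    · intro i
      obtain ⟨f, hf1, hf2⟩ := descend (S := S) _ (z₁ i) rfl (hj i).1.2.1
      exact ⟨f, hf1, hf2⟩

end Sys

end BallQI
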