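import Pool.Agent.Helper49.BallTop

set_option autoImplicit false
set_option linter.unusedSectionVars false

namespace BallQI

universe u

variable {E : Type*} [NormedAddCommGroup E] [InnerProductSpace ℝ E]

/-- placing finitely many configurations far apart -/
theorem disjoint_many [Nontrivial E] {I : Type u} [Finite I] (W : I → Type u) [∀ i, Finite (W i)]
    (c : ∀ i, W i → E) (r : ∀ i, W i → ℝ) :
    ∃ cc : (Σ i, W i) → E,
      (∀ i a b, dist (cc ⟨i, a⟩) (cc ⟨i, b⟩) = dist (c i a) (c i b)) ∧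
      ∀ i j a b, i ≠ j → r i a + r j b < dist (cc ⟨i, a⟩) (cc ⟨j, b⟩) := by
  classical
  obtain ⟨n, hn⟩ := exists_norm_eq E (zero_le_one (α := ℝ))
  obtain ⟨B, hB, hB'⟩ : ∃ B : ℝ, 0 < B ∧ ∀ i a, ‖c i a‖ + r i a ≤ B := by
    obtain ⟨B, hB⟩ := (Set.finite_range (fun p : Σ i, W i => ‖c p.1 p.2‖ + r p.1 p.2)).bddAbove
    refine ⟨max B 1, by positivity, fun i a => ?_⟩
    exact (hB ⟨⟨i, a⟩, rfl⟩).trans (le_max_left _ _)
  obtain ⟨idx, hidx⟩ := Countable.exists_injective_nat I
  refine ⟨fun p => c p.1 p.2 + (3 * B * (idx p.1 : ℝ)) • n, ?_, ?_⟩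
  · intro i a b
    exact dist_add_right _ _ _
  · intro i j a b hij
    show r i a + r j b < dist (c i a + (3 * B * (idx i : ℝ)) • n) (c j b + (3 * B * (idx j : ℝ)) • n)
    have h1 : (1 : ℝ) ≤ |(idx i : ℝ) - (idx j : ℝ)| := by
      have : (idx i : ℤ) - (idx j : ℤ) ≠ 0 := by
        intro h
        apply hij
        apply hidx
        omega
      have h2 := Int.one_le_abs this
      exact_mod_cast h2
    have h2 : ‖(3 * B * (idx i : ℝ)) • n - (3 * B * (idx j : ℝ)) • n‖ =
        3 * B * |(idx i : ℝ) - (idx j : ℝ)| := by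
      rw [← sub_smul, norm_smul, hn, mul_one, Real.norm_eq_abs, ← mul_sub, abs_mul,
        abs_of_pos (by positivity : (0 : ℝ) < 3 * B)]
    have h3 : ‖(3 * B * (idx i : ℝ)) • n - (3 * B * (idx j : ℝ)) • n‖ ≤
        dist (c i a + (3 * B * (idx i : ℝ)) • n) (c j b + (3 * B * (idx j : ℝ)) • n) +
          (‖c i a‖ + ‖c j b‖) := by
      rw [dist_eq_norm]
      have h4 : (3 * B * (idx i : ℝ)) • n - (3 * B * (idx j : ℝ)) • n =
        (c i a + (3 * B * (idx i : ℝ)) • n - (c j b + (3 * B * (idx j : ℝ)) • n)) -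
          (c i a - c j b) := by abel
      rw [h4]
      refine (norm_sub_le _ _).trans ?_
      gcongr
      exact norm_sub_le _ _
    have h5 := hB' i a
    have h6 := hB' j b
    nlinarith

/-- the general case -/
theorem general_result [Nontrivial E] (hinf : (Metric.sphere (0 : E) 1).Infinite) {V : Type u}
    [Finite V] (c : V → E) (r : V → ℝ) (hr : ∀ v, 0 < r v) :
    ∃ (W : Type u) (_ : Finite W) (c' : W → E) (r' : W → ℝ) (f : V → W) (g : W → V),
      (∀ w, 0 < r' w) ∧
      (∀ u v, (sgraph c r).Adj u v → Within (bgraph c' r') 37 (f u) (f v)) ∧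
      (∀ w w', (bgraph c' r').Adj w w' → Within (sgraph c r) 35 (g w) (g w')) ∧
      (∀ v, Within (sgraph c r) 8 (g (f v)) v) ∧
      (∀ w, ∃ v, Within (bgraph c' r') 54 w (f v)) := by
  classical
  set G := sgraph c r with hG
  have key : ∀ C : G.ConnectedComponent, ∃ (W : Type u) (_ : Finite W) (c' : W → E) (r' : W → ℝ)
      (f : C.supp → W) (g : W → C.supp),
      (∀ w, 0 < r' w) ∧
      (∀ u v, (G.induce C.supp).Adj u v → Within (bgraph c' r') 37 (f u) (f v)) ∧
      (∀ w w', (bgraph c' r').Adj w w' → Within (G.induce C.supp) 35 (g w) (g w')) ∧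
      (∀ v, Within (G.induce C.supp) 8 (g (f v)) v) ∧
      (∀ w, ∃ v, Within (bgraph c' r') 54 w (f v)) := by
    intro C
    have hGC : sgraph (fun v : C.supp => c v) (fun v : C.supp => r v) = G.induce C.supp := by
      ext u v
      constructor
      · rintro ⟨h1, h2⟩
        exact ⟨fun h => h1 (Subtype.ext h), h2⟩
      · rintro ⟨h1, h2⟩
        exact ⟨fun h => h1 (congrArg Subtype.val h), h2⟩
    have hconn : (sgraph (fun v : C.supp => c v) (fun v : C.supp => r v)).Connected := by
      rw [hGC]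
      exact C.connected_toSimpleGraph
    rw [← hGC]
    exact conn_result hinf (fun v : C.supp => c v) (fun v : C.supp => r v)
      (fun v : C.supp => hr v) hconn
  choose W fin c' r' f g hr' p1 p2 p3 p4 using key
  obtain ⟨cc, hcc1, hcc2⟩ := disjoint_many W c' r'
  let rr : (Σ C, W C) → ℝ := fun p => r' p.1 p.2
  set H := bgraph cc rr with hH
  have hmap : ∀ {C n a b}, Within (bgraph (c' C) (r' C)) n a b → Within H n ⟨C, a⟩ ⟨C, b⟩ := by
    intro C n a b h
    have := Within.map_lip (K := 1) (H := H) (fun a => (⟨C, a⟩ : Σ C, W C))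
      (fun (a b : W C) (hab : (bgraph (c' C) (r' C)).Adj a b) =>
        Within.of_adj ⟨fun h' => hab.1 (by simpa using h'), by
          rw [hcc1]; exact hab.2⟩) h
    simpa using this
  have hback : ∀ {C : G.ConnectedComponent} {n} {a b : C.supp}, Within (G.induce C.supp) n a b →
      Within G n a b := by
    intro C n a b h
    have := Within.map_lip (K := 1) (H := G) (fun a : C.supp => (a : V))
      (fun a b hab => Within.of_adj hab) h
    simpa using this
  let ff : V → Σ C, W C := fun v => ⟨G.connectedComponentMk v, f _ ⟨v, rfl⟩⟩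
  have hff : ∀ (C : G.ConnectedComponent) (v : C.supp), ff v = ⟨C, f C v⟩ := by
    rintro C ⟨v, hv⟩
    have : G.connectedComponentMk v = C := hv
    subst this
    rfl
  refine ⟨Σ C, W C, inferInstance, cc, rr, ff, fun p => (g p.1 p.2 : V), fun p => hr' p.1 p.2,
    ?_, ?_, ?_, ?_⟩
  · intro u v huv
    have hv : v ∈ (G.connectedComponentMk u).supp :=
      (SimpleGraph.ConnectedComponent.sound huv.reachable).symm
    have h1 := hff (G.connectedComponentMk u) ⟨u, rfl⟩
    have h2 := hff (G.connectedComponentMk u) ⟨v, hv⟩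
    simp only at h1 h2
    rw [h1, h2]
    exact hmap (p1 _ ⟨u, rfl⟩ ⟨v, hv⟩ huv)
  · rintro ⟨C, a⟩ ⟨D, b⟩ hadj
    by_cases hCD : C = D
    · subst hCD
      refine hback (p2 C a b ⟨fun h' => hadj.1 (by rw [h']), ?_⟩)
      have := hadj.2
      rw [hcc1] at this
      exact this
    · exfalso
      have h1 := hcc2 C D a b hCD
      have h2 := hadj.2
      change dist (cc ⟨C, a⟩) (cc ⟨D, b⟩) ≤ r' C a + r' D b at h2
      linarith
  · intro v
    exact hback (p3 _ ⟨v, rfl⟩)
  · rintro ⟨C, w⟩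
    obtain ⟨v, hv⟩ := p4 C w
    refine ⟨v, ?_⟩
    rw [hff C v]
    exact hmap hv

/-- making the radii distinct -/
theorem perturb {W : Type u} [Finite W] (c : W → E) (r : W → ℝ) (hr : ∀ w, 0 < r w) :
    ∃ r' : W → ℝ, (∀ w, 0 < r' w) ∧ Function.Injective r' ∧ bgraph c r' = bgraph c r := by
  classical
  cases nonempty_fintype W
  obtain ⟨idx, hidx⟩ := Countable.exists_injective_nat W
  obtain ⟨M, hM, hM'⟩ : ∃ M : ℝ, 0 < M ∧ ∀ w, (idx w : ℝ) ≤ M := by
    obtain ⟨B, hB⟩ := (Set.finite_range (fun w : W => (idx w : ℝ))).bddAbove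
    exact ⟨max B 1, by positivity, fun w => (hB ⟨w, rfl⟩).trans (le_max_left _ _)⟩
  obtain ⟨δ, hδ, hδ'⟩ : ∃ δ : ℝ, 0 < δ ∧ ∀ p : W × W, r p.1 + r p.2 < dist (c p.1) (c p.2) →
      r p.1 + r p.2 + δ ≤ dist (c p.1) (c p.2) := by
    by_cases hne : Nonempty (W × W)
    · obtain ⟨p₀, hp₀⟩ := Finite.exists_min (fun p : W × W =>
        if r p.1 + r p.2 < dist (c p.1) (c p.2) then dist (c p.1) (c p.2) - (r p.1 + r p.2) else 1)
      refine ⟨if r p₀.1 + r p₀.2 < dist (c p₀.1) (c p₀.2) then
        dist (c p₀.1) (c p₀.2) - (r p₀.1 + r p₀.2) else 1, ?_, fun p hp => ?_⟩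
      · split_ifs with h
        · linarith
        · exact one_pos
      · have := hp₀ p
        rw [if_pos hp] at this
        linarith
    · rw [not_nonempty_iff] at hne
      exact ⟨1, one_pos, fun p => (hne.false p).elim⟩
  have hbad : (Set.range fun p : W × W => (r p.2 - r p.1) / ((idx p.1 : ℝ) - idx p.2)).Finite :=
    Set.finite_range _
  have hpos : 0 < δ / (2 * M + 1) := by positivity
  obtain ⟨ε, hε, hεbad⟩ := (Set.Ioo_infinite hpos).exists_notMem_finite hbad
  obtain ⟨hε0, hε1⟩ := hε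
  rw [lt_div_iff₀ (by positivity)] at hε1
  refine ⟨fun w => r w + ε * idx w, fun w => ?_, ?_, ?_⟩
  · have := hr w
    positivity
  · intro w w' hww
    by_contra hne
    simp only at hww
    apply hεbad
    refine ⟨(w, w'), ?_⟩
    have hne' : (idx w : ℝ) - idx w' ≠ 0 := by
      intro h
      apply hne
      apply hidx
      exact_mod_cast sub_eq_zero.1 h
    show (r w' - r w) / ((idx w : ℝ) - idx w') = ε
    rw [div_eq_iff hne']
    linarith
  · ext w w'
    constructor
    · rintro ⟨h1, h2⟩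
      refine ⟨h1, ?_⟩
      by_contra hcon
      push Not at hcon
      have h3 := hδ' (w, w') hcon
      simp only at h3
      have h4 := hM' w
      have h5 := hM' w'
      nlinarith
    · rintro ⟨h1, h2⟩
      refine ⟨h1, h2.trans ?_⟩
      have h4 : 0 ≤ ε * (idx w : ℝ) := by positivity
      have h5 : 0 ≤ ε * (idx w' : ℝ) := by positivity
      simp only
      linarith

end BallQI
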