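import Mathlib

set_option autoImplicit false

namespace BallQI

section graph

variable {V W : Type*}

/-- there is a walk of length at most `n` from `a` to `b` -/
def Within (G : SimpleGraph V) (n : ℕ) (a b : V) : Prop := ∃ p : G.Walk a b, p.length ≤ n

lemma Within.refl (G : SimpleGraph V) (n : ℕ) (a : V) : Within G n a a := ⟨.nil, Nat.zero_le _⟩

lemma Within.of_eq {G : SimpleGraph V} {n : ℕ} {a b : V} (h : a = b) : Within G n a b := by
  subst h; exact Within.refl _ _ _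

lemma Within.of_adj {G : SimpleGraph V} {a b : V} (h : G.Adj a b) : Within G 1 a b :=
  ⟨.cons h .nil, by simp⟩

lemma Within.symm {G : SimpleGraph V} {n : ℕ} {a b : V} (h : Within G n a b) : Within G n b a := by
  obtain ⟨p, hp⟩ := h
  exact ⟨p.reverse, by simpa using hp⟩

lemma Within.trans {G : SimpleGraph V} {n m : ℕ} {a b c : V} (h : Within G n a b)
    (h' : Within G m b c) : Within G (n + m) a c := by
  obtain ⟨p, hp⟩ := h
  obtain ⟨q, hq⟩ := h'
  exact ⟨p.append q, by rw [SimpleGraph.Walk.length_append]; omega⟩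

lemma Within.mono {G : SimpleGraph V} {n m : ℕ} {a b : V} (h : Within G n a b) (hnm : n ≤ m) :
    Within G m a b := by
  obtain ⟨p, hp⟩ := h
  exact ⟨p, hp.trans hnm⟩

lemma Within.map_lip {G : SimpleGraph V} {H : SimpleGraph W} {K : ℕ} (f : V → W)
    (hf : ∀ a b, G.Adj a b → Within H K (f a) (f b)) {n : ℕ} {a b : V} (h : Within G n a b) :
    Within H (K * n) (f a) (f b) := by
  obtain ⟨p, hp⟩ := h
  have key : ∀ {a b : V} (p : G.Walk a b), Within H (K * p.length) (f a) (f b) := by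
    intro a b p
    induction p with
    | nil => exact Within.refl _ _ _
    | cons h p ih =>
      rw [SimpleGraph.Walk.length_cons]
      exact ((hf _ _ h).trans ih).mono (by ring_nf; omega)
  exact (key p).mono (Nat.mul_le_mul_left _ hp)

lemma Within.dist_le {G : SimpleGraph V} {n : ℕ} {a b : V} (h : Within G n a b) :
    G.dist a b ≤ n := by
  obtain ⟨p, hp⟩ := h
  exact (SimpleGraph.dist_le p).trans hp

lemma within_dist {G : SimpleGraph V} (hG : G.Connected) (a b : V) : Within G (G.dist a b) a b := by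
  obtain ⟨p, hp⟩ := hG.exists_walk_length_eq_dist a b
  exact ⟨p, hp.le⟩

lemma within_iff_dist {G : SimpleGraph V} (hG : G.Connected) {n : ℕ} {a b : V} :
    Within G n a b ↔ G.dist a b ≤ n :=
  ⟨Within.dist_le, fun h => (within_dist hG a b).mono h⟩

lemma Within.zero {G : SimpleGraph V} {a b : V} (h : Within G 0 a b) : a = b := by
  obtain ⟨p, hp⟩ := h
  exact SimpleGraph.Walk.eq_of_length_eq_zero (Nat.le_zero.1 hp)

end graph

section geom

variable {E : Type*} [NormedAddCommGroup E] [InnerProductSpace ℝ E]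

/-- the intersection graph of closed balls, in terms of centres and radii -/
def bgraph {W : Type*} (c : W → E) (r : W → ℝ) : SimpleGraph W where
  Adj a b := a ≠ b ∧ dist (c a) (c b) ≤ r a + r b
  symm := ⟨fun a b h => ⟨h.1.symm, by rw [dist_comm, add_comm]; exact h.2⟩⟩
  loopless := ⟨fun a h => h.1 rfl⟩

/-- growing a ball inside the ball `(c, r)` from the point `q` until it touches the ball `(a, ρ)` -/
lemma grow_ext (a c q : E) (ρ r : ℝ) (hr : 0 < r) (hq : dist q c ≤ r) (hqa : ρ < dist q a)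
    (hca : dist c a ≤ r + ρ) :
    ∃ (c' : E) (r' : ℝ), 0 < r' ∧ dist q c' ≤ r' ∧ dist c' a = r' + ρ ∧ dist c' c + r' ≤ r := by
  have hcont : Continuous fun t : ℝ => dist (q + t • (c - q)) a - t * r - ρ := by fun_prop
  have h0 : (0 : ℝ) ≤ dist (q + (0 : ℝ) • (c - q)) a - 0 * r - ρ := by
    simp only [zero_smul, add_zero, zero_mul, sub_zero]; linarith
  have h1 : dist (q + (1 : ℝ) • (c - q)) a - 1 * r - ρ ≤ 0 := by
    simp only [one_smul, one_mul, add_sub_cancel]; linarith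
  have hivt := intermediate_value_Icc' (zero_le_one (α := ℝ)) hcont.continuousOn
  obtain ⟨t, ⟨ht0, ht1⟩, ht⟩ := hivt ⟨h1, h0⟩
  have htpos : 0 < t := by
    rcases ht0.lt_or_eq with h | h
    · exact h
    · subst h
      simp only [zero_smul, add_zero, zero_mul, sub_zero] at ht
      linarith
  refine ⟨q + t • (c - q), t * r, by positivity, ?_, ?_, ?_⟩
  · have : dist q (q + t • (c - q)) = t * dist q c := by
      rw [dist_eq_norm, dist_eq_norm]
      rw [show q - (q + t • (c - q)) = t • (q - c) by rw [smul_sub, smul_sub]; abel]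
      rw [norm_smul, Real.norm_of_nonneg ht0]
    rw [this]
    exact mul_le_mul_of_nonneg_left hq ht0
  · simp only at ht; linarith
  · have : dist (q + t • (c - q)) c = (1 - t) * dist q c := by
      rw [dist_eq_norm, dist_eq_norm]
      rw [show q + t • (c - q) - c = (1 - t) • (q - c) by
        rw [sub_smul, one_smul, smul_sub, smul_sub]; abel]
      rw [norm_smul, Real.norm_of_nonneg (by linarith)]
    rw [this]
    nlinarith

/-- a ball inside the ball `(a, ρ)` containing `q` and internally tangent at one point -/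
lemma ray_int [Nontrivial E] (a q : E) (ρ : ℝ) (hqa : dist q a < ρ) :
    ∃ (c' : E) (r' : ℝ), 0 < r' ∧ dist q c' ≤ r' ∧ dist c' a + r' = ρ ∧ c' ≠ a := by
  obtain ⟨n, hn, hn'⟩ : ∃ n : E, ‖n‖ = 1 ∧ q - a = dist q a • n := by
    by_cases h : q = a
    · obtain ⟨n, hn⟩ := exists_norm_eq E (zero_le_one (α := ℝ))
      exact ⟨n, hn, by subst h; simp⟩
    · have h0 : 0 < ‖q - a‖ := norm_pos_iff.2 (sub_ne_zero.2 h)
      refine ⟨(‖q - a‖)⁻¹ • (q - a), ?_, ?_⟩
      · rw [norm_smul, norm_inv, norm_norm, inv_mul_cancel₀ h0.ne']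
      · rw [dist_eq_norm, smul_smul, mul_inv_cancel₀ h0.ne', one_smul]
  have hd0 : 0 ≤ dist q a := dist_nonneg
  set t : ℝ := (ρ - dist q a) / 2 with ht
  have htpos : 0 < t := by rw [ht]; linarith
  have hd : dist (q + t • n) a = dist q a + t := by
    rw [dist_eq_norm, show q + t • n - a = (q - a) + t • n by abel, hn', ← add_smul, norm_smul, hn,
      mul_one, Real.norm_of_nonneg (by linarith)]
  refine ⟨q + t • n, t, htpos, ?_, ?_, ?_⟩
  · rw [dist_self_add_right, norm_smul, hn, mul_one, Real.norm_of_nonneg htpos.le]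
  · rw [hd, ht]; ring
  · intro h
    rw [h, dist_self] at hd
    linarith

/-- root exposure, honest neighbour -/
lemma grow_int [Nontrivial E] (a c q : E) (ρ r : ℝ) (hr : 0 < r) (hq : dist q c ≤ r)
    (hqa : dist q a < ρ) (hca : ρ ≤ dist c a + r) :
    ∃ (c' : E) (r' : ℝ), 0 < r' ∧ dist q c' ≤ r' ∧ dist c' a + r' = ρ ∧ c' ≠ a ∧
      dist c' c + r' ≤ r := by
  by_cases hbig : dist c a + ρ ≤ r
  · obtain ⟨c', r', h1, h2, h3, h4⟩ := ray_int a q ρ hqa
    refine ⟨c', r', h1, h2, h3, h4, ?_⟩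
    have := dist_triangle c' a c
    rw [dist_comm a c] at this
    linarith
  · have hcont : Continuous fun t : ℝ => ρ - dist (q + t • (c - q)) a - t * r := by fun_prop
    have h0 : (0 : ℝ) ≤ ρ - dist (q + (0 : ℝ) • (c - q)) a - 0 * r := by
      simp only [zero_smul, add_zero, zero_mul, sub_zero]; linarith
    have h1 : ρ - dist (q + (1 : ℝ) • (c - q)) a - 1 * r ≤ 0 := by
      simp only [one_smul, one_mul, add_sub_cancel]; linarith
    have hivt := intermediate_value_Icc' (zero_le_one (α := ℝ)) hcont.continuousOn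
    obtain ⟨t, ⟨ht0, ht1⟩, ht⟩ := hivt ⟨h1, h0⟩
    simp only at ht
    have htpos : 0 < t := by
      rcases ht0.lt_or_eq with h | h
      · exact h
      · subst h
        simp only [zero_smul, add_zero, zero_mul, sub_zero] at ht
        linarith
    have hdc : dist (q + t • (c - q)) c = (1 - t) * dist q c := by
      rw [dist_eq_norm, dist_eq_norm]
      rw [show q + t • (c - q) - c = (1 - t) • (q - c) by
        rw [sub_smul, one_smul, smul_sub, smul_sub]; abel]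
      rw [norm_smul, Real.norm_of_nonneg (by linarith)]
    have hsub : dist (q + t • (c - q)) c + t * r ≤ r := by
      rw [hdc]; nlinarith
    refine ⟨q + t • (c - q), t * r, by positivity, ?_, ?_, ?_, hsub⟩
    · have : dist q (q + t • (c - q)) = t * dist q c := by
        rw [dist_eq_norm, dist_eq_norm]
        rw [show q - (q + t • (c - q)) = t • (q - c) by rw [smul_sub, smul_sub]; abel]
        rw [norm_smul, Real.norm_of_nonneg ht0]
      rw [this]
      exact mul_le_mul_of_nonneg_left hq ht0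
    · linarith
    · intro h
      rw [h, dist_self] at ht
      rw [h, dist_comm] at hsub
      apply hbig
      linarith

/-- root exposure, neighbour which is the complement of an open ball -/
lemma grow_int_compl [Nontrivial E] (a c q : E) (ρ r : ℝ) (hr : 0 < r) (hq : r ≤ dist q c)
    (hqa : dist q a < ρ) :
    ∃ (c' : E) (r' : ℝ), 0 < r' ∧ dist q c' ≤ r' ∧ dist c' a + r' = ρ ∧ c' ≠ a ∧
      r + r' ≤ dist c' c := by
  have hd0 : 0 ≤ dist q a := dist_nonneg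
  by_cases hbig : r + ρ ≤ dist a c
  · obtain ⟨c', r', h1, h2, h3, h4⟩ := ray_int a q ρ hqa
    refine ⟨c', r', h1, h2, h3, h4, ?_⟩
    have := dist_triangle a c' c
    rw [dist_comm a c'] at this
    linarith
  · have hqc : 0 < ‖q - c‖ := by
      rw [← dist_eq_norm]; linarith
    obtain ⟨n, hn, hn'⟩ : ∃ n : E, ‖n‖ = 1 ∧ q - c = dist q c • n := by
      refine ⟨(‖q - c‖)⁻¹ • (q - c), ?_, ?_⟩
      · rw [norm_smul, norm_inv, norm_norm, inv_mul_cancel₀ hqc.ne']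
      · rw [dist_eq_norm, smul_smul, mul_inv_cancel₀ hqc.ne', one_smul]
    have hcont : Continuous fun t : ℝ => ρ - dist (q + t • n) a - t := by fun_prop
    have h0 : (0 : ℝ) ≤ ρ - dist (q + (0 : ℝ) • n) a - 0 := by
      simp only [zero_smul, add_zero, sub_zero]; linarith
    have h1 : ρ - dist (q + ρ • n) a - ρ ≤ 0 := by
      have : 0 ≤ dist (q + ρ • n) a := dist_nonneg
      linarith
    have hρ : 0 ≤ ρ := by linarith
    have hivt := intermediate_value_Icc' hρ hcont.continuousOn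
    obtain ⟨t, ⟨ht0, ht1⟩, ht⟩ := hivt ⟨h1, h0⟩
    simp only at ht
    have htpos : 0 < t := by
      rcases ht0.lt_or_eq with h | h
      · exact h
      · subst h
        simp only [zero_smul, add_zero, sub_zero] at ht
        linarith
    have hdc : dist (q + t • n) c = dist q c + t := by
      rw [dist_eq_norm, show q + t • n - c = (q - c) + t • n by abel, hn', ← add_smul, norm_smul, hn,
        mul_one, Real.norm_of_nonneg (by linarith)]
    refine ⟨q + t • n, t, htpos, ?_, by linarith, ?_, by rw [hdc]; linarith⟩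
    · rw [dist_self_add_right, norm_smul, hn, mul_one, Real.norm_of_nonneg ht0]
    · intro h
      rw [h, dist_self] at ht
      rw [h] at hdc
      apply hbig
      linarith

/-- The inversion identity (centre `0`), for signed radii. -/
lemma inversion_identity (c₁ c₂ : E) (s₁ s₂ : ℝ) (h₁ : ‖c₁‖ ^ 2 - s₁ ^ 2 ≠ 0)
    (h₂ : ‖c₂‖ ^ 2 - s₂ ^ 2 ≠ 0) :
    dist ((‖c₁‖ ^ 2 - s₁ ^ 2)⁻¹ • c₁) ((‖c₂‖ ^ 2 - s₂ ^ 2)⁻¹ • c₂) ^ 2 -
      ((‖c₁‖ ^ 2 - s₁ ^ 2)⁻¹ * s₁ + (‖c₂‖ ^ 2 - s₂ ^ 2)⁻¹ * s₂) ^ 2 =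
    (dist c₁ c₂ ^ 2 - (s₁ + s₂) ^ 2) / ((‖c₁‖ ^ 2 - s₁ ^ 2) * (‖c₂‖ ^ 2 - s₂ ^ 2)) := by
  set D₁ := ‖c₁‖ ^ 2 - s₁ ^ 2 with hD₁
  set D₂ := ‖c₂‖ ^ 2 - s₂ ^ 2 with hD₂
  rw [dist_eq_norm, dist_eq_norm, norm_sub_sq_real, norm_sub_sq_real, norm_smul, norm_smul,
    real_inner_smul_left, real_inner_smul_right, mul_pow, mul_pow, Real.norm_eq_abs,
    Real.norm_eq_abs, sq_abs, sq_abs]
  have e₁ : ‖c₁‖ ^ 2 = D₁ + s₁ ^ 2 := by rw [hD₁]; ring
  have e₂ : ‖c₂‖ ^ 2 = D₂ + s₂ ^ 2 := by rw [hD₂]; ring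
  rw [e₁, e₂]
  field_simp
  ring

end geom


section inversion

variable {E : Type*} [NormedAddCommGroup E] [InnerProductSpace ℝ E]

lemma le_iff_sq_sub_nonpos {x y : ℝ} (hx : 0 ≤ x) (hy : 0 ≤ y) : x ≤ y ↔ x ^ 2 - y ^ 2 ≤ 0 := by
  rw [sub_nonpos]
  exact (sq_le_sq₀ hx hy).symm

lemma ge_iff_sq_sub_nonneg {x y : ℝ} (hx : 0 ≤ x) (hy : 0 ≤ y) : y ≤ x ↔ 0 ≤ x ^ 2 - y ^ 2 := by
  rw [sub_nonneg]
  exact (sq_le_sq₀ hy hx).symm

lemma inv_le_iff (c₁ c₂ : E) (r₁ r₂ : ℝ) (hr₁ : 0 < r₁) (hr₂ : 0 < r₂)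
    (h₁ : 0 < ‖c₁‖ ^ 2 - r₁ ^ 2) (h₂ : 0 < ‖c₂‖ ^ 2 - r₂ ^ 2) :
    dist ((‖c₁‖ ^ 2 - r₁ ^ 2)⁻¹ • c₁) ((‖c₂‖ ^ 2 - r₂ ^ 2)⁻¹ • c₂) ≤
      (‖c₁‖ ^ 2 - r₁ ^ 2)⁻¹ * r₁ + (‖c₂‖ ^ 2 - r₂ ^ 2)⁻¹ * r₂ ↔ dist c₁ c₂ ≤ r₁ + r₂ := by
  rw [le_iff_sq_sub_nonpos dist_nonneg (by positivity), inversion_identity _ _ _ _ h₁.ne' h₂.ne',
    le_iff_sq_sub_nonpos dist_nonneg (by positivity), div_nonpos_iff]
  have := mul_pos h₁ h₂
  constructor
  · rintro (h | h)
    · linarith [h.2]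
    · exact h.1
  · intro h
    exact Or.inr ⟨h, this.le⟩

lemma inv_ge_iff (c₁ c₂ : E) (r₁ r₂ : ℝ) (hr₁ : 0 < r₁) (hr₂ : 0 < r₂)
    (h₁ : 0 < ‖c₁‖ ^ 2 - r₁ ^ 2) (h₂ : 0 < ‖c₂‖ ^ 2 - r₂ ^ 2) :
    (‖c₁‖ ^ 2 - r₁ ^ 2)⁻¹ * r₁ + (‖c₂‖ ^ 2 - r₂ ^ 2)⁻¹ * r₂ ≤
    dist ((‖c₁‖ ^ 2 - r₁ ^ 2)⁻¹ • c₁) ((‖c₂‖ ^ 2 - r₂ ^ 2)⁻¹ • c₂)
      ↔ r₁ + r₂ ≤ dist c₁ c₂ := by
  rw [ge_iff_sq_sub_nonneg dist_nonneg (by positivity), inversion_identity _ _ _ _ h₁.ne' h₂.ne',
    ge_iff_sq_sub_nonneg dist_nonneg (by positivity), div_nonneg_iff]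
  have := mul_pos h₁ h₂
  constructor
  · rintro (h | h)
    · exact h.1
    · linarith [h.2]
  · intro h
    exact Or.inl ⟨h, this.le⟩

/-- Inversion near a free boundary point of the root complement. -/
lemma invert_config {W : Type*} [Finite W] (hinf : (Metric.sphere (0 : E) 1).Infinite)
    (c : W → E) (r : W → ℝ) (hr : ∀ w, 0 < r w) (a : E) (ρ : ℝ) (hρ : 0 < ρ)
    (hin : ∀ w, dist (c w) a + r w < ρ ∨ (dist (c w) a + r w = ρ ∧ c w ≠ a)) :
    ∃ (c' : Option W → E) (r' : Option W → ℝ) (e : E), ‖e‖ = 1 ∧ (∀ w, 0 < r' w) ∧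
      (∀ w w' : W, dist (c' (some w)) (c' (some w')) ≤ r' (some w) + r' (some w') ↔
        dist (c w) (c w') ≤ r w + r w') ∧
      (∀ w w' : W, r' (some w) + r' (some w') ≤ dist (c' (some w)) (c' (some w')) ↔
        r w + r w' ≤ dist (c w) (c w')) ∧
      (∀ w : W, dist (c' none) (c' (some w)) ≤ r' none + r' (some w) ↔ dist (c w) a + r w = ρ) ∧
      (∀ w : W, r' none + r' (some w) ≤ dist (c' none) (c' (some w))) ∧
      (∀ w : W, inner ℝ (c' (some w)) e + r' (some w) < inner ℝ (c' none) e + r' none) := by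
  classical
  cases nonempty_fintype W
  -- the free direction
  obtain ⟨u, hu1, hu2⟩ : ∃ u : E, ‖u‖ = 1 ∧ ∀ w, u ≠ (‖c w - a‖)⁻¹ • (c w - a) := by
    have hfin : (Set.range fun w => (‖c w - a‖)⁻¹ • (c w - a)).Finite := Set.finite_range _
    obtain ⟨u, hu, hu'⟩ := hinf.exists_notMem_finite hfin
    refine ⟨u, by simpa using hu, fun w hw => hu' ⟨w, hw.symm⟩⟩
  have hfree : ∀ w, r w < dist (a + ρ • u) (c w) := by
    intro w
    have hpa : dist (a + ρ • u) a = ρ := by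
      rw [dist_self_add_left, norm_smul, hu1, mul_one, Real.norm_of_nonneg hρ.le]
    have htri := dist_triangle (a + ρ • u) (c w) a
    rw [hpa] at htri
    rcases hin w with h | ⟨h, hne⟩
    · linarith
    · by_contra hcon
      push Not at hcon
      have heq : dist (a + ρ • u) (c w) = r w := le_antisymm hcon (by linarith)
      -- strict convexity
      have hcol : dist (a + ρ • u) (c w) + dist (c w) a = dist (a + ρ • u) a := by
        rw [heq, hpa]; linarith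
      rw [dist_add_dist_eq_iff] at hcol
      -- c w lies on the segment
      rw [← mem_segment_iff_wbtw, segment_symm, segment_eq_image'] at hcol
      obtain ⟨t, ⟨ht0, ht1⟩, ht⟩ := hcol
      simp only [add_sub_cancel_left] at ht
      have hca : c w - a = (t * ρ) • u := by
        rw [← ht, smul_smul]; abel
      have htpos : 0 < t * ρ := by
        rcases (mul_nonneg ht0 hρ.le).lt_or_eq with h' | h'
        · exact h'
        · exfalso
          rw [← h', zero_smul, sub_eq_zero] at hca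
          exact hne hca
      apply hu2 w
      rw [hca, norm_smul, hu1, mul_one, Real.norm_of_nonneg htpos.le, smul_smul,
        inv_mul_cancel₀ htpos.ne', one_smul]
  -- uniform gap
  obtain ⟨η, hη, hη'⟩ : ∃ η : ℝ, 0 < η ∧ ∀ w, r w + η ≤ dist (a + ρ • u) (c w) := by
    by_cases hW : Nonempty W
    · obtain ⟨w₀, hw₀⟩ := Finite.exists_min (fun w => dist (a + ρ • u) (c w) - r w)
      refine ⟨dist (a + ρ • u) (c w₀) - r w₀, by linarith [hfree w₀], fun w => ?_⟩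
      linarith [hw₀ w]
    · rw [not_nonempty_iff] at hW
      exact ⟨1, one_pos, fun w => (hW.false w).elim⟩
  set δ : ℝ := min (η / 3) (ρ / 2) with hδ
  have hδ0 : 0 < δ := lt_min (by linarith) (by linarith)
  have hδη : 3 * δ ≤ η := by
    have := min_le_left (η / 3) (ρ / 2)
    rw [← hδ] at this; linarith
  have hδρ : 2 * δ ≤ ρ := by
    have := min_le_right (η / 3) (ρ / 2)
    rw [← hδ] at this; linarith
  obtain ⟨b, hb⟩ : ∃ b, b = a + (ρ - δ) • u := ⟨_, rfl⟩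
  have hcb : ∀ w, r w + 2 * δ ≤ ‖c w - b‖ := by
    intro w
    have h1 : dist (a + ρ • u) b = δ := by
      rw [hb, dist_eq_norm, show a + ρ • u - (a + (ρ - δ) • u) = δ • u by
        rw [sub_smul]; abel, norm_smul, hu1, mul_one, Real.norm_of_nonneg hδ0.le]
    have h2 := dist_triangle (a + ρ • u) b (c w)
    rw [h1] at h2
    have h3 := hη' w
    rw [← dist_eq_norm, dist_comm]
    linarith
  have hD : ∀ w, 0 < ‖c w - b‖ ^ 2 - r w ^ 2 := by
    intro w
    have h1 := hcb w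
    have h2 := hr w
    nlinarith
  have hab : a - b = (-(ρ - δ)) • u := by
    rw [hb, neg_smul]; abel
  have habn : ‖a - b‖ = ρ - δ := by
    rw [hab, norm_smul, hu1, mul_one, norm_neg, Real.norm_of_nonneg (by linarith)]
  have hDx : ‖a - b‖ ^ 2 - (-ρ) ^ 2 = -(δ * (2 * ρ - δ)) := by rw [habn]; ring
  have hDx0 : 0 < δ * (2 * ρ - δ) := mul_pos hδ0 (by linarith)
  have hDx' : ‖a - b‖ ^ 2 - (-ρ) ^ 2 < 0 := by rw [hDx]; linarith
  let c' : Option W → E := fun w => w.elim ((‖a - b‖ ^ 2 - (-ρ) ^ 2)⁻¹ • (a - b))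
    (fun w => (‖c w - b‖ ^ 2 - r w ^ 2)⁻¹ • (c w - b))
  let r' : Option W → ℝ := fun w => w.elim ((‖a - b‖ ^ 2 - (-ρ) ^ 2)⁻¹ * (-ρ))
    (fun w => (‖c w - b‖ ^ 2 - r w ^ 2)⁻¹ * r w)
  have hr'none : 0 < r' none := by
    show 0 < (‖a - b‖ ^ 2 - (-ρ) ^ 2)⁻¹ * (-ρ)
    exact mul_pos_of_neg_of_neg (inv_lt_zero.2 hDx') (by linarith)
  have hr'some : ∀ w, 0 < r' (some w) := fun w => mul_pos (inv_pos.2 (hD w)) (hr w)
  have hroot : ∀ w : W, dist (c' none) (c' (some w)) ^ 2 - (r' none + r' (some w)) ^ 2 =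
      (dist (c w) a ^ 2 - (ρ - r w) ^ 2) / ((‖a - b‖ ^ 2 - (-ρ) ^ 2) * (‖c w - b‖ ^ 2 - r w ^ 2)) := by
    intro w
    have := inversion_identity (a - b) (c w - b) (-ρ) (r w) hDx'.ne (hD w).ne'
    have e1 : dist (a - b) (c w - b) = dist (c w) a := by
      rw [dist_sub_right, dist_comm]
    rw [e1] at this
    rw [show (ρ - r w) ^ 2 = (-ρ + r w) ^ 2 by ring]
    exact this
  have hden : ∀ w, (‖a - b‖ ^ 2 - (-ρ) ^ 2) * (‖c w - b‖ ^ 2 - r w ^ 2) < 0 :=
    fun w => mul_neg_of_neg_of_pos hDx' (hD w)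
  refine ⟨c', r', u, hu1, ?_, ?_, ?_, ?_, ?_, ?_⟩
  · intro w
    cases w with
    | none => exact hr'none
    | some w => exact hr'some w
  · intro w w'
    have := inv_le_iff (c w - b) (c w' - b) (r w) (r w') (hr w) (hr w') (hD w) (hD w')
    rw [dist_sub_right] at this
    exact this
  · intro w w'
    have := inv_ge_iff (c w - b) (c w' - b) (r w) (r w') (hr w) (hr w') (hD w) (hD w')
    rw [dist_sub_right] at this
    exact this
  · intro w
    have hle : dist (c w) a + r w ≤ ρ := by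
      rcases hin w with h | h
      · exact h.le
      · exact h.1.le
    have hd0 : 0 ≤ dist (c w) a := dist_nonneg
    rw [le_iff_sq_sub_nonpos dist_nonneg (by have := hr'none; have := hr'some w; positivity), hroot,
      div_nonpos_iff]
    constructor
    · rintro (h | h)
      · nlinarith [h.1]
      · linarith [h.2, hden w]
    · intro h
      left
      refine ⟨?_, (hden w).le⟩
      rw [show dist (c w) a = ρ - r w by linarith]
      linarith
  · intro w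
    have hle : dist (c w) a + r w ≤ ρ := by
      rcases hin w with h | h
      · exact h.le
      · exact h.1.le
    have hd0 : 0 ≤ dist (c w) a := dist_nonneg
    rw [ge_iff_sq_sub_nonneg dist_nonneg (by have := hr'none; have := hr'some w; positivity), hroot,
      div_nonneg_iff]
    right
    refine ⟨?_, (hden w).le⟩
    nlinarith
  · intro w
    have h1 : inner ℝ (c' (some w)) u ≤ ‖c' (some w)‖ := by
      have := real_inner_le_norm (c' (some w)) u
      rwa [hu1, mul_one] at this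
    have h2 : ‖c' (some w)‖ = (‖c w - b‖ ^ 2 - r w ^ 2)⁻¹ * ‖c w - b‖ := by
      show ‖(‖c w - b‖ ^ 2 - r w ^ 2)⁻¹ • (c w - b)‖ = _
      rw [norm_smul, Real.norm_of_nonneg (inv_pos.2 (hD w)).le]
    have h3 : ‖c' (some w)‖ + r' (some w) = (‖c w - b‖ - r w)⁻¹ := by
      rw [h2]
      show (‖c w - b‖ ^ 2 - r w ^ 2)⁻¹ * ‖c w - b‖ + (‖c w - b‖ ^ 2 - r w ^ 2)⁻¹ * r w = _
      have hpos1 : 0 < ‖c w - b‖ - r w := by linarith [hcb w]
      have hpos2 : 0 < ‖c w - b‖ + r w := by linarith [hr w]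
      rw [show ‖c w - b‖ ^ 2 - r w ^ 2 = (‖c w - b‖ - r w) * (‖c w - b‖ + r w) by ring]
      field_simp
    have h4 : (‖c w - b‖ - r w)⁻¹ ≤ (2 * δ)⁻¹ := by
      apply inv_anti₀ (by linarith)
      linarith [hcb w]
    have h5 : inner ℝ (c' none) u + r' none = δ⁻¹ := by
      show inner ℝ ((‖a - b‖ ^ 2 - (-ρ) ^ 2)⁻¹ • (a - b)) u + (‖a - b‖ ^ 2 - (-ρ) ^ 2)⁻¹ * (-ρ) = _
      rw [real_inner_smul_left, hDx, hab, real_inner_smul_left, real_inner_self_eq_norm_sq, hu1]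
      have : (2 * ρ - δ) ≠ 0 := by linarith
      field_simp
      ring
    have h6 : (2 * δ)⁻¹ < δ⁻¹ := by
      apply inv_strictAnti₀ hδ0
      linarith
    calc inner ℝ (c' (some w)) u + r' (some w) ≤ ‖c' (some w)‖ + r' (some w) := by linarith
      _ = (‖c w - b‖ - r w)⁻¹ := h3
      _ ≤ (2 * δ)⁻¹ := h4
      _ < δ⁻¹ := h6
      _ = inner ℝ (c' none) u + r' none := h5.symm

end inversion


section attach

variable {E : Type*} [NormedAddCommGroup E] [InnerProductSpace ℝ E]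

/-- attach a configuration at tiny scale at a free boundary point of an exposed ball `h` -/
lemma attach {W₁ W₂ : Type*} [Finite W₁] [Finite W₂] (hinf : (Metric.sphere (0 : E) 1).Infinite)
    (c₁ : W₁ → E) (r₁ : W₁ → ℝ) (c₂ : W₂ → E) (r₂ : W₂ → ℝ) (hr₁ : ∀ w, 0 < r₁ w)
    (hr₂ : ∀ w, 0 < r₂ w) (h : W₁) (hexp : ∀ w, w ≠ h → r₁ h + r₁ w ≤ dist (c₁ h) (c₁ w))
    (ρ₁ : W₁) (e₁ : E) (he₁ : ‖e₁‖ = 1)
    (hext₁ : ∀ w, w ≠ ρ₁ → inner ℝ (c₁ w) e₁ + r₁ w < inner ℝ (c₁ ρ₁) e₁ + r₁ ρ₁)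
    (ρ₂ : W₂) (e₂ : E) (he₂ : ‖e₂‖ = 1)
    (hext₂ : ∀ w, w ≠ ρ₂ → inner ℝ (c₂ w) e₂ + r₂ w < inner ℝ (c₂ ρ₂) e₂ + r₂ ρ₂) :
    ∃ (c₂' : W₂ → E) (r₂' : W₂ → ℝ), (∀ w, 0 < r₂' w) ∧
      (∀ w w', dist (c₂' w) (c₂' w') ≤ r₂' w + r₂' w' ↔ dist (c₂ w) (c₂ w') ≤ r₂ w + r₂ w') ∧
      dist (c₁ h) (c₂' ρ₂) = r₁ h + r₂' ρ₂ ∧
      (∀ w, w ≠ ρ₂ → r₁ h + r₂' w < dist (c₁ h) (c₂' w)) ∧
      (∀ w₁, w₁ ≠ h → ∀ w₂, r₁ w₁ + r₂' w₂ < dist (c₁ w₁) (c₂' w₂)) ∧
      (∀ w₂, inner ℝ (c₂' w₂) e₁ + r₂' w₂ < inner ℝ (c₁ ρ₁) e₁ + r₁ ρ₁) := by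
  classical
  cases nonempty_fintype W₁
  cases nonempty_fintype W₂
  obtain ⟨u, hu1, hu2, hu3⟩ : ∃ u : E, ‖u‖ = 1 ∧
      (∀ w, u ≠ (‖c₁ w - c₁ h‖)⁻¹ • (c₁ w - c₁ h)) ∧ u ≠ e₁ := by
    have hfin : ((Set.range fun w => (‖c₁ w - c₁ h‖)⁻¹ • (c₁ w - c₁ h)) ∪ {e₁}).Finite :=
      (Set.finite_range _).union (Set.finite_singleton _)
    obtain ⟨u, hu, hu'⟩ := hinf.exists_notMem_finite hfin
    refine ⟨u, by simpa using hu, fun w hw => hu' (Or.inl ⟨w, hw.symm⟩), fun hw => hu' (Or.inr hw)⟩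
  obtain ⟨p, hp⟩ : ∃ p, p = c₁ h + r₁ h • u := ⟨_, rfl⟩
  have hhp : dist (c₁ h) p = r₁ h := by
    rw [hp, dist_self_add_right, norm_smul, hu1, mul_one, Real.norm_of_nonneg (hr₁ h).le]
  have hfree : ∀ w, w ≠ h → r₁ w < dist p (c₁ w) := by
    intro w hw
    have htri := dist_triangle (c₁ h) p (c₁ w)
    rw [hhp] at htri
    have h1 := hexp w hw
    by_contra hcon
    push Not at hcon
    have heq : dist p (c₁ w) = r₁ w := le_antisymm hcon (by linarith)
    have hcol : dist (c₁ h) p + dist p (c₁ w) = dist (c₁ h) (c₁ w) := by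
      linarith
    rw [dist_add_dist_eq_iff] at hcol
    rw [← mem_segment_iff_wbtw, segment_eq_image'] at hcol
    obtain ⟨t, ⟨ht0, ht1⟩, ht⟩ := hcol
    have hru : r₁ h • u = t • (c₁ w - c₁ h) := by
      have : c₁ h + t • (c₁ w - c₁ h) = c₁ h + r₁ h • u := by rw [← hp]; exact ht
      exact (add_left_cancel this).symm
    have hne : ‖c₁ w - c₁ h‖ ≠ 0 := by
      intro h0
      rw [norm_eq_zero] at h0
      rw [h0, smul_zero] at hru
      have : ‖r₁ h • u‖ = 0 := by rw [hru, norm_zero]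
      rw [norm_smul, hu1, mul_one, Real.norm_of_nonneg (hr₁ h).le] at this
      exact (hr₁ h).ne' this
    have hn := congrArg norm hru
    rw [norm_smul, hu1, mul_one, Real.norm_of_nonneg (hr₁ h).le, norm_smul,
      Real.norm_of_nonneg ht0] at hn
    apply hu2 w
    have hrne := (hr₁ h).ne'
    have : u = (r₁ h)⁻¹ • (t • (c₁ w - c₁ h)) := by
      rw [← hru, smul_smul, inv_mul_cancel₀ hrne, one_smul]
    rw [this, smul_smul]
    congr 1
    have htne : t ≠ 0 := by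
      intro h0
      rw [h0, zero_mul] at hn
      exact hrne hn
    rw [hn]
    field_simp
  have hpe : inner ℝ p e₁ < inner ℝ (c₁ ρ₁) e₁ + r₁ ρ₁ := by
    have h1 : inner ℝ p e₁ = inner ℝ (c₁ h) e₁ + r₁ h * inner ℝ u e₁ := by
      rw [hp, inner_add_left, real_inner_smul_left]
    have h2 : inner ℝ u e₁ < 1 := by
      have hle := real_inner_le_norm u e₁
      rw [hu1, he₁, mul_one] at hle
      rcases hle.lt_or_eq with h' | h'
      · exact h'
      · exact absurd ((inner_eq_one_iff_of_norm_eq_one hu1 he₁).1 h') hu3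
    have h3 := hr₁ h
    by_cases hh : h = ρ₁
    · rw [h1, hh]
      rw [hh] at h3
      nlinarith
    · have h4 := hext₁ h hh
      rw [h1]
      nlinarith
  obtain ⟨η, hη, hη', hη''⟩ : ∃ η : ℝ, 0 < η ∧ (∀ w, w ≠ h → r₁ w + η ≤ dist p (c₁ w)) ∧
      inner ℝ p e₁ + η ≤ inner ℝ (c₁ ρ₁) e₁ + r₁ ρ₁ := by
    obtain ⟨w₀, hw₀⟩ := @Finite.exists_min W₁ ℝ _ ⟨h⟩ _
      (fun w => if w = h then (1 : ℝ) else dist p (c₁ w) - r₁ w)
    refine ⟨min (if w₀ = h then (1 : ℝ) else dist p (c₁ w₀) - r₁ w₀)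
      (inner ℝ (c₁ ρ₁) e₁ + r₁ ρ₁ - inner ℝ p e₁), ?_, ?_, ?_⟩
    · refine lt_min ?_ (by linarith)
      split_ifs with h0
      · exact one_pos
      · linarith [hfree w₀ h0]
    · intro w hw
      have h1 := hw₀ w
      rw [if_neg hw] at h1
      have h2 := min_le_left (if w₀ = h then (1 : ℝ) else dist p (c₁ w₀) - r₁ w₀)
        (inner ℝ (c₁ ρ₁) e₁ + r₁ ρ₁ - inner ℝ p e₁)
      linarith
    · have h2 := min_le_right (if w₀ = h then (1 : ℝ) else dist p (c₁ w₀) - r₁ w₀)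
        (inner ℝ (c₁ ρ₁) e₁ + r₁ ρ₁ - inner ℝ p e₁)
      linarith
  obtain ⟨z, hz⟩ : ∃ z, z = c₂ ρ₂ + r₂ ρ₂ • e₂ := ⟨_, rfl⟩
  obtain ⟨M, hM0, hM⟩ : ∃ M : ℝ, 0 < M ∧ ∀ w, ‖c₂ w - z‖ + r₂ w ≤ M := by
    obtain ⟨w₀, hw₀⟩ := @Finite.exists_max W₂ ℝ _ ⟨ρ₂⟩ _ (fun w => ‖c₂ w - z‖ + r₂ w)
    refine ⟨‖c₂ w₀ - z‖ + r₂ w₀, ?_, hw₀⟩
    have := hr₂ w₀
    positivity
  obtain ⟨ε, hε0, hε⟩ : ∃ ε : ℝ, 0 < ε ∧ ε * M < η := by
    refine ⟨η / (M + 1), by positivity, ?_⟩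
    rw [div_mul_eq_mul_div, div_lt_iff₀ (by linarith)]
    nlinarith
  obtain ⟨A, hA⟩ : ∃ A : E ≃ₗᵢ[ℝ] E, A e₂ = -u := by
    refine ⟨(ℝ ∙ (e₂ - -u))ᗮ.reflection, ?_⟩
    exact Submodule.reflection_sub (by rw [he₂, norm_neg, hu1])
  have hroot : c₂ ρ₂ - z = -(r₂ ρ₂ • e₂) := by rw [hz]; abel
  refine ⟨fun w => p + ε • A (c₂ w - z), fun w => ε * r₂ w, fun w => mul_pos hε0 (hr₂ w),
    ?_, ?_, ?_, ?_, ?_⟩
  · intro w w'
    have : dist (p + ε • A (c₂ w - z)) (p + ε • A (c₂ w' - z)) = ε * dist (c₂ w) (c₂ w') := by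
      rw [dist_add_left, dist_smul₀, Real.norm_of_nonneg hε0.le, A.dist_map, dist_sub_right]
    simp only [this]
    rw [← mul_add]
    exact mul_le_mul_iff_right₀ hε0
  · show dist (c₁ h) (p + ε • A (c₂ ρ₂ - z)) = r₁ h + ε * r₂ ρ₂
    have hAr : A (c₂ ρ₂ - z) = r₂ ρ₂ • u := by
      rw [hroot, map_neg, map_smul, hA, smul_neg, neg_neg]
    rw [hAr, hp, add_assoc, smul_smul, ← add_smul,
      dist_self_add_right, norm_smul, hu1, mul_one, Real.norm_of_nonneg]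
    have := hr₁ h
    have := hr₂ ρ₂
    positivity
  · intro w hw
    show r₁ h + ε * r₂ w < dist (c₁ h) (p + ε • A (c₂ w - z))
    have h1 : inner ℝ (A (c₂ w - z)) u = -inner ℝ (c₂ w - z) e₂ := by
      rw [← neg_neg u, ← hA, inner_neg_right, A.inner_map_map]
    have h2 : inner ℝ (c₂ w - z) e₂ = inner ℝ (c₂ w) e₂ - inner ℝ (c₂ ρ₂) e₂ - r₂ ρ₂ := by
      rw [hz, inner_sub_left, inner_add_left, real_inner_smul_left, real_inner_self_eq_norm_sq, he₂]
      ring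
    have h3 := hext₂ w hw
    have h4 : inner ℝ (p + ε • A (c₂ w - z) - c₁ h) u = r₁ h + ε * inner ℝ (A (c₂ w - z)) u := by
      rw [hp, show c₁ h + r₁ h • u + ε • A (c₂ w - z) - c₁ h = r₁ h • u + ε • A (c₂ w - z) by abel,
        inner_add_left, real_inner_smul_left, real_inner_smul_left, real_inner_self_eq_norm_sq, hu1]
      ring
    have h5 : inner ℝ (p + ε • A (c₂ w - z) - c₁ h) u ≤ dist (c₁ h) (p + ε • A (c₂ w - z)) := by
      have := real_inner_le_norm (p + ε • A (c₂ w - z) - c₁ h) u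
      rw [hu1, mul_one] at this
      rw [dist_comm, dist_eq_norm]
      exact this
    rw [h4, h1, h2] at h5
    nlinarith
  · intro w₁ hw₁ w₂
    show r₁ w₁ + ε * r₂ w₂ < dist (c₁ w₁) (p + ε • A (c₂ w₂ - z))
    have h1 : dist p (p + ε • A (c₂ w₂ - z)) = ε * ‖c₂ w₂ - z‖ := by
      rw [dist_self_add_right, norm_smul, Real.norm_of_nonneg hε0.le, A.norm_map]
    have h2 := dist_triangle p (p + ε • A (c₂ w₂ - z)) (c₁ w₁)
    rw [h1] at h2
    have h3 := hη' w₁ hw₁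
    have h4 := hM w₂
    rw [dist_comm (c₁ w₁)]
    nlinarith
  · intro w₂
    show inner ℝ (p + ε • A (c₂ w₂ - z)) e₁ + ε * r₂ w₂ < _
    have h1 : inner ℝ (A (c₂ w₂ - z)) e₁ ≤ ‖c₂ w₂ - z‖ := by
      have := real_inner_le_norm (A (c₂ w₂ - z)) e₁
      rwa [he₁, mul_one, A.norm_map] at this
    rw [inner_add_left, real_inner_smul_left]
    have h4 := hM w₂
    nlinarith

end attach

end BallQI
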