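import Pool.Agent.Helper49.BallGeom

set_option autoImplicit false
set_option linter.unusedSectionVars false

namespace BallQI

variable {E : Type*} [NormedAddCommGroup E] [InnerProductSpace ℝ E]

/-- generalised balls meet: `comp u` says that `u` stands for the complement of the open ball -/
def gmeet {P : Type*} (comp : P → Prop) (c : P → E) (r : P → ℝ) (u v : P) : Prop :=
  (comp u ∧ comp v) ∨ (comp u ∧ ¬ comp v ∧ r u ≤ dist (c u) (c v) + r v) ∨
    (¬ comp u ∧ comp v ∧ r v ≤ dist (c u) (c v) + r u) ∨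
    (¬ comp u ∧ ¬ comp v ∧ dist (c u) (c v) ≤ r u + r v)

lemma gmeet_symm {P : Type*} {comp : P → Prop} {c : P → E} {r : P → ℝ} {u v : P}
    (h : gmeet comp c r u v) : gmeet comp c r v u := by
  unfold gmeet at *
  rw [dist_comm (c v) (c u), add_comm (r v) (r u)]
  tauto

/-- intersection graph of generalised balls -/
def ggraph {P : Type*} (comp : P → Prop) (c : P → E) (r : P → ℝ) : SimpleGraph P where
  Adj u v := u ≠ v ∧ gmeet comp c r u v
  symm := ⟨fun _ _ h => ⟨h.1.symm, gmeet_symm h.2⟩⟩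
  loopless := ⟨fun _ h => h.1 rfl⟩

lemma exists_common_point (c₁ c₂ : E) (r₁ r₂ : ℝ) (h₁ : 0 ≤ r₁) (h₂ : 0 ≤ r₂)
    (h : dist c₁ c₂ ≤ r₁ + r₂) : ∃ q : E, dist q c₁ ≤ r₁ ∧ dist q c₂ ≤ r₂ := by
  obtain ⟨q, hq1, hq2⟩ := exists_dist_le_le h₁ h₂ (by linarith : dist c₁ c₂ ≤ r₂ + r₁)
  exact ⟨q, by rw [dist_comm]; exact hq1, hq2⟩

lemma exists_far_point [Nontrivial E] (c₁ c₂ : E) (r₂ : ℝ) (h₂ : 0 ≤ r₂) :
    ∃ q : E, dist q c₁ = dist c₁ c₂ + r₂ ∧ dist q c₂ ≤ r₂ := by
  obtain ⟨n, hn, hn'⟩ : ∃ n : E, ‖n‖ = 1 ∧ c₂ - c₁ = dist c₁ c₂ • n := by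
    by_cases h : c₂ = c₁
    · obtain ⟨n, hn⟩ := exists_norm_eq E (zero_le_one (α := ℝ))
      exact ⟨n, hn, by subst h; simp⟩
    · have h0 : 0 < ‖c₂ - c₁‖ := norm_pos_iff.2 (sub_ne_zero.2 h)
      refine ⟨(‖c₂ - c₁‖)⁻¹ • (c₂ - c₁), ?_, ?_⟩
      · rw [norm_smul, norm_inv, norm_norm, inv_mul_cancel₀ h0.ne']
      · rw [dist_comm, dist_eq_norm, smul_smul, mul_inv_cancel₀ h0.ne', one_smul]
  have hd : 0 ≤ dist c₁ c₂ := dist_nonneg
  refine ⟨c₂ + r₂ • n, ?_, ?_⟩
  · rw [dist_eq_norm, show c₂ + r₂ • n - c₁ = (c₂ - c₁) + r₂ • n by abel, hn', ← add_smul,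
      norm_smul, hn, mul_one, Real.norm_of_nonneg (by linarith)]
  · rw [dist_self_add_left, norm_smul, hn, mul_one, Real.norm_of_nonneg h₂]

/-- `β = (c', r')` is contained in the generalised ball `v` -/
def SubGen {P : Type*} (comp : P → Prop) (c : P → E) (r : P → ℝ) (v : P) (c' : E) (r' : ℝ) : Prop :=
  (¬ comp v → dist c' (c v) + r' ≤ r v) ∧ (comp v → r v + r' ≤ dist c' (c v))

lemma SubGen.meet {P : Type*} {comp : P → Prop} {c : P → E} {r : P → ℝ} {v u : P} {c' : E} {r' : ℝ}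
    (h : SubGen comp c r v c' r') (hu : ¬ comp u) (hm : dist c' (c u) ≤ r' + r u) :
    gmeet comp c r v u := by
  by_cases hv : comp v
  · have h1 := h.2 hv
    refine Or.inr (Or.inl ⟨hv, hu, ?_⟩)
    have := dist_triangle c' (c u) (c v)
    rw [dist_comm (c v) (c u)]
    linarith
  · have h1 := h.1 hv
    refine Or.inr (Or.inr (Or.inr ⟨hv, hu, ?_⟩))
    have := dist_triangle (c v) c' (c u)
    rw [dist_comm (c v) c'] at this
    linarith

lemma SubGen.meet₂ {P : Type*} {comp : P → Prop} {c : P → E} {r : P → ℝ} {v u : P}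
    {c₁ c₂ : E} {r₁ r₂ : ℝ} (h : SubGen comp c r v c₁ r₁) (h' : SubGen comp c r u c₂ r₂)
    (hm : dist c₁ c₂ ≤ r₁ + r₂) : gmeet comp c r v u := by
  have t1 := dist_triangle (c v) c₁ c₂
  have t2 := dist_triangle (c v) c₂ (c u)
  have t3 := dist_triangle c₁ c₂ (c u)
  have t4 := dist_triangle c₁ (c u) (c v)
  have t5 := dist_triangle c₂ c₁ (c v)
  have t6 := dist_triangle c₂ (c v) (c u)
  rw [dist_comm (c v) c₁] at t1
  rw [dist_comm (c v) c₂] at t2
  rw [dist_comm (c u) (c v)] at t4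
  rw [dist_comm c₂ c₁] at t5
  by_cases hv : comp v <;> by_cases hu : comp u
  · exact Or.inl ⟨hv, hu⟩
  · have h1 := h.2 hv
    have h2 := h'.1 hu
    refine Or.inr (Or.inl ⟨hv, hu, ?_⟩)
    linarith
  · have h1 := h.1 hv
    have h2 := h'.2 hu
    refine Or.inr (Or.inr (Or.inl ⟨hv, hu, ?_⟩))
    linarith
  · have h1 := h.1 hv
    have h2 := h'.1 hu
    refine Or.inr (Or.inr (Or.inr ⟨hv, hu, ?_⟩))
    linarith

/-- the exposing ball -/
lemma exists_beta [Nontrivial E] {P : Type*} (comp : P → Prop) (c : P → E) (r : P → ℝ)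
    (hr : ∀ u, 0 < r u) (x : P) (hx : comp x) (N : Set P) (hxN : x ∈ N)
    (hsep : ∀ h ∈ N, ∀ h' ∈ N, Within (ggraph comp c r) 4 h h' → h = h') (w : P)
    (hw : ∃ h ∈ N, w ≠ h ∧ ¬ (ggraph comp c r).Adj h w ∧ ∃ v, (ggraph comp c r).Adj h v ∧
      (ggraph comp c r).Adj v w) :
    ∃ (h v : P) (c' : E) (r' : ℝ), h ∈ N ∧ w ≠ h ∧ ¬ (ggraph comp c r).Adj h w ∧
      (ggraph comp c r).Adj h v ∧ (ggraph comp c r).Adj v w ∧ ¬ comp w ∧ 0 < r' ∧
      dist c' (c w) ≤ r' + r w ∧ SubGen comp c r v c' r' ∧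
      (h = x → dist c' (c x) + r' = r x ∧ c' ≠ c x) ∧
      (h ≠ x → dist c' (c h) = r' + r h ∧ dist c' (c x) + r' < r x) := by
  classical
  obtain ⟨h, hN, hwh, hnadj, v, hhv, hvw⟩ := hw
  -- non-neighbours of x are honest and lie inside x
  have hinside : ∀ u, u ≠ x → ¬ (ggraph comp c r).Adj x u → ¬ comp u ∧
      dist (c u) (c x) + r u < r x := by
    intro u hu hnu
    have hcu : ¬ comp u := fun hcu => hnu ⟨hu.symm, Or.inl ⟨hx, hcu⟩⟩
    refine ⟨hcu, ?_⟩
    by_contra hcon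
    push Not at hcon
    exact hnu ⟨hu.symm, Or.inr (Or.inl ⟨hx, hcu, by rw [dist_comm]; exact hcon⟩)⟩
  by_cases hhx : h = x
  · subst hhx
    obtain ⟨hcw, hwin⟩ := hinside w hwh hnadj
    by_cases hcv : comp v
    · have hm : r v ≤ dist (c v) (c w) + r w := by
        rcases hvw.2 with h1 | h1 | h1 | h1
        · exact absurd h1.2 hcw
        · exact h1.2.2
        · exact absurd hcv h1.1
        · exact absurd hcv h1.1
      obtain ⟨q, hq1, hq2⟩ := exists_far_point (c v) (c w) (r w) (hr w).le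
      have hqx : dist q (c h) < r h := by
        have := dist_triangle q (c w) (c h)
        linarith
      obtain ⟨c', r', h1, h2, h3, h4, h5⟩ := grow_int_compl (c h) (c v) q (r h) (r v) (hr v)
        (by rw [hq1]; exact hm) hqx
      refine ⟨h, v, c', r', hN, hwh, hnadj, hhv, hvw, hcw, h1, ?_, ⟨fun h' => absurd hcv h', fun _ => h5⟩,
        fun _ => ⟨h3, h4⟩, fun h' => absurd rfl h'⟩
      have := dist_triangle c' q (c w)
      rw [dist_comm c' q] at this
      linarith
    · have hm : dist (c v) (c w) ≤ r v + r w := by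
        rcases hvw.2 with h1 | h1 | h1 | h1
        · exact absurd h1.2 hcw
        · exact absurd h1.1 hcv
        · exact absurd h1.2.1 hcw
        · exact h1.2.2
      obtain ⟨q, hq1, hq2⟩ := exists_common_point (c v) (c w) (r v) (r w) (hr v).le (hr w).le hm
      have hqx : dist q (c h) < r h := by
        have := dist_triangle q (c w) (c h)
        linarith
      have hvx : r h ≤ dist (c v) (c h) + r v := by
        rcases hhv.2 with h1 | h1 | h1 | h1
        · exact absurd h1.2 hcv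
        · rw [dist_comm]; exact h1.2.2
        · exact absurd h1.2.1 hcv
        · exact absurd hx h1.1
      obtain ⟨c', r', h1, h2, h3, h4, h5⟩ := grow_int (c h) (c v) q (r h) (r v) (hr v) hq1 hqx hvx
      refine ⟨h, v, c', r', hN, hwh, hnadj, hhv, hvw, hcw, h1, ?_, ⟨fun _ => h5, fun h' => absurd h' hcv⟩,
        fun _ => ⟨h3, h4⟩, fun h' => absurd rfl h'⟩
      have := dist_triangle c' q (c w)
      rw [dist_comm c' q] at this
      linarith
  · -- h is another hub
    have hhv1 : Within (ggraph comp c r) 1 h v := Within.of_adj hhv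
    have hvw1 : Within (ggraph comp c r) 1 v w := Within.of_adj hvw
    have hnx : ∀ u, Within (ggraph comp c r) 2 h u → u ≠ x ∧ ¬ (ggraph comp c r).Adj x u := by
      intro u hu
      constructor
      · rintro rfl
        exact hhx (hsep h hN u hxN (hu.mono (by norm_num)))
      · intro hadj
        exact hhx (hsep h hN x hxN ((hu.trans (Within.of_adj hadj.symm)).mono (by norm_num)))
    obtain ⟨hch, hhin⟩ := hinside h (hnx h (Within.refl _ _ _)).1 (hnx h (Within.refl _ _ _)).2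
    have hv' := hnx v (hhv1.mono (by norm_num))
    obtain ⟨hcv, hvin⟩ := hinside v hv'.1 hv'.2
    have hw' := hnx w (hhv1.trans hvw1)
    obtain ⟨hcw, hwin⟩ := hinside w hw'.1 hw'.2
    have hmhv : dist (c h) (c v) ≤ r h + r v := by
      rcases hhv.2 with h1 | h1 | h1 | h1
      · exact absurd h1.1 hch
      · exact absurd h1.1 hch
      · exact absurd h1.2.1 hcv
      · exact h1.2.2
    have hmvw : dist (c v) (c w) ≤ r v + r w := by
      rcases hvw.2 with h1 | h1 | h1 | h1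
      · exact absurd h1.1 hcv
      · exact absurd h1.1 hcv
      · exact absurd h1.2.1 hcw
      · exact h1.2.2
    have hnm : r h + r w < dist (c h) (c w) := by
      by_contra hcon
      push Not at hcon
      exact hnadj ⟨hwh.symm, Or.inr (Or.inr (Or.inr ⟨hch, hcw, hcon⟩))⟩
    obtain ⟨q, hq1, hq2⟩ := exists_common_point (c v) (c w) (r v) (r w) (hr v).le (hr w).le hmvw
    have hqh : r h < dist q (c h) := by
      have := dist_triangle (c h) q (c w)
      rw [dist_comm (c h) q] at this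
      linarith
    obtain ⟨c', r', h1, h2, h3, h4⟩ := grow_ext (c h) (c v) q (r h) (r v) (hr v) hq1 hqh
      (by rw [dist_comm]; linarith)
    refine ⟨h, v, c', r', hN, hwh, hnadj, hhv, hvw, hcw, h1, ?_, ⟨fun _ => h4, fun h' => absurd h' hcv⟩,
      fun h' => absurd h' hhx, fun _ => ⟨h3, ?_⟩⟩
    · have := dist_triangle c' q (c w)
      rw [dist_comm c' q] at this
      linarith
    · have := dist_triangle c' (c v) (c x)
      linarith

end BallQI
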