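import Pool.Agent.Helper49.BallBuild

set_option autoImplicit false
set_option linter.unusedSectionVars false

namespace BallQI

universe u

variable {E : Type*} [NormedAddCommGroup E] [InnerProductSpace ℝ E]

namespace Sys

variable {V : Type u} (S : Sys V E)

theorem connected_case [Nontrivial E] (hinf : (Metric.sphere (0 : E) 1).Infinite) [Finite V] :
    ∃ C : Conf V E, C.Good S.G Set.univ {z | S.dep z ≤ 1} S.o := by
  classical
  cases nonempty_fintype V
  obtain ⟨m, hm⟩ : ∃ m, ∀ v, S.dep v ≤ 1 + m :=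
    ⟨Finset.univ.sup S.dep, fun v => by
      have := Finset.le_sup (f := S.dep) (Finset.mem_univ v)
      omega⟩
  obtain ⟨e, he⟩ := exists_norm_eq E (zero_le_one (α := ℝ))
  let C₀ : Conf V E :=
    { W := PUnit
      fin := inferInstance
      c := fun _ => 0
      r := fun _ => 1
      ρ := PUnit.unit
      e := e
      φ := fun _ => PUnit.unit
      ψ := fun _ => S.o
      hr := fun _ => one_pos
      he := he
      hext := fun w hw => absurd rfl hw }
  let I := {T : Set V // ∃ z, 1 < S.dep z ∧ T = {z' | S.CR 1 z z'}}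
  have hI : ∀ i : I, ∃ z, 1 < S.dep z ∧ i.1 = {z' | S.CR 1 z z'} := fun i => i.2
  choose z₁ hz₁ hT using hI
  have hnode : ∀ i, S.Node 1 (z₁ i) S.o := by
    intro i
    have hd := hz₁ i
    refine ⟨by rw [dep_root], ?_, hd⟩
    have hne : z₁ i ≠ S.o := by
      intro h
      rw [h, dep_root] at hd
      omega
    rcases S.root _ hne with h | h
    · exact h
    · have := dep_adj' h
      rw [dep_root] at this
      omega
  choose C hC using fun i => build hinf m 1 (z₁ i) S.o hm (hnode i)
  have huniq : ∀ (i i' : I) z, S.CR 1 (z₁ i) z → S.CR 1 (z₁ i') z → i = i' := by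
    intro i i' z hz hz'
    apply Subtype.ext
    rw [hT i, hT i']
    ext y
    simp only [Set.mem_ofPred_eq]
    exact ⟨fun hy => (hz'.trans hz.symm).trans hy, fun hy => (hz.trans hz'.symm).trans hy⟩
  refine glue hinf S.G _ _ S.o C₀ {z | S.dep z ≤ 1} (fun z _ => trivial) ?_ ?_ ?_ ?_ ?_ rfl
    (fun i : I => {z | S.CR 1 (z₁ i) z}) (fun i => {z | S.dep z = 1 + 1}) (fun _ => S.o) C hC
    (fun i => PUnit.unit) ?_ ?_ ?_ ?_ ?_ ?_ ?_ ?_
  · intro z _ z' _ _
    exact Within.refl _ _ _
  · intro w w' hadj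
    exact absurd rfl hadj.1
  · intro z hz
    have h1 : S.dep z ≤ 1 := hz
    have h2 : Within S.G (S.dep z) S.o z := within_dist S.conn S.o z
    exact h2.mono (by omega)
  · intro w
    exact Or.inl (Within.refl _ _ _)
  · intro z _ hz
    exact ⟨hz, Within.refl _ _ _⟩
  · intro i w hw
    exact absurd rfl hw
  · intro i
    exact Within.refl _ _ _
  · intro i z hz
    refine ⟨trivial, ?_⟩
    have : 1 < S.dep z := CR.dep hz (hz₁ i)
    show ¬ S.dep z ≤ 1
    omega
  · intro z _ hz
    have hz' : 1 < S.dep z := by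
      change ¬ S.dep z ≤ 1 at hz
      omega
    obtain ⟨i, hi⟩ : ∃ i : I, i.1 = {z' | S.CR 1 z z'} := ⟨⟨_, z, hz', rfl⟩, rfl⟩
    refine ⟨i, ?_⟩
    have h2 : z ∈ i.1 := by
      rw [hi]
      exact CR.refl _ _
    rw [hT i] at h2
    exact h2
  · exact huniq
  · intro i z z' hz hz' hadj
    have h1 : 1 < S.dep z' := CR.dep hz' (hz₁ i)
    have h2 : S.dep z ≤ 1 := hz
    have h3 := dep_adj hadj
    refine ⟨?_, Within.refl _ _ _⟩
    show S.dep z' = 1 + 1
    omega
  · intro i i' z z' hz hz' hadj
    have hzd : 1 < S.dep z := CR.dep hz (hz₁ i)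
    have hzd' : 1 < S.dep z' := CR.dep hz' (hz₁ i')
    exact huniq i i' z' (CR.trans hz (CR.of_adj hadj hzd hzd')) hz'
  · intro i
    obtain ⟨f, hf1, hf2⟩ := descend (S := S) _ (z₁ i) rfl (hz₁ i)
    exact ⟨f, hf1, hf2⟩

end Sys

/-- adding an enclosing root sphere whose neighbourhood is a clique -/
theorem add_root [Nontrivial E] {V : Type u} [Finite V] (c : V → E) (r : V → ℝ)
    (hr : ∀ v, 0 < r v) (hconn : (sgraph c r).Connected) :
    ∃ (S : Sys (Option V) E) (v₀ : V), S.o = none ∧ S.G.Adj (some v₀) none ∧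
      (∀ u v, (sgraph c r).Adj u v → S.G.Adj (some u) (some v)) ∧
      ∃ π : Option V → V, (∀ v, π (some v) = v) ∧
        ∀ a b, S.G.Adj a b → Within (sgraph c r) 1 (π a) (π b) := by
  classical
  have hne : Nonempty V := hconn.nonempty
  -- radius
  obtain ⟨v₀, hv₀⟩ := Finite.exists_max (fun v => ‖c v‖ + r v)
  set R : ℝ := ‖c v₀‖ + r v₀ with hR
  have hRpos : 0 < R := by
    have := hr v₀
    positivity
  obtain ⟨n, hn, hn'⟩ : ∃ n : E, ‖n‖ = 1 ∧ c v₀ = ‖c v₀‖ • n := by
    by_cases h : c v₀ = 0
    · obtain ⟨n, hn⟩ := exists_norm_eq E (zero_le_one (α := ℝ))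
      exact ⟨n, hn, by rw [h]; simp⟩
    · have h0 : 0 < ‖c v₀‖ := norm_pos_iff.2 h
      refine ⟨(‖c v₀‖)⁻¹ • c v₀, ?_, ?_⟩
      · rw [norm_smul, norm_inv, norm_norm, inv_mul_cancel₀ h0.ne']
      · rw [smul_smul, mul_inv_cancel₀ h0.ne', one_smul]
  let c' : Option V → E := fun v => v.elim (-n) c
  let r' : Option V → ℝ := fun v => v.elim (R + 1) r
  have hr' : ∀ v, 0 < r' v := by
    rintro (_ | v)
    · show 0 < R + 1
      linarith
    · exact hr v
  -- distance to the root
  have hdist : ∀ v, dist (c v) (-n) = ‖c v + n‖ := by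
    intro v
    rw [dist_eq_norm, sub_neg_eq_add]
  have hle : ∀ v, dist (c v) (-n) + r v ≤ R + 1 := by
    intro v
    rw [hdist]
    have h1 := norm_add_le (c v) n
    have h2 : ‖c v‖ + r v ≤ ‖c v₀‖ + r v₀ := hv₀ v
    rw [hn] at h1
    linarith
  have hadj_eq : ∀ v, (sgraph c' r').Adj (some v) none → dist (c v) (-n) + r v = R + 1 := by
    intro v h
    have h1 : R + 1 ≤ dist (c v) (-n) + r v := h.2.2.1
    linarith [hle v]
  have hadj_eq' : ∀ v, dist (c v) (-n) + r v = R + 1 → (sgraph c' r').Adj (some v) none := by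
    intro v h
    have hrv := hr v
    have hd : 0 ≤ dist (c v) (-n) := dist_nonneg
    refine ⟨by simp, ?_, ?_, ?_⟩
    · show r v ≤ dist (c v) (-n) + (R + 1)
      linarith
    · show R + 1 ≤ dist (c v) (-n) + r v
      linarith
    · show dist (c v) (-n) ≤ r v + (R + 1)
      linarith
  -- the centres of neighbours of the root are on a ray
  have hray : ∀ v, dist (c v) (-n) + r v = R + 1 → c v = (R - r v) • n ∧ 0 ≤ R - r v := by
    intro v h
    rw [hdist] at h
    have h1 := norm_add_le (c v) n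
    have h2 : ‖c v‖ + r v ≤ ‖c v₀‖ + r v₀ := hv₀ v
    rw [hn] at h1
    have h3 : ‖c v + n‖ = ‖c v‖ + ‖n‖ := by
      rw [hn]; linarith
    have h4 : ‖c v‖ = R - r v := by linarith
    have h5 := (sameRay_iff_norm_add (x := c v) (y := n)).2 h3
    have h6 := h5.norm_smul_eq
    rw [hn, one_smul, h4] at h6
    refine ⟨h6.symm, ?_⟩
    rw [← h4]
    exact norm_nonneg _
  have hroot0 : (sgraph c' r').Adj (some v₀) none := by
    apply hadj_eq'
    rw [hdist]
    have : c v₀ + n = (‖c v₀‖ + 1) • n := by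
      rw [add_smul, one_smul, ← hn']
    rw [this, norm_smul, hn, mul_one, Real.norm_of_nonneg (by positivity), hR]
    ring
  have hsome : ∀ u v, (sgraph c r).Adj u v → (sgraph c' r').Adj (some u) (some v) := by
    intro u v h
    exact ⟨by simpa using h.1, h.2.1, h.2.2.1, h.2.2.2⟩
  have hsome' : ∀ u v, (sgraph c' r').Adj (some u) (some v) → (sgraph c r).Adj u v := by
    intro u v h
    exact ⟨by simpa using h.1, h.2.1, h.2.2.1, h.2.2.2⟩
  have hclique : ∀ u v, (sgraph c' r').Adj (some u) none → (sgraph c' r').Adj (some v) none →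
      Within (sgraph c r) 1 u v := by
    intro u v hu hv
    by_cases huv : u = v
    · exact Within.of_eq huv
    obtain ⟨hu1, hu2⟩ := hray u (hadj_eq u hu)
    obtain ⟨hv1, hv2⟩ := hray v (hadj_eq v hv)
    have hru := hr u
    have hrv := hr v
    have hd : dist (c u) (c v) = |r v - r u| := by
      rw [hu1, hv1, dist_eq_norm, ← sub_smul, norm_smul, hn, mul_one, Real.norm_eq_abs]
      congr 1
      ring
    have h1 := le_abs_self (r v - r u)
    have h2 := neg_abs_le (r v - r u)
    refine Within.of_adj ⟨huv, ?_, ?_, ?_⟩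
    · rw [hd]; linarith
    · rw [hd]; linarith
    · rw [hd]
      rcases abs_cases (r v - r u) with h | h <;> linarith [h.1]
  have hconn' : (sgraph c' r').Connected := by
    have hreach : ∀ u v : V, (sgraph c' r').Reachable (some u) (some v) := by
      intro u v
      obtain ⟨p⟩ := hconn.preconnected u v
      have h1 : Within (sgraph c' r') (1 * p.length) (some u) (some v) :=
        Within.map_lip (K := 1) some (fun a b hab => Within.of_adj (hsome a b hab)) ⟨p, le_rfl⟩
      exact ⟨h1.choose⟩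
    have hall : ∀ a : Option V, (sgraph c' r').Reachable a (some v₀) := by
      rintro (_ | a)
      · exact hroot0.symm.reachable
      · exact hreach a v₀
    have : Nonempty (Option V) := ⟨none⟩
    exact ⟨fun a b => (hall a).trans (hall b).symm⟩
  let π : Option V → V := fun a => a.elim v₀ id
  refine ⟨{ c := c', r := r', hr := hr', o := none, conn := hconn', root := ?_ }, v₀, rfl, hroot0,
    hsome, π, fun v => rfl, ?_⟩
  · rintro (_ | v) hv
    · exact absurd rfl hv
    · rcases (hle v).lt_or_eq with h | h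
      · exact Or.inl h
      · exact Or.inr (hadj_eq' v h)
  · rintro (_ | a) (_ | b) hadj
    · exact absurd rfl hadj.1
    · exact hclique v₀ b hroot0 hadj.symm
    · exact hclique a v₀ hadj hroot0
    · exact Within.of_adj (hsome' a b hadj)

/-- the connected case -/
theorem conn_result [Nontrivial E] (hinf : (Metric.sphere (0 : E) 1).Infinite) {V : Type u}
    [Finite V] (c : V → E) (r : V → ℝ) (hr : ∀ v, 0 < r v) (hconn : (sgraph c r).Connected) :
    ∃ (W : Type u) (_ : Finite W) (c' : W → E) (r' : W → ℝ) (f : V → W) (g : W → V),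
      (∀ w, 0 < r' w) ∧
      (∀ u v, (sgraph c r).Adj u v → Within (bgraph c' r') 37 (f u) (f v)) ∧
      (∀ w w', (bgraph c' r').Adj w w' → Within (sgraph c r) 35 (g w) (g w')) ∧
      (∀ v, Within (sgraph c r) 8 (g (f v)) v) ∧
      (∀ w, ∃ v, Within (bgraph c' r') 54 w (f v)) := by
  obtain ⟨S, v₀, ho, hadj₀, hsome, π, hπ, hπ'⟩ := add_root c r hr hconn
  obtain ⟨C, hC⟩ := S.connected_case hinf
  have hlip : ∀ {n a b}, Within S.G n a b → Within (sgraph c r) n (π a) (π b) := by
    intro n a b h
    have := Within.map_lip (K := 1) π hπ' h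
    simpa using this
  refine ⟨C.W, C.fin, C.c, C.r, fun v => C.φ (some v), fun w => π (C.ψ w), C.hr, ?_, ?_, ?_, ?_⟩
  · intro u v huv
    exact hC.a _ trivial _ trivial (hsome u v huv)
  · intro w w' h
    exact hlip (hC.b w w' h)
  · intro v
    have := hlip (hC.c (some v) trivial)
    rwa [hπ] at this
  · intro w
    -- the image of the root is close
    have hroot : Within (bgraph C.c C.r) 37 (C.φ S.o) (C.φ (some v₀)) := by
      apply hC.a _ trivial _ trivial
      rw [ho]
      exact hadj₀.symm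
    rcases hC.d w with h | ⟨z, _, h⟩
    · refine ⟨v₀, ?_⟩
      have h1 : Within (bgraph C.c C.r) 8 (C.φ S.o) C.ρ := by
        apply hC.e _ trivial
        show S.dep S.o ≤ 1
        rw [Sys.dep_root]
        omega
      exact (h.trans h1.symm).trans hroot
    · cases z with
      | none =>
        refine ⟨v₀, ?_⟩
        rw [ho] at hroot
        exact h.trans hroot
      | some z => exact ⟨z, h.mono (by norm_num)⟩

end BallQI
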