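import Pool.Agent.Helper7.Comm.Subst

set_option autoImplicit false

/-! # Basic facts on the weighted series `Gam` (for helper7, MP_76db9d_al) -/

namespace Pool.Agent.Helper49.MagnusW

open Pool.Agent.Helper7.Comm
open scoped commutatorElement

/-! ## N-series -/

theorem IsNSeries.zero {G : Type*} [Group G] {H : ℕ → Subgroup G} (hH : IsNSeries H) :
    H 0 = ⊤ := by
  have := hH.anti (Nat.zero_le 1)
  rw [hH.one] at this
  exact top_le_iff.mp this

theorem IsNSeries.normal {G : Type*} [Group G] {H : ℕ → Subgroup G} (hH : IsNSeries H) (n : ℕ) :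
    (H n).Normal := by
  refine ⟨fun x hx g => ?_⟩
  have h1 : ⁅g, x⁆ ∈ H (1 + n) :=
    hH.comm 1 n (Subgroup.commutator_mem_commutator (by rw [hH.one]; trivial) hx)
  have h2 : ⁅g, x⁆ ∈ H n := hH.anti (by omega) h1
  have h3 : g * x * g⁻¹ = ⁅g, x⁆ * x := by
    rw [commutatorElement_def]; group
  rw [h3]
  exact mul_mem h2 hx

theorem mem_gam {X : Type*} {ω : X → ℕ} {n : ℕ} {g : FreeGroup X} :
    g ∈ Gam ω n ↔ ∀ H : ℕ → Subgroup (FreeGroup X), IsNSeries H →
      (∀ x, FreeGroup.of x ∈ H (ω x)) → g ∈ H n := by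
  rw [Gam, Subgroup.mem_sInf]
  constructor
  · intro h H h1 h2
    exact h _ ⟨H, h1, h2, rfl⟩
  · rintro h _ ⟨H, h1, h2, rfl⟩
    exact h H h1 h2

theorem gam_isNSeries {X : Type} (ω : X → ℕ) : IsNSeries (Gam ω) where
  anti m n hmn g hg := by
    rw [mem_gam] at hg ⊢
    intro H h1 h2
    exact h1.anti hmn (hg H h1 h2)
  one := by
    rw [eq_top_iff]
    intro g _
    rw [mem_gam]
    intro H h1 _
    rw [h1.one]; trivial
  comm m n := by
    rw [Subgroup.commutator_le]
    intro a ha b hb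
    rw [mem_gam] at ha hb ⊢
    intro H h1 h2
    exact h1.comm m n (Subgroup.commutator_mem_commutator (ha H h1 h2) (hb H h1 h2))

theorem of_mem_gam {X : Type} (ω : X → ℕ) (x : X) : FreeGroup.of x ∈ Gam ω (ω x) := by
  rw [mem_gam]
  intro H _ h2
  exact h2 x

theorem isNSeries_comap {F G : Type*} [Group F] [Group G] (φ : F →* G) {H : ℕ → Subgroup G}
    (hH : IsNSeries H) : IsNSeries (fun n => (H n).comap φ) where
  anti m n hmn := Subgroup.comap_mono (hH.anti hmn)
  one := by
    simp only [hH.one, Subgroup.comap_top]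
  comm m n := by
    rw [Subgroup.commutator_le]
    intro a ha b hb
    rw [Subgroup.mem_comap] at ha hb ⊢
    rw [map_commutatorElement]
    exact hH.comm m n (Subgroup.commutator_mem_commutator ha hb)

theorem gam_le_comap {X : Type} {G : Type} [Group G] (ω : X → ℕ) (φ : FreeGroup X →* G)
    (H : ℕ → Subgroup G) (hH : IsNSeries H) (h : ∀ x, φ (FreeGroup.of x) ∈ H (ω x)) (n : ℕ) :
    Gam ω n ≤ (H n).comap φ := by
  intro g hg
  exact mem_gam.mp hg _ (isNSeries_comap φ hH) (fun x => h x)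

/-! ## The lower central series -/

theorem three_subgroups {G : Type*} [Group G] (A B C N : Subgroup G) [N.Normal]
    (h1 : ⁅⁅B, C⁆, A⁆ ≤ N) (h2 : ⁅⁅C, A⁆, B⁆ ≤ N) : ⁅⁅A, B⁆, C⁆ ≤ N := by
  have key : ∀ K : Subgroup G, K ≤ N ↔ K.map (QuotientGroup.mk' N) = ⊥ := by
    intro K
    rw [Subgroup.map_eq_bot_iff, QuotientGroup.ker_mk']
  rw [key, Subgroup.map_commutator, Subgroup.map_commutator] at h1 h2 ⊢
  exact Subgroup.commutator_commutator_eq_bot_of_rotate h1 h2

theorem lcs_comm {G : Type*} [Group G] (n : ℕ) : ∀ m : ℕ,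
    ⁅(⊤ : Subgroup G).lowerCentralSeries m, (⊤ : Subgroup G).lowerCentralSeries n⁆ ≤
      (⊤ : Subgroup G).lowerCentralSeries (m + n + 1) := by
  induction n with
  | zero => intro m; exact le_rfl
  | succ n ih =>
    intro m
    rw [Subgroup.commutator_comm]
    have : (⊤ : Subgroup G).lowerCentralSeries (n + 1) =
      ⁅(⊤ : Subgroup G).lowerCentralSeries n, (⊤ : Subgroup G)⁆ := rfl
    rw [this]
    apply three_subgroups
    · rw [Subgroup.commutator_comm (⊤ : Subgroup G)]
      have h := ih (m + 1)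
      rwa [show m + 1 + n + 1 = m + (n + 1) + 1 by omega] at h
    · have h := Subgroup.commutator_mono (ih m) (le_refl (⊤ : Subgroup G))
      exact h

/-- The lower central series, reindexed, is an `N`-series. -/
theorem isNSeries_lcs (G : Type*) [Group G] :
    IsNSeries (fun n => (⊤ : Subgroup G).lowerCentralSeries (n - 1)) where
  anti m n hmn := (⊤ : Subgroup G).lowerCentralSeries_antitone (by omega)
  one := rfl
  comm m n := by
    rcases Nat.eq_zero_or_pos m with rfl | hm
    · refine (Subgroup.commutator_le_right _ _).trans ?_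
      simp
    · rcases Nat.eq_zero_or_pos n with rfl | hn
      · refine (Subgroup.commutator_le_left _ _).trans ?_
        simp
      · have h := lcs_comm (G := G) (n - 1) (m - 1)
        rwa [show m - 1 + (n - 1) + 1 = m + n - 1 by omega] at h

theorem lcs_le_of_isNSeries {G : Type*} [Group G] {H : ℕ → Subgroup G} (hH : IsNSeries H)
    (n : ℕ) : (⊤ : Subgroup G).lowerCentralSeries n ≤ H (n + 1) := by
  induction n with
  | zero => rw [zero_add, hH.one]; exact le_top
  | succ n ih =>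
    rw [Subgroup.lowerCentralSeries_succ]
    refine (Subgroup.commutator_mono ih (le_of_eq hH.one.symm)).trans ?_
    exact hH.comm (n + 1) 1

theorem gam_one_succ (X : Type) (n : ℕ) :
    Gam (fun _ : X => 1) (n + 1) = (⊤ : Subgroup (FreeGroup X)).lowerCentralSeries n := by
  refine le_antisymm ?_ (lcs_le_of_isNSeries (gam_isNSeries _) n)
  intro g hg
  have := mem_gam.mp hg _ (isNSeries_lcs (FreeGroup X)) (fun x => by simp)
  simpa using this

/-! ## Units congruent to one form an N-series -/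

section units

variable {X Y : Type*} {K : Type*} [CommRing K]

theorem OrdGE.mul_left {ω : Y → ℕ} {n : ℕ} {f g : NC Y K} (hg : OrdGE ω n g) :
    OrdGE ω n (f * g) := by
  have h : OrdGE ω 0 f := fun w hw => absurd hw (Nat.not_lt_zero _)
  simpa using h.mul hg

theorem OrdGE.mul_right {ω : Y → ℕ} {n : ℕ} {f g : NC Y K} (hf : OrdGE ω n f) :
    OrdGE ω n (f * g) := by
  have h : OrdGE ω 0 g := fun w hw => absurd hw (Nat.not_lt_zero _)
  simpa using hf.mul h

/-- Elements whose image is `1` modulo weight `n`. -/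
def ordSub {G : Type*} [Group G] (ω' : Y → ℕ) (μ : G →* (NC Y K)ˣ) (n : ℕ) :
    Subgroup G where
  carrier := {g | OrdGE ω' n ((μ g : NC Y K) - 1)}
  one_mem' := by
    simp only [Set.mem_ofPred_eq, map_one, Units.val_one, sub_self]
    exact OrdGE.zero
  mul_mem' := by
    intro a b ha hb
    simp only [Set.mem_ofPred_eq, map_mul, Units.val_mul] at ha hb ⊢
    have : (μ a : NC Y K) * (μ b : NC Y K) - 1 =
        ((μ a : NC Y K) - 1) * (μ b : NC Y K) + ((μ b : NC Y K) - 1) := by noncomm_ring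
    rw [this]
    exact (OrdGE.mul_right ha).add hb
  inv_mem' := by
    intro a ha
    simp only [Set.mem_ofPred_eq, map_inv] at ha ⊢
    have : (((μ a)⁻¹ : (NC Y K)ˣ) : NC Y K) - 1 =
        -((((μ a)⁻¹ : (NC Y K)ˣ) : NC Y K) * ((μ a : NC Y K) - 1)) := by
      rw [mul_sub, mul_one, Units.inv_mul]; abel
    rw [this]
    exact (OrdGE.mul_left ha).neg

theorem mem_ordSub {G : Type*} [Group G] {ω' : Y → ℕ} {μ : G →* (NC Y K)ˣ} {n : ℕ} {g : G} :
    g ∈ ordSub ω' μ n ↔ OrdGE ω' n ((μ g : NC Y K) - 1) := Iff.rfl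

theorem ordSub_isNSeries {G : Type*} [Group G] (ω' : Y → ℕ) (hω' : ∀ y, 0 < ω' y)
    (μ : G →* (NC Y K)ˣ) (h1 : ∀ g, (μ g : NC Y K) [] = 1) : IsNSeries (ordSub ω' μ) where
  anti m n hmn g hg := OrdGE.mono hmn hg
  one := by
    rw [eq_top_iff]
    intro g _
    rw [mem_ordSub]
    intro w hw
    cases w with
    | nil => simp [h1]
    | cons a w =>
      rw [wt_cons] at hw
      have := hω' a
      omega
  comm m n := by
    rw [Subgroup.commutator_le]
    intro a ha b hb
    rw [mem_ordSub] at ha hb ⊢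
    have : ((μ ⁅a, b⁆ : (NC Y K)ˣ) : NC Y K) - 1 =
        (((μ a : NC Y K) - 1) * ((μ b : NC Y K) - 1) -
          ((μ b : NC Y K) - 1) * ((μ a : NC Y K) - 1)) *
          ((((μ a)⁻¹ : (NC Y K)ˣ) : NC Y K) * (((μ b)⁻¹ : (NC Y K)ˣ) : NC Y K)) := by
      rw [map_commutatorElement, commutatorElement_def]
      have e : ((μ a : NC Y K) - 1) * ((μ b : NC Y K) - 1) -
          ((μ b : NC Y K) - 1) * ((μ a : NC Y K) - 1) =
          (μ a : NC Y K) * (μ b : NC Y K) - (μ b : NC Y K) * (μ a : NC Y K) := by noncomm_ring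
      rw [e, sub_mul]
      have e2 : (μ b : NC Y K) * (μ a : NC Y K) *
          ((((μ a)⁻¹ : (NC Y K)ˣ) : NC Y K) * (((μ b)⁻¹ : (NC Y K)ˣ) : NC Y K)) = 1 := by
        rw [← Units.val_mul, ← Units.val_mul, ← Units.val_mul]
        simp
      rw [e2]
      simp only [Units.val_mul, mul_assoc]
    rw [this]
    refine OrdGE.mul_right ?_
    refine (OrdGE.mul ha hb).sub ?_
    have h := OrdGE.mul hb ha
    rwa [add_comm] at h

end units

theorem ordGE_of_mem_gam {X Y : Type} [DecidableEq Y] {K : Type} [CommRing K] (ω : X → ℕ)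
    (ω' : Y → ℕ) (hω' : ∀ y, 0 < ω' y) (μ : FreeGroup X →* (NC Y K)ˣ)
    (hμ : ∀ x, OrdGE ω' (ω x) ((μ (FreeGroup.of x) : NC Y K) - 1))
    (h1 : ∀ u : (NC Y K)ˣ, u ∈ μ.range → (u : NC Y K) [] = 1) (n : ℕ) (g : FreeGroup X)
    (hg : g ∈ Gam ω n) : OrdGE ω' n ((μ g : NC Y K) - 1) :=
  mem_gam.mp hg _ (ordSub_isNSeries ω' hω' μ (fun g => h1 _ ⟨g, rfl⟩)) hμ

end Pool.Agent.Helper49.MagnusW
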