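import Pool.Agent.Helper49.MagnusGam

set_option autoImplicit false

/-! # Right independence of the iterated brackets `ad_k(y)`; homogeneity -/

namespace Pool.Agent.Helper49.MagnusW

open Pool.Agent.Helper7.Comm
open scoped commutatorElement

section indep

variable {X : Type*} [DecidableEq X] {R : Type*} [CommRing R]

/-- `[y,a,...,a]` (with `k` letters `a`) in the ring of noncommutative series. -/
def adk (a y : X) : ℕ → NC X R
  | 0 => NC.letter y
  | k + 1 => adk a y k * NC.letter a - NC.letter a * adk a y k

omit [DecidableEq X] in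
/-- Iterated left derivative with respect to `a`, as an additive map. -/
def Da (a : X) : ℕ → NC X R →+ NC X R
  | 0 => AddMonoidHom.id _
  | i + 1 => (Da a i).comp
    { toFun := NC.D a
      map_zero' := NC.D_zero a
      map_add' := NC.D_add a }

omit [DecidableEq X] in
@[simp] theorem Da_zero (a : X) (f : NC X R) : Da a 0 f = f := rfl

omit [DecidableEq X] in
theorem Da_succ (a : X) (i : ℕ) (f : NC X R) : Da a (i + 1) f = Da a i (NC.D a f) := rfl

/-- `D x` as an additive map. -/
def Dh (x : X) : NC X R →+ NC X R where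
  toFun := NC.D x
  map_zero' := NC.D_zero x
  map_add' := NC.D_add x

omit [DecidableEq X] in
theorem Dh_apply (x : X) (f : NC X R) : Dh x f = NC.D x f := rfl

omit [DecidableEq X] in
theorem D_mul_of_nil (x : X) {f : NC X R} (hf : f [] = 0) (g : NC X R) :
    NC.D x (f * g) = NC.D x f * g := by
  rw [NC.D_mul, hf, zero_smul, zero_add]

omit [DecidableEq X] in
theorem Da_mul (a : X) (g : NC X R) (i : ℕ) : ∀ f : NC X R, (∀ j < i, (Da a j f) [] = 0) →
    Da a i (f * g) = Da a i f * g := by
  induction i with
  | zero => intro f _; rfl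
  | succ i ih =>
    intro f hf
    have h0 : f [] = 0 := hf 0 (Nat.succ_pos i)
    rw [Da_succ, Da_succ, D_mul_of_nil a h0]
    exact ih _ (fun j hj => hf (j + 1) (by omega))

theorem Da_succ_letter_mul (a : X) (i : ℕ) (f : NC X R) :
    Da a (i + 1) (NC.letter a * f) = Da a i f := by
  rw [Da_succ, D_mul_of_nil a (NC.letter_nil a), NC.D_letter, if_pos rfl, one_mul]

theorem Da_adk_nil {a y : X} (hy : y ≠ a) (k : ℕ) : ∀ i, (Da a i (adk a y k : NC X R)) [] = 0 := by
  induction k with
  | zero =>
    intro i
    cases i with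
    | zero => exact NC.letter_nil y
    | succ i =>
      rw [Da_succ, adk, NC.D_letter, if_neg (Ne.symm hy), map_zero]
      rfl
  | succ k ih =>
    intro i
    rw [adk, map_sub, NC.sub_apply, Da_mul a _ i _ (fun j _ => ih j), NC.mul_nil, ih i, zero_mul]
    cases i with
    | zero => simp [NC.letter_nil]
    | succ i => rw [Da_succ_letter_mul, ih i]; simp

theorem adk_nil {a y : X} (hy : y ≠ a) (k : ℕ) : (adk a y k : NC X R) [] = 0 :=
  Da_adk_nil hy k 0

theorem D_Da_adk {a y : X} (x : X) (hy : y ≠ a) (k : ℕ) :
    (∀ i, k < i → NC.D x (Da a i (adk a y k : NC X R)) = 0) ∧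
      NC.D x (Da a k (adk a y k : NC X R)) = if x = y then NC.CHom ((-1) ^ k) else 0 := by
  induction k with
  | zero =>
    constructor
    · intro i hi
      obtain ⟨i, rfl⟩ : ∃ j, i = j + 1 := ⟨i - 1, by omega⟩
      rw [Da_succ, adk, NC.D_letter, if_neg (Ne.symm hy), map_zero]
      rfl
    · rw [Da_zero, adk, NC.D_letter, pow_zero, map_one]
  | succ k ih =>
    have hstep : ∀ i, k < i + 1 → NC.D x (Da a (i + 1) (adk a y (k + 1) : NC X R)) =
        - NC.D x (Da a i (adk a y k : NC X R)) := by
      intro i hi
      rw [adk, map_sub, NC.D_sub, Da_mul a _ (i + 1) _ (fun j _ => Da_adk_nil hy k j),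
        D_mul_of_nil x (Da_adk_nil hy k (i + 1)), ih.1 (i + 1) hi, zero_mul, zero_sub,
        Da_succ_letter_mul]
    constructor
    · intro i hi
      obtain ⟨i, rfl⟩ : ∃ j, i = j + 1 := ⟨i - 1, by omega⟩
      rw [hstep i (by omega), ih.1 i (by omega), neg_zero]
    · rw [hstep k (by omega), ih.2]
      split_ifs
      · rw [← map_neg]; congr 1; ring
      · simp

/-- Right independence of the series `ad_k(y)`. -/
theorem adk_indep (a : X) {Z : Type*} [Fintype Z] (ζ : Z → X)
    (hζ : Function.Injective ζ) (hne : ∀ z, ζ z ≠ a) (n : ℕ) (A : Z × Fin n → NC X R)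
    (h : ∑ p : Z × Fin n, adk a (ζ p.1) p.2 * A p = 0) : ∀ p, A p = 0 := by
  classical
  have key : ∀ (m : ℕ) (z : Z) (k : Fin n), n - m ≤ k.val → A (z, k) = 0 := by
    intro m
    induction m with
    | zero =>
      intro z k hk
      have := k.isLt
      omega
    | succ m ih =>
      intro z k hk
      by_cases hk' : n - m ≤ k.val
      · exact ih z k hk'
      have h1 : Dh (ζ z) (Da a k.val (∑ p : Z × Fin n, adk a (ζ p.1) p.2 * A p)) = 0 := by
        rw [h, map_zero, map_zero]
      rw [map_sum, map_sum, Finset.sum_eq_single (z, k)] at h1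
      · rw [Dh_apply, Da_mul a _ _ _ (fun j _ => Da_adk_nil (hne _) _ j),
          D_mul_of_nil _ (Da_adk_nil (hne _) _ _), (D_Da_adk (ζ z) (hne _) k.val).2,
          if_pos rfl] at h1
        have h2 : NC.CHom ((-1 : R) ^ k.val) * (NC.CHom ((-1 : R) ^ k.val) * A (z, k)) = 0 := by
          rw [h1, mul_zero]
        rw [← mul_assoc, ← map_mul, ← mul_pow] at h2
        simpa using h2
      · rintro ⟨z', k'⟩ _ hp
        rw [Dh_apply, Da_mul a _ _ _ (fun j _ => Da_adk_nil (hne _) _ j),
          D_mul_of_nil _ (Da_adk_nil (hne _) _ _)]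
        rcases lt_trichotomy k'.val k.val with hlt | heq | hgt
        · rw [(D_Da_adk (ζ z) (hne _) k'.val).1 _ hlt, zero_mul]
        · have hkk : k' = k := Fin.ext heq
          subst hkk
          have hz : ζ z ≠ ζ z' := fun he => hp (by rw [hζ he])
          rw [(D_Da_adk (ζ z) (hne _) k'.val).2, if_neg hz, zero_mul]
        · rw [ih z' k' (by omega), mul_zero]
      · intro hp; exact absurd (Finset.mem_univ _) hp
  rintro ⟨z, k⟩
  exact key n z k (by omega)

end indep

/-! ## Homogeneous series -/

section homog

variable {X ι : Type*} {R : Type*}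

/-- All coefficients in weights other than `n` vanish. -/
def Homog [Zero R] (ω : X → ℕ) (n : ℕ) (f : NC X R) : Prop :=
  ∀ w : List X, wt ω w ≠ n → f w = 0

theorem Homog.ordGE [Zero R] {ω : X → ℕ} {n : ℕ} {f : NC X R} (hf : Homog ω n f) :
    OrdGE ω n f := fun w hw => hf w (by omega)

theorem Homog.sub [AddCommGroup R] {ω : X → ℕ} {n : ℕ} {f g : NC X R} (hf : Homog ω n f)
    (hg : Homog ω n g) : Homog ω n (f - g) := fun w hw => by simp [hf w hw, hg w hw]

theorem Homog.mul [Ring R] {ω : X → ℕ} {m n : ℕ} {f g : NC X R} (hf : Homog ω m f)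
    (hg : Homog ω n g) : Homog ω (m + n) (f * g) := by
  intro w hw
  rw [NC.mul_apply]
  refine Finset.sum_eq_zero fun i _ => ?_
  have h1 : wt ω (w.take i) + wt ω (w.drop i) = wt ω w := by
    rw [← wt_append, List.take_append_drop]
  by_cases h2 : wt ω (w.take i) = m
  · rw [hg (w.drop i) (by omega), mul_zero]
  · rw [hf _ h2, zero_mul]

theorem homog_letter [DecidableEq X] [Ring R] (ω : X → ℕ) (a : X) :
    Homog ω (ω a) (NC.letter a : NC X R) := by
  intro w hw
  simp only [NC.letter, NC.mk_apply]
  rw [if_neg]
  rintro rfl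
  exact hw (by simp [wt])

theorem homog_adk [DecidableEq X] [CommRing R] (ω : X → ℕ) (a y : X) (k : ℕ) :
    Homog ω (ω y + k * ω a) (adk a y k : NC X R) := by
  induction k with
  | zero =>
    rw [zero_mul, add_zero]
    exact homog_letter (R := R) ω y
  | succ k ih =>
    rw [adk]
    refine Homog.sub ?_ ?_
    · have := ih.mul (homog_letter (R := R) ω a)
      rwa [show ω y + k * ω a + ω a = ω y + (k + 1) * ω a by ring] at this
    · have := (homog_letter (R := R) ω a).mul ih
      rwa [show ω a + (ω y + k * ω a) = ω y + (k + 1) * ω a by ring] at this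

theorem Homog.subst [CommRing R] [Fintype ι] {ω : X → ℕ} {ω' : ι → ℕ} {h : ι → NC X R}
    (h0 : ∀ k, h k [] = 0) (hh : ∀ k, Homog ω (ω' k) (h k)) (n : ℕ) (f : NC ι R)
    (hf : Homog ω' n f) : Homog ω n (NC.subst h f) := by
  have key : ∀ (N : ℕ) (n : ℕ) (f : NC ι R), Homog ω' n f → ∀ w : List X, w.length ≤ N →
      wt ω w ≠ n → NC.subst h f w = 0 := by
    intro N
    induction N with
    | zero =>
      intro n f hf w hw hn
      obtain rfl : w = [] := by
        cases w
        · rfl
        · simp at hw
      rw [NC.subst_nil]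
      exact hf [] (by rw [wt_nil] at hn ⊢; omega)
    | succ N ih =>
      intro n f hf w hw hn
      rw [NC.subst_eq h h0, NC.add_apply, NC.sum_apply]
      have h1 : (NC.C (f []) : NC X R) w = 0 := by
        cases w with
        | nil => exact hf [] (by rw [wt_nil] at hn ⊢; omega)
        | cons a w => rfl
      rw [h1, zero_add]
      refine Finset.sum_eq_zero fun k _ => ?_
      rw [NC.mul_apply]
      refine Finset.sum_eq_zero fun i hi => ?_
      have h2 : wt ω (w.take i) + wt ω (w.drop i) = wt ω w := by
        rw [← wt_append, List.take_append_drop]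
      rcases Nat.eq_zero_or_pos i with rfl | hi0
      · simp [h0]
      by_cases h3 : wt ω (w.take i) = ω' k
      · rcases Nat.eq_zero_or_pos w.length with hw0 | hw0
        · have : w = [] := List.length_eq_zero_iff.mp hw0
          subst this
          simp [h0]
        · by_cases hkn : ω' k ≤ n
          · have hD : Homog ω' (n - ω' k) (NC.D k f) := by
              intro v hv
              refine hf _ ?_
              rw [wt_cons]
              omega
            rw [ih (n - ω' k) _ hD _ (by simp; omega) (by omega), mul_zero]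
          · have hD : NC.D k f = 0 := by
              ext v
              refine hf _ ?_
              rw [wt_cons]
              omega
            rw [hD, NC.subst_zero h h0]
            simp
      · rw [hh k _ h3, zero_mul]
  intro w hw
  exact key _ n f hf w le_rfl hw

end homog

end Pool.Agent.Helper49.MagnusW
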