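import Pool.Agent.Helper49.MagnusIndep

set_option autoImplicit false

/-! # The weighted Magnus theorem (Lazard elimination) -/

namespace Pool.Agent.Helper49.MagnusW

open Pool.Agent.Helper7.Comm
open scoped commutatorElement

/-- Iterated commutators `c_0 = y`, `a⁻¹ c_k a = c_k c_{k+1}`. -/
def cc {G : Type*} [Group G] (a y : G) : ℕ → G
  | 0 => y
  | k + 1 => ⁅(cc a y k)⁻¹, a⁻¹⁆

theorem cc_conj {G : Type*} [Group G] (a y : G) (k : ℕ) :
    a⁻¹ * cc a y k * a = cc a y k * cc a y (k + 1) := by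
  rw [cc, commutatorElement_def]; group

theorem cc_conj' {G : Type*} [Group G] (a y : G) (k : ℕ) :
    a * cc a y k * a⁻¹ = cc a y k * (a * cc a y (k + 1) * a⁻¹)⁻¹ := by
  rw [cc, commutatorElement_def]; group

theorem cc_mem_gam {X : Type} (ω : X → ℕ) (a y : X) (k : ℕ) :
    cc (FreeGroup.of a) (FreeGroup.of y) k ∈ Gam ω (ω y + k * ω a) := by
  induction k with
  | zero => rw [zero_mul, add_zero]; exact of_mem_gam ω y
  | succ k ih =>
    have h := (gam_isNSeries ω).comm (ω y + k * ω a) (ω a)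
      (Subgroup.commutator_mem_commutator (inv_mem ih) (inv_mem (of_mem_gam ω a)))
    rwa [show ω y + k * ω a + ω a = ω y + (k + 1) * ω a by ring] at h

section mu

variable {X : Type} [DecidableEq X] {ω : X → ℕ} (hω : ∀ x, 0 < ω x)
  {μ : FreeGroup X →* (NC X ℚ)ˣ}
  (hμ : ∀ x, OrdGE ω (ω x + 1) ((μ (FreeGroup.of x) : NC X ℚ) - 1 - NC.letter x))

include hμ in
theorem mu_nil (g : FreeGroup X) : (μ g : NC X ℚ) [] = 1 := by
  have hx : ∀ x, (μ (FreeGroup.of x) : NC X ℚ) [] = 1 := by
    intro x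
    have := hμ x [] (by rw [wt_nil]; omega)
    simpa [NC.letter_nil, sub_eq_zero] using this
  induction g using FreeGroup.induction_on with
  | C1 => simp
  | of x => exact hx x
  | inv_of x h =>
    have h2 : (μ (FreeGroup.of x) : NC X ℚ) * ((μ (FreeGroup.of x))⁻¹ : (NC X ℚ)ˣ) = 1 :=
      Units.mul_inv _
    have h3 := congrArg (fun f : NC X ℚ => f []) h2
    simp only [NC.mul_nil, hx, one_mul, NC.one_nil] at h3
    rw [map_inv]
    exact h3
  | mul x y h1 h2 => rw [map_mul, Units.val_mul, NC.mul_nil, h1, h2, one_mul]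

include hμ in
theorem mu_of_ordGE (x : X) : OrdGE ω (ω x) ((μ (FreeGroup.of x) : NC X ℚ) - 1) := by
  have h := ((hμ x).mono (Nat.le_succ _)).add (homog_letter (R := ℚ) ω x).ordGE
  simpa using h

include hω hμ in
theorem ordGE_of_mem_gam' {n : ℕ} {g : FreeGroup X} (hg : g ∈ Gam ω n) :
    OrdGE ω n ((μ g : NC X ℚ) - 1) :=
  ordGE_of_mem_gam ω ω hω μ (mu_of_ordGE hμ)
    (by rintro _ ⟨g, rfl⟩; exact mu_nil hμ g) n g hg

include hω hμ in
/-- The leading term of `μ(c_k) - 1` is `ad_k(y)`. -/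
theorem mu_cc (a y : X) (k : ℕ) :
    OrdGE ω (ω y + k * ω a + 1)
      ((μ (cc (FreeGroup.of a) (FreeGroup.of y) k) : NC X ℚ) - 1 - adk a y k) := by
  induction k with
  | zero =>
    rw [zero_mul, add_zero]
    exact hμ y
  | succ k ih =>
    set c : (NC X ℚ)ˣ := μ (cc (FreeGroup.of a) (FreeGroup.of y) k) with hc
    set A : (NC X ℚ)ˣ := μ (FreeGroup.of a) with hA
    set h : NC X ℚ := (c : NC X ℚ) - 1 with hh
    set α : NC X ℚ := (A : NC X ℚ) - 1 with hα
    set u : NC X ℚ := ((c⁻¹ : (NC X ℚ)ˣ) : NC X ℚ) * ((A⁻¹ : (NC X ℚ)ˣ) : NC X ℚ) with hu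
    have e1 : ((μ (cc (FreeGroup.of a) (FreeGroup.of y) (k + 1)) : (NC X ℚ)ˣ) : NC X ℚ) - 1 =
        (u - 1) * (h * α - α * h) + (h * α - α * h) := by
      have e2 : h * α - α * h = (c : NC X ℚ) * (A : NC X ℚ) - (A : NC X ℚ) * (c : NC X ℚ) := by
        rw [hh, hα]; noncomm_ring
      have e3 : u * ((A : NC X ℚ) * (c : NC X ℚ)) = 1 := by
        rw [hu, ← Units.val_mul, ← Units.val_mul, ← Units.val_mul]
        simp
      have e4 : (u - 1) * (h * α - α * h) + (h * α - α * h) = u * (h * α - α * h) := by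
        noncomm_ring
      rw [e4, e2, mul_sub, e3, cc, map_commutatorElement, commutatorElement_def]
      simp only [map_inv, inv_inv, Units.val_mul, ← hc, ← hA, hu, mul_assoc]
    have oh : OrdGE ω (ω y + k * ω a) h := by
      have := (ih.mono (Nat.le_succ _)).add (homog_adk (R := ℚ) ω a y k).ordGE
      simpa using this
    have oα : OrdGE ω (ω a) α := mu_of_ordGE hμ a
    have ou : OrdGE ω 1 (u - 1) := by
      intro w hw
      cases w with
      | nil =>
        have : (u : NC X ℚ) [] = 1 := by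
          rw [hu, NC.mul_nil, hc, hA, ← map_inv, ← map_inv, mu_nil hμ, mu_nil hμ, one_mul]
        simp [this]
      | cons b w =>
        rw [wt_cons] at hw
        have := hω b
        omega
    have oW : OrdGE ω (ω y + (k + 1) * ω a) (h * α - α * h) := by
      refine OrdGE.sub ?_ ?_
      · have := oh.mul oα
        rwa [show ω y + k * ω a + ω a = ω y + (k + 1) * ω a by ring] at this
      · have := oα.mul oh
        rwa [show ω a + (ω y + k * ω a) = ω y + (k + 1) * ω a by ring] at this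
    have t1 : OrdGE ω (ω y + (k + 1) * ω a + 1) ((u - 1) * (h * α - α * h)) := by
      have := ou.mul oW
      rwa [show 1 + (ω y + (k + 1) * ω a) = ω y + (k + 1) * ω a + 1 by ring] at this
    have oα2 : OrdGE ω (ω a + 1) (α - NC.letter a) := hμ a
    have oad := (homog_adk (R := ℚ) ω a y k).ordGE
    have oa := (homog_letter (R := ℚ) ω a).ordGE
    have t2 : OrdGE ω (ω y + (k + 1) * ω a + 1) ((h * α - α * h) - adk a y (k + 1)) := by
      have e5 : (h * α - α * h) - adk a y (k + 1) =
          ((h - adk a y k) * α + adk a y k * (α - NC.letter a)) -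
            ((α - NC.letter a) * h + NC.letter a * (h - adk a y k)) := by
        rw [adk]; noncomm_ring
      rw [e5]
      refine OrdGE.sub (OrdGE.add ?_ ?_) (OrdGE.add ?_ ?_)
      · have := ih.mul oα
        rwa [show ω y + k * ω a + 1 + ω a = ω y + (k + 1) * ω a + 1 by ring] at this
      · have := oad.mul oα2
        rwa [show ω y + k * ω a + (ω a + 1) = ω y + (k + 1) * ω a + 1 by ring] at this
      · have := oα2.mul oh
        rwa [show ω a + 1 + (ω y + k * ω a) = ω y + (k + 1) * ω a + 1 by ring] at this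
      · have := oa.mul ih
        rwa [show ω a + (ω y + k * ω a + 1) = ω y + (k + 1) * ω a + 1 by ring] at this
    rw [e1, add_sub_assoc]
    exact t1.add t2

include hω hμ in
theorem mu_cc_ordGE (a y : X) (k : ℕ) :
    OrdGE ω (ω y + k * ω a)
      ((μ (cc (FreeGroup.of a) (FreeGroup.of y) k) : NC X ℚ) - 1) := by
  have := ((mu_cc hω hμ a y k).mono (Nat.le_succ _)).add (homog_adk (R := ℚ) ω a y k).ordGE
  simpa using this

omit [DecidableEq X] in
/-- The coefficient of the letter `a`. -/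
theorem coeff_letter_mul {a : X} {u v : NC X ℚ} (hu : u [] = 1) (hv : v [] = 1) :
    (u * v) [a] = u [a] + v [a] := by
  rw [NC.mul_cons, NC.mul_nil, hu, hv, NC.D_apply]; ring

/-- The coefficient of `[a]` as a homomorphism. -/
def chi (a : X) : FreeGroup X →* Multiplicative ℚ where
  toFun g := Multiplicative.ofAdd ((μ g : NC X ℚ) [a])
  map_one' := by simp
  map_mul' g h := by
    rw [map_mul, Units.val_mul, coeff_letter_mul (mu_nil hμ g) (mu_nil hμ h)]
    rfl

theorem chi_apply (a : X) (g : FreeGroup X) :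
    chi hμ a g = Multiplicative.ofAdd ((μ g : NC X ℚ) [a]) := rfl

end mu

/-! ## The elimination -/

/-- The elimination homomorphism. -/
def elim {X : Type} (a : X) (n : ℕ) :
    FreeGroup ({y : X // y ≠ a} × Fin n) →* FreeGroup X :=
  FreeGroup.lift fun p => cc (FreeGroup.of a) (FreeGroup.of p.1.1) p.2.1

theorem elim_of {X : Type} (a : X) (n : ℕ) (p : {y : X // y ≠ a} × Fin n) :
    elim a n (FreeGroup.of p) = cc (FreeGroup.of a) (FreeGroup.of p.1.1) p.2.1 := by
  simp [elim]

theorem decomp {X : Type} (ω : X → ℕ) (a : X) (ha : 0 < ω a) (n : ℕ)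
    (g : FreeGroup X) : ∃ (v : FreeGroup ({y : X // y ≠ a} × Fin n)) (z : FreeGroup X) (e : ℤ),
      z ∈ Gam ω n ∧ g = elim a n v * z * (FreeGroup.of a) ^ e := by
  classical
  set N := Gam ω n with hN
  have : N.Normal := IsNSeries.normal (gam_isNSeries ω) n
  set K : Subgroup (FreeGroup X) := (elim a n).range ⊔ N with hK
  have hmem : ∀ (y : X), y ≠ a → ∀ k : ℕ, cc (FreeGroup.of a) (FreeGroup.of y) k ∈ K := by
    intro y hy k
    by_cases hk : k < n
    · refine Subgroup.mem_sup_left ⟨FreeGroup.of (⟨y, hy⟩, ⟨k, hk⟩), ?_⟩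
      rw [elim_of]
    · refine Subgroup.mem_sup_right ?_
      refine (gam_isNSeries ω).anti ?_ (cc_mem_gam ω a y k)
      nlinarith
  have hconj : ∀ (y : X), y ≠ a → ∀ m k : ℕ, n ≤ k + m →
      FreeGroup.of a * cc (FreeGroup.of a) (FreeGroup.of y) k * (FreeGroup.of a)⁻¹ ∈ K := by
    intro y hy m
    induction m with
    | zero =>
      intro k hk
      refine Subgroup.mem_sup_right ?_
      refine Subgroup.Normal.conj_mem inferInstance _ ?_ _
      refine (gam_isNSeries ω).anti ?_ (cc_mem_gam ω a y k)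
      nlinarith
    | succ m ih =>
      intro k hk
      rw [cc_conj']
      exact mul_mem (hmem y hy k) (inv_mem (ih (k + 1) (by omega)))
  have hKa : ∀ x : FreeGroup X, (∀ y : X, y ≠ a → ∀ k : ℕ,
      x * cc (FreeGroup.of a) (FreeGroup.of y) k * x⁻¹ ∈ K) → ∀ h ∈ K, x * h * x⁻¹ ∈ K := by
    intro x hx
    have hr : (elim a n).range ≤ K.comap (MulAut.conj x).toMonoidHom := by
      rw [elim, FreeGroup.range_lift_eq_closure, Subgroup.closure_le]
      rintro _ ⟨p, rfl⟩
      exact hx p.1.1 p.1.2 p.2.1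
    have : K ≤ K.comap (MulAut.conj x).toMonoidHom := by
      refine sup_le hr ?_
      · intro z hz
        exact Subgroup.mem_sup_right (Subgroup.Normal.conj_mem inferInstance _ hz _)
    intro h hh
    exact this hh
  have h1 : ∀ h ∈ K, (FreeGroup.of a) * h * (FreeGroup.of a)⁻¹ ∈ K :=
    hKa _ (fun y hy k => hconj y hy n k (by omega))
  have h2 : ∀ h ∈ K, (FreeGroup.of a)⁻¹ * h * (FreeGroup.of a)⁻¹⁻¹ ∈ K := by
    refine hKa _ (fun y hy k => ?_)
    rw [inv_inv, cc_conj]
    exact mul_mem (hmem y hy k) (hmem y hy (k + 1))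
  have hKn : K.Normal := by
    have hn : Subgroup.normalizer (K : Set (FreeGroup X)) = ⊤ := by
      rw [eq_top_iff, ← FreeGroup.closure_range_of, Subgroup.closure_le]
      rintro _ ⟨x, rfl⟩
      by_cases hx : x = a
      · subst hx
        change _ ∈ Subgroup.normalizer (K : Set (FreeGroup X))
        rw [Subgroup.mem_normalizer_iff]
        intro h
        refine ⟨h1 h, fun hh => ?_⟩
        have := h2 _ hh
        simpa [mul_assoc] using this
      · have hxK : FreeGroup.of x ∈ K := hmem x hx 0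
        exact Subgroup.le_normalizer hxK
    exact Subgroup.normalizer_eq_top_iff.mp hn
  have htop : K ⊔ Subgroup.zpowers (FreeGroup.of a) = ⊤ := by
    rw [eq_top_iff, ← FreeGroup.closure_range_of, Subgroup.closure_le]
    rintro _ ⟨x, rfl⟩
    by_cases hx : x = a
    · subst hx
      exact Subgroup.mem_sup_right (Subgroup.mem_zpowers _)
    · exact Subgroup.mem_sup_left (hmem x hx 0)
  have hg : g ∈ K ⊔ Subgroup.zpowers (FreeGroup.of a) := by rw [htop]; trivial
  obtain ⟨k, hk, t, ⟨e, rfl⟩, rfl⟩ := Subgroup.mem_sup_of_normal_left.mp hg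
  obtain ⟨_, ⟨v, rfl⟩, z, hz, rfl⟩ := Subgroup.mem_sup_of_normal_right.mp hk
  exact ⟨v, z, e, hz, rfl⟩

end Pool.Agent.Helper49.MagnusW
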