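import Pool.Agent.Helper49.SphSys

set_option autoImplicit false
set_option linter.unusedSectionVars false

namespace BallQI

universe u

variable {E : Type*} [NormedAddCommGroup E] [InnerProductSpace ℝ E]

namespace Sys

variable {V : Type u}

/-- a node of the decomposition -/
structure Node (S : Sys V E) (k : ℕ) (z₀ x : V) : Prop where
  hx : S.dep x + 1 = k
  hin : S.In z₀ x
  hz : k < S.dep z₀

def Qs (S : Sys V E) (k : ℕ) (z₀ z : V) : Prop :=
  S.CR k z₀ z ∧ ∀ w, S.In z w → S.dep w + 1 ≤ k ∨ S.dep z ≤ S.dep w + 1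

def Ys (S : Sys V E) (k : ℕ) (z₀ y : V) : Prop := S.dep y = k ∧ ∃ f, S.CR k z₀ f ∧ ¬ S.Ext f y

def Hs (S : Sys V E) (k : ℕ) (z₀ x u : V) : Prop :=
  (S.dep u < k ∧ (u = x ∨ S.G.Adj u x)) ∨ (S.dep u + 1 = k ∧ ∃ y, S.Ys k z₀ y ∧ S.G.Adj u y)

def Ps (S : Sys V E) (k : ℕ) (z₀ x u : V) : Prop := S.Qs k z₀ u ∨ S.Ys k z₀ u ∨ S.Hs k z₀ x u

def compl (S : Sys V E) (k : ℕ) (z₀ u : V) : Prop := S.dep u < k ∧ S.In z₀ u

variable {S : Sys V E} {k : ℕ} {z₀ x : V}

lemma adj_gmeet (comp : V → Prop) {u v : V} (h : S.G.Adj u v) : gmeet comp S.c S.r u v := by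
  obtain ⟨_, h1, h2, h3⟩ := h
  unfold gmeet
  by_cases hu : comp u <;> by_cases hv : comp v
  · exact Or.inl ⟨hu, hv⟩
  · exact Or.inr (Or.inl ⟨hu, hv, h1⟩)
  · exact Or.inr (Or.inr (Or.inl ⟨hu, hv, h2⟩))
  · exact Or.inr (Or.inr (Or.inr ⟨hu, hv, h3⟩))

lemma Node.Q_dep (N : S.Node k z₀ x) {z : V} (h : S.Qs k z₀ z) : k < S.dep z := h.1.dep N.hz

lemma Hs.dep_lt {u : V} (h : S.Hs k z₀ x u) : S.dep u < k := by
  rcases h with h | h
  · exact h.1
  · omega

/-- a vertex `y` of `Y` is adjacent to or inside the wall -/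
lemma Node.Y_near (N : S.Node k z₀ x) {y : V} (h : S.Ys k z₀ y) : S.G.Adj y x ∨ S.In y x := by
  obtain ⟨hy, f, hf, hfy⟩ := h
  have hx := N.hx
  exact wall_near (by omega) (hf.in_of_in (by omega) N.hin) hfy

lemma Node.Y_within (N : S.Node k z₀ x) {y : V} (h : S.Ys k z₀ y) : Within S.G 3 y x := by
  have hx := N.hx
  rcases N.Y_near h with h1 | h1
  · exact (Within.of_adj h1).mono (by norm_num)
  · exact h1.within (by have := h.1; omega)

lemma Node.H_within (N : S.Node k z₀ x) {u : V} (h : S.Hs k z₀ x u) : Within S.G 4 u x := by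
  rcases h with ⟨_, rfl | h⟩ | ⟨_, y, hy, h⟩
  · exact Within.refl _ _ _
  · exact (Within.of_adj h).mono (by norm_num)
  · exact ((Within.of_adj h).trans (N.Y_within hy)).mono (by norm_num)

lemma Node.QY_nested (N : S.Node k z₀ x) {u v : V} (hu : S.Qs k z₀ u ∨ S.Ys k z₀ u)
    (hv : S.Qs k z₀ v ∨ S.Ys k z₀ v) (h : S.In u v) : Within S.G 3 u v := by
  have hvk : k ≤ S.dep v := by
    rcases hv with hv | hv
    · exact (N.Q_dep hv).le
    · exact hv.1.ge
  refine h.within ?_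
  rcases hu with hu | hu
  · rcases hu.2 v h with h1 | h1
    · omega
    · exact h1
  · have := hu.1
    omega

lemma Node.QY_compl (N : S.Node k z₀ x) {u : V} (hu : S.Qs k z₀ u ∨ S.Ys k z₀ u) :
    ¬ S.compl k z₀ u := by
  rintro ⟨h1, _⟩
  rcases hu with hu | hu
  · have := N.Q_dep hu
    omega
  · have := hu.1
    omega

lemma Node.QY_meet (N : S.Node k z₀ x) {u v : V} (hu : S.Qs k z₀ u ∨ S.Ys k z₀ u)
    (hv : S.Qs k z₀ v ∨ S.Ys k z₀ v) (h : gmeet (S.compl k z₀) S.c S.r u v) : Within S.G 3 u v := by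
  have hcu := N.QY_compl hu
  have hcv := N.QY_compl hv
  have hd : dist (S.c u) (S.c v) ≤ S.r u + S.r v := by
    rcases h with h1 | h1 | h1 | h1
    · exact absurd h1.1 hcu
    · exact absurd h1.1 hcu
    · exact absurd h1.2.1 hcv
    · exact h1.2.2
  by_cases huv : u = v
  · exact Within.of_eq huv
  rcases tri (S := S) huv with h1 | h1 | h1 | h1
  · exact (Within.of_adj h1).mono (by norm_num)
  · exact N.QY_nested hu hv h1
  · exact (N.QY_nested hv hu h1).symm
  · unfold Ext at h1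
    linarith

lemma Node.QYH_meet (N : S.Node k z₀ x) {u v : V} (hu : S.Qs k z₀ u ∨ S.Ys k z₀ u)
    (hv : S.Hs k z₀ x v) (h : gmeet (S.compl k z₀) S.c S.r u v) : S.G.Adj u v := by
  have hcu := N.QY_compl hu
  have hdv := hv.dep_lt
  have hdu : k ≤ S.dep u := by
    rcases hu with hu | hu
    · exact (N.Q_dep hu).le
    · exact hu.1.ge
  have hne : u ≠ v := by
    rintro rfl
    omega
  have hvu : ¬ S.In v u := fun h' => by
    have := h'.dep_le
    omega
  by_cases hcv : S.In z₀ v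
  · -- `v` is a complement
    have hnin : ¬ S.In u v := by
      have : S.r v ≤ dist (S.c u) (S.c v) + S.r u := by
        rcases h with h1 | h1 | h1 | h1
        · exact absurd h1.1 hcu
        · exact absurd h1.1 hcu
        · exact h1.2.2
        · exact absurd ⟨hdv, hcv⟩ h1.2.1
      unfold In
      linarith
    rcases hu with hu | hu
    · exact absurd (hu.1.in_of_in hdv hcv) hnin
    · obtain ⟨hy, f, hf, hfy⟩ := hu
      rcases wall_near (by omega) (hf.in_of_in hdv hcv) hfy with h1 | h1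
      · exact h1
      · exact absurd h1 hnin
  · have hd : ¬ S.Ext u v := by
      have : dist (S.c u) (S.c v) ≤ S.r u + S.r v := by
        rcases h with h1 | h1 | h1 | h1
        · exact absurd h1.1 hcu
        · exact absurd h1.1 hcu
        · exact absurd h1.2.1.2 hcv
        · exact h1.2.2
      unfold Ext
      linarith
    rcases hu with hu | hu
    · have h1 : ¬ S.In u v := fun h' => hcv ((hu.1.in_iff hdv).2 h')
      rcases tri (S := S) hne with h2 | h2 | h2 | h2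
      · exact h2
      · exact absurd h2 h1
      · exact absurd h2 hvu
      · exact absurd h2 hd
    · obtain ⟨hy, f, hf, hfy⟩ := hu
      have hfk := hf.dep N.hz
      have hfv : ¬ S.In f v := fun h' => hcv ((hf.in_iff hdv).2 h')
      have h1 : ¬ S.In u v := by
        intro huv
        have hfu : f ≠ u := by
          rintro rfl
          omega
        rcases tri (S := S) hfu with h2 | h2 | h2 | h2
        · rcases huv.step h2.symm with h3 | h3
          · exact hfv h3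
          · have := dep_adj' h3
            omega
        · exact hfv (h2.trans huv)
        · have := h2.dep_le
          omega
        · exact hfy h2
      rcases tri (S := S) hne with h2 | h2 | h2 | h2
      · exact h2
      · exact absurd h2 h1
      · exact absurd h2 hvu
      · exact absurd h2 hd

lemma Node.meet_within (N : S.Node k z₀ x) {u v : V} (hu : S.Ps k z₀ x u) (hv : S.Ps k z₀ x v)
    (h : gmeet (S.compl k z₀) S.c S.r u v) : Within S.G 8 u v := by
  unfold Ps at hu hv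
  rw [← or_assoc] at hu hv
  rcases hu with hu | hu <;> rcases hv with hv | hv
  · exact (N.QY_meet hu hv h).mono (by norm_num)
  · exact (Within.of_adj (N.QYH_meet hu hv h)).mono (by norm_num)
  · exact (Within.of_adj (N.QYH_meet hv hu (gmeet_symm h)).symm).mono (by norm_num)
  · exact ((N.H_within hu).trans (N.H_within hv).symm)

/-- the graph of generalised balls of a node -/
def gg (S : Sys V E) (k : ℕ) (z₀ x : V) : SimpleGraph {u // S.Ps k z₀ x u} :=
  ggraph (fun u => S.compl k z₀ u.1) (fun u => S.c u.1) (fun u => S.r u.1)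

lemma gg_adj {u v : {u // S.Ps k z₀ x u}} (h : S.G.Adj u.1 v.1) : (S.gg k z₀ x).Adj u v :=
  ⟨fun h' => h.ne (congrArg Subtype.val h'), adj_gmeet (S.compl k z₀) h⟩

lemma Node.gg_within (N : S.Node k z₀ x) {u v : {u // S.Ps k z₀ x u}} {n : ℕ}
    (h : Within (S.gg k z₀ x) n u v) : Within S.G (8 * n) u.1 v.1 :=
  Within.map_lip (H := S.G) (K := 8) Subtype.val
    (fun (a b : {u // S.Ps k z₀ x u}) (hab : (S.gg k z₀ x).Adj a b) =>
      N.meet_within a.2 b.2 hab.2) h

lemma Node.xP (N : S.Node k z₀ x) : S.Ps k z₀ x x :=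
  Or.inr (Or.inr (Or.inl ⟨by have := N.hx; omega, Or.inl rfl⟩))

lemma Node.x_compl (N : S.Node k z₀ x) : S.compl k z₀ x := ⟨by have := N.hx; omega, N.hin⟩

lemma Node.Y_gg (N : S.Node k z₀ x) {y : V} (hy : S.Ys k z₀ y) :
    Within (S.gg k z₀ x) 3 ⟨y, Or.inr (Or.inl hy)⟩ ⟨x, N.xP⟩ := by
  have hx := N.hx
  have hyk := hy.1
  rcases wall_path (by omega) (N.Y_near hy) with h | ⟨p, h1, h2, h3⟩ | ⟨p, q, h1, h2, h3, h4, h5⟩
  · exact (Within.of_adj (gg_adj h)).mono (by norm_num)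
  · have hp : S.Ps k z₀ x p := Or.inr (Or.inr (Or.inr ⟨by omega, y, hy, h1.symm⟩))
    exact ((Within.of_adj (gg_adj (v := ⟨p, hp⟩) h1)).trans
      (Within.of_adj (gg_adj h3))).mono (by norm_num)
  · have hp : S.Ps k z₀ x p := Or.inr (Or.inr (Or.inr ⟨by omega, y, hy, h1.symm⟩))
    have hq : S.Ps k z₀ x q := Or.inr (Or.inr (Or.inl ⟨by omega, Or.inr h5⟩))
    exact ((Within.of_adj (gg_adj (v := ⟨p, hp⟩) h1)).trans
      (Within.of_adj (gg_adj (v := ⟨q, hq⟩) h3))).trans (Within.of_adj (gg_adj h5))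

lemma Node.H_gg (N : S.Node k z₀ x) {u : V} (hu : S.Hs k z₀ x u) :
    Within (S.gg k z₀ x) 4 ⟨u, Or.inr (Or.inr hu)⟩ ⟨x, N.xP⟩ := by
  rcases hu with ⟨h1, rfl | h⟩ | ⟨h1, y, hy, h⟩
  · exact Within.refl _ _ _
  · exact (Within.of_adj (gg_adj h)).mono (by norm_num)
  · exact ((Within.of_adj (gg_adj (v := ⟨y, Or.inr (Or.inl hy)⟩) h)).trans (N.Y_gg hy)).mono
      (by norm_num)

/-- vertices of lowest depth in the component -/
lemma top_Q {z : V} (hz : S.CR k z₀ z) (hd : S.dep z = k + 1) :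
    S.Qs k z₀ z := ⟨hz, fun w _ => by omega⟩

lemma Node.top_gg (N : S.Node k z₀ x) {z : V} (hz : S.CR k z₀ z) (hd : S.dep z = k + 1) :
    Within (S.gg k z₀ x) 4 ⟨z, Or.inl (top_Q hz hd)⟩ ⟨x, N.xP⟩ := by
  have hne : z ≠ S.o := by
    rintro rfl
    rw [dep_root] at hd
    omega
  obtain ⟨y, hzy, hy⟩ := exists_pred (S := S) hne
  have hyY : S.Ys k z₀ y := ⟨by omega, z, hz, not_ext_of_adj hzy⟩
  exact ((Within.of_adj (gg_adj (v := ⟨y, Or.inr (Or.inl hyY)⟩) hzy)).trans (N.Y_gg hyY)).mono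
    (by norm_num)

/-- going down from a vertex of `Q` -/
lemma Qs.down {y p : V} (hy : S.Qs k z₀ y) (hyp : S.G.Adj y p) (hd : S.dep p + 1 = S.dep y)
    (hp : k < S.dep p) : S.Qs k z₀ p := by
  refine ⟨hy.1.trans (CR.of_adj hyp (by omega) hp), fun w hw => ?_⟩
  rcases hw.step hyp.symm with h1 | h1
  · rcases hy.2 w h1 with h2 | h2
    · exact Or.inl h2
    · right; omega
  · have := dep_adj' h1
    right; omega

/-- possible levels of walls separating `z` -/
def Wl (S : Sys V E) (k : ℕ) (z : V) (j : ℕ) : Prop :=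
  k < j ∧ j < S.dep z ∧ ∃ w, S.dep w + 1 = j ∧ S.In z w

lemma Qs.not_Wl {z : V} (h : S.Qs k z₀ z) (j : ℕ) : ¬ S.Wl k z j := by
  rintro ⟨h1, h2, w, h3, h4⟩
  rcases h.2 w h4 with h5 | h5 <;> omega

lemma exists_Wl {z : V} (h : S.CR k z₀ z) (h' : ¬ S.Qs k z₀ z) : ∃ j, S.Wl k z j := by
  by_contra hcon
  push Not at hcon
  apply h'
  refine ⟨h, fun w hw => ?_⟩
  by_contra h2
  push Not at h2
  exact hcon (S.dep w + 1) ⟨h2.1, h2.2, w, rfl, hw⟩

lemma Wl_iff {z z' : V} {j i : ℕ} (hz : j < S.dep z) (h : S.CR j z z') (hi : i ≤ j) :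
    S.Wl k z i ↔ S.Wl k z' i := by
  have hz' := h.dep hz
  constructor
  · rintro ⟨h1, h2, w, h3, h4⟩
    exact ⟨h1, by omega, w, h3, h.in_of_in (by omega) h4⟩
  · rintro ⟨h1, h2, w, h3, h4⟩
    exact ⟨h1, by omega, w, h3, h.symm.in_of_in (by omega) h4⟩

/-- minimal level -/
def Lv (S : Sys V E) (k : ℕ) (z : V) (j : ℕ) : Prop := S.Wl k z j ∧ ∀ i, i < j → ¬ S.Wl k z i

lemma exists_Lv {z : V} (h : S.CR k z₀ z) (h' : ¬ S.Qs k z₀ z) : ∃ j, S.Lv k z j := by
  classical
  obtain h1 := exists_Wl h h'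
  exact ⟨Nat.find h1, Nat.find_spec h1, fun i hi => Nat.find_min h1 hi⟩

lemma Lv.unique {z : V} {j j' : ℕ} (h : S.Lv k z j) (h' : S.Lv k z j') : j = j' := by
  rcases lt_trichotomy j j' with h1 | h1 | h1
  · exact absurd h.1 (h'.2 j h1)
  · exact h1
  · exact absurd h'.1 (h.2 j' h1)

lemma Lv.transfer {z z' : V} {j : ℕ} (h : S.Lv k z j) (hc : S.CR j z z') : S.Lv k z' j := by
  have hz : j < S.dep z := h.1.2.1
  exact ⟨(Wl_iff hz hc le_rfl).1 h.1, fun i hi h' => h.2 i hi ((Wl_iff hz hc hi.le).2 h')⟩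

/-- a vertex one level above the child component, adjacent to it -/
lemma child_Q {z₁ : V} {j : ℕ} (hz₁ : S.CR k z₀ z₁)
    (hj : S.Lv k z₁ j) {y f : V}
    (hy : S.dep y = j) (hyf : S.G.Adj y f) (hf : S.CR j z₁ f) : S.Qs k z₀ y := by
  have hkj' := hj.1.1
  have hfd : j < S.dep f := hf.dep hj.1.2.1
  refine ⟨(hz₁.trans (hf.mono hkj'.le)).trans (CR.of_adj hyf.symm (by omega) (by omega)), fun w hw => ?_⟩
  by_contra hcon
  push Not at hcon
  rcases hw.step hyf with h1 | h1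
  · exact hj.2 (S.dep w + 1) (by omega) ⟨hcon.1, by have := hj.1.2.1; omega, w, rfl,
      hf.symm.in_of_in (by omega) h1⟩
  · have := dep_adj' h1
    omega

/-- Lemma T -/
lemma Node.lemmaT (N : S.Node k z₀ x) {z₁ : V} {j : ℕ}
    (hj : S.Lv k z₁ j) {y f y' f' : V}
    (hy : S.dep y = j) (hyf : S.G.Adj y f) (hf : S.CR j z₁ f)
    (hy' : S.dep y' = j) (hyf' : S.G.Adj y' f') (hf' : S.CR j z₁ f') (hQ : S.Qs k z₀ y)
    (hQ' : S.Qs k z₀ y') :
    Within (S.gg k z₀ x) 10 ⟨y, Or.inl hQ⟩ ⟨y', Or.inl hQ'⟩ := by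
  have hkj := hj.1.1
  by_cases hj1 : j = k + 1
  · exact ((N.top_gg hQ.1 (by omega)).trans (N.top_gg hQ'.1 (by omega)).symm).mono (by norm_num)
  by_cases hj2 : j = k + 2
  · have key : ∀ y, ∀ hQ : S.Qs k z₀ y, S.dep y = k + 2 →
        Within (S.gg k z₀ x) 5 ⟨y, Or.inl hQ⟩ ⟨x, N.xP⟩ := by
      intro y hQ hy
      have hne : y ≠ S.o := by
        rintro rfl
        rw [dep_root] at hy
        omega
      obtain ⟨p, hyp, hp⟩ := exists_pred (S := S) hne
      have hpQ := hQ.down hyp hp (by omega)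
      exact ((Within.of_adj (gg_adj (v := ⟨p, Or.inl hpQ⟩) hyp)).trans
        (N.top_gg hpQ.1 (by omega))).mono (by norm_num)
    exact ((key y hQ (by omega)).trans (key y' hQ' (by omega)).symm).mono (by norm_num)
  · obtain ⟨x₁, hx₁, hinx₁⟩ := hj.1.2.2
    -- the wall lies in `Q`
    have hx₁Q : ∀ q, S.CR k z₀ q → S.G.Adj q x₁ → k < S.dep q → S.Qs k z₀ x₁ := by
      intro q hq hqx hqd
      refine ⟨hq.trans (CR.of_adj hqx hqd (by omega)), fun w hw => ?_⟩
      by_contra hcon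
      push Not at hcon
      exact hj.2 (S.dep w + 1) (by omega) ⟨hcon.1, by have := hj.1.2.1; omega, w, rfl,
        hinx₁.trans hw⟩
    have key : ∀ y f, ∀ hQ : S.Qs k z₀ y, S.dep y = j → S.G.Adj y f → S.CR j z₁ f →
        ∃ hx : S.Qs k z₀ x₁, Within (S.gg k z₀ x) 3 ⟨y, Or.inl hQ⟩ ⟨x₁, Or.inl hx⟩ := by
      intro y f hQ hy hyf hf
      have hnear := wall_near (S := S) (y := y) (x := x₁) (f := f) (by omega)
        (hf.in_of_in (by omega) hinx₁) (not_ext_of_adj hyf.symm)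
      rcases wall_path (by omega) hnear with h | ⟨p, h1, h2, h3⟩ | ⟨p, q, h1, h2, h3, h4, h5⟩
      · have hx := hx₁Q y hQ.1 h (by omega)
        exact ⟨hx, (Within.of_adj (gg_adj h)).mono (by norm_num)⟩
      · have hpQ := hQ.down h1 h2 (by omega)
        have hx := hx₁Q p hpQ.1 h3 (by omega)
        exact ⟨hx, ((Within.of_adj (gg_adj (v := ⟨p, Or.inl hpQ⟩) h1)).trans
          (Within.of_adj (gg_adj h3))).mono (by norm_num)⟩
      · have hpQ := hQ.down h1 h2 (by omega)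
        have hqQ := hpQ.down h3 h4 (by omega)
        have hx := hx₁Q q hqQ.1 h5 (by omega)
        exact ⟨hx, ((Within.of_adj (gg_adj (v := ⟨p, Or.inl hpQ⟩) h1)).trans
          (Within.of_adj (gg_adj (v := ⟨q, Or.inl hqQ⟩) h3))).trans (Within.of_adj (gg_adj h5))⟩
    obtain ⟨hx, h1⟩ := key y f hQ hy hyf hf
    obtain ⟨_, h2⟩ := key y' f' hQ' hy' hyf' hf'
    exact (h1.trans h2.symm).mono (by norm_num)

end Sys

/-- maximal separated sets -/
lemma exists_hubs {P : Type*} [Finite P] (G : SimpleGraph P) (x : P) :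
    ∃ N : Set P, x ∈ N ∧ (∀ h ∈ N, ∀ h' ∈ N, Within G 4 h h' → h = h') ∧
      ∀ u, ∃ h ∈ N, Within G 4 u h := by
  classical
  have hfin : (Set.univ : Set (Set P)).Finite := Set.toFinite _
  let A : Set (Set P) := {N | x ∈ N ∧ ∀ h ∈ N, ∀ h' ∈ N, Within G 4 h h' → h = h'}
  have hA : A.Finite := Set.toFinite _
  have hne : A.Nonempty := by
    refine ⟨{x}, rfl, ?_⟩
    intro h hh h' hh' _
    rw [Set.mem_singleton_iff] at hh hh'
    rw [hh, hh']
  obtain ⟨N, hN⟩ := hA.exists_maximal hne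
  refine ⟨N, hN.prop.1, hN.prop.2, fun u => ?_⟩
  by_contra hcon
  push Not at hcon
  have huN : u ∉ N := fun hu => hcon u hu (Within.refl _ _ _)
  have hins : insert u N ∈ A := by
    refine ⟨Or.inr hN.prop.1, ?_⟩
    rintro h (rfl | hh) h' (rfl | hh') hw
    · rfl
    · exact absurd hw (hcon h' hh')
    · exact absurd hw.symm (hcon h hh)
    · exact hN.prop.2 h hh h' hh' hw
  have := hN.le_of_ge hins (Set.subset_insert u N)
  exact huN (this (Set.mem_insert u N))

end BallQI
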