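import Pool.Agent.Helper49.BallPiece

set_option autoImplicit false
set_option linter.unusedSectionVars false

namespace BallQI

universe u

variable {E : Type*} [NormedAddCommGroup E] [InnerProductSpace ℝ E]

/-- intersection graph of spheres, in terms of inequalities -/
def sgraph {V : Type*} (c : V → E) (r : V → ℝ) : SimpleGraph V where
  Adj u v := u ≠ v ∧ r u ≤ dist (c u) (c v) + r v ∧ r v ≤ dist (c u) (c v) + r u ∧
    dist (c u) (c v) ≤ r u + r v
  symm := ⟨fun u v h => ⟨h.1.symm, by rw [dist_comm]; exact h.2.2.1, by rw [dist_comm]; exact h.2.1,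
    by rw [dist_comm, add_comm]; exact h.2.2.2⟩⟩
  loopless := ⟨fun u h => h.1 rfl⟩

/-- a connected system of spheres with a root sphere enclosing or meeting all others -/
structure Sys (V : Type u) (E : Type*) [NormedAddCommGroup E] [InnerProductSpace ℝ E] where
  c : V → E
  r : V → ℝ
  hr : ∀ v, 0 < r v
  o : V
  conn : (sgraph c r).Connected
  root : ∀ v, v ≠ o → dist (c v) (c o) + r v < r o ∨ (sgraph c r).Adj v o

namespace Sys

variable {V : Type u} (S : Sys V E)

/-- the graph -/
abbrev G : SimpleGraph V := sgraph S.c S.r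

/-- the sphere `u` is strictly inside the sphere `v` -/
def In (u v : V) : Prop := dist (S.c u) (S.c v) + S.r u < S.r v

/-- the spheres are strictly outside of each other -/
def Ext (u v : V) : Prop := S.r u + S.r v < dist (S.c u) (S.c v)

/-- depth -/
noncomputable def dep (v : V) : ℕ := S.G.dist S.o v

variable {S}

lemma tri {u v : V} (h : u ≠ v) : S.G.Adj u v ∨ S.In u v ∨ S.In v u ∨ S.Ext u v := by
  by_cases h1 : S.In u v
  · exact Or.inr (Or.inl h1)
  by_cases h2 : S.In v u
  · exact Or.inr (Or.inr (Or.inl h2))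
  by_cases h3 : S.Ext u v
  · exact Or.inr (Or.inr (Or.inr h3))
  unfold In at h1 h2
  unfold Ext at h3
  push Not at h1 h2 h3
  rw [dist_comm] at h2
  exact Or.inl ⟨h, h2, h1, h3⟩

lemma In.trans {u v w : V} (h : S.In u v) (h' : S.In v w) : S.In u w := by
  unfold In at *
  have := dist_triangle (S.c u) (S.c v) (S.c w)
  linarith

lemma In.irrefl {u : V} (h : S.In u u) : False := by
  unfold In at h
  rw [dist_self] at h
  linarith

lemma In.not_adj {u v : V} (h : S.In u v) : ¬ S.G.Adj u v := by
  intro h'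
  have := h'.2.2.1
  unfold In at h
  linarith

lemma In.not_ext {u v : V} (h : S.In u v) : ¬ S.Ext u v := by
  intro h'
  unfold In at h
  unfold Ext at h'
  have := S.hr u
  linarith

lemma not_ext_of_adj {u v : V} (h : S.G.Adj u v) : ¬ S.Ext u v := by
  intro h'
  have := h.2.2.2
  unfold Ext at h'
  linarith

lemma Ext.symm {u v : V} (h : S.Ext u v) : S.Ext v u := by
  unfold Ext at *
  rw [dist_comm, add_comm]
  exact h

lemma In.ext {u v w : V} (h : S.In u v) (h' : S.Ext v w) : S.Ext u w := by
  unfold In at h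
  unfold Ext at *
  have := dist_triangle (S.c v) (S.c u) (S.c w)
  rw [dist_comm (S.c v) (S.c u)] at this
  linarith

lemma In.step {z v z' : V} (h : S.In z v) (h' : S.G.Adj z z') : S.In z' v ∨ S.G.Adj z' v := by
  have hne : z' ≠ v := by
    rintro rfl
    exact h.not_adj h'
  rcases tri (S := S) hne with h1 | h1 | h1 | h1
  · exact Or.inr h1
  · exact Or.inl h1
  · exfalso
    have h2 := h'.2.2.1
    unfold In at h h1
    have := dist_triangle (S.c z) (S.c v) (S.c z')
    linarith
  · exfalso
    exact not_ext_of_adj h' (h.ext h1.symm)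

lemma dep_root : S.dep S.o = 0 := SimpleGraph.dist_self

lemma dep_adj {u v : V} (h : S.G.Adj u v) : S.dep v ≤ S.dep u + 1 := by
  have h1 := S.conn.dist_triangle (u := S.o) (v := u) (w := v)
  rw [SimpleGraph.dist_eq_one_iff_adj.2 h] at h1
  exact h1

lemma dep_adj' {u v : V} (h : S.G.Adj u v) : S.dep u ≤ S.dep v + 1 := dep_adj h.symm

lemma exists_pred {v : V} (h : v ≠ S.o) : ∃ u, S.G.Adj v u ∧ S.dep u + 1 = S.dep v := by
  obtain ⟨p, hp⟩ := S.conn.exists_walk_length_eq_dist v S.o
  cases p with
  | nil => exact absurd rfl h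
  | @cons _ u _ hadj p =>
    refine ⟨u, hadj, ?_⟩
    rw [SimpleGraph.Walk.length_cons] at hp
    have h1 : S.dep u ≤ p.length := by
      unfold dep
      rw [SimpleGraph.dist_comm]
      exact SimpleGraph.dist_le p
    have h2 : S.dep v = p.length + 1 := by
      unfold dep
      rw [SimpleGraph.dist_comm, hp]
    have h3 := dep_adj' hadj
    omega

lemma not_root_in {v : V} : ¬ S.In S.o v := by
  intro h
  have hne : v ≠ S.o := by
    rintro rfl
    exact h.irrefl
  rcases S.root v hne with h1 | h1
  · exact (In.trans h h1).irrefl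
  · exact h.not_adj h1.symm

lemma cross {v : V} : ∀ (n : ℕ) (z : V), S.dep z = n → S.In z v →
    ∃ (z' : V) (j : ℕ), Within S.G j z z' ∧ S.dep z' + j = S.dep z ∧ S.G.Adj z' v ∧ 1 ≤ j := by
  intro n
  induction n with
  | zero =>
    intro z hz h
    exfalso
    have : z = S.o := by
      by_contra hne
      obtain ⟨u, _, hu⟩ := exists_pred (S := S) hne
      omega
    rw [this] at h
    exact not_root_in h
  | succ n ih =>
    intro z hz h
    have hne : z ≠ S.o := by
      rintro rfl
      exact not_root_in h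
    obtain ⟨u, hzu, hu⟩ := exists_pred (S := S) hne
    rcases h.step hzu with h1 | h1
    · obtain ⟨z', j, h2, h3, h4, h5⟩ := ih u (by omega) h1
      exact ⟨z', 1 + j, (Within.of_adj hzu).trans h2, by omega, h4, by omega⟩
    · exact ⟨u, 1, Within.of_adj hzu, by omega, h1, le_refl _⟩

lemma In.dep_le {z v : V} (h : S.In z v) : S.dep v ≤ S.dep z := by
  obtain ⟨z', j, _, h3, h4, h5⟩ := cross _ z rfl h
  have := dep_adj h4
  omega

lemma In.within {z v : V} (h : S.In z v) (hd : S.dep z ≤ S.dep v + 1) : Within S.G 3 z v := by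
  obtain ⟨z', j, h2, h3, h4, h5⟩ := cross _ z rfl h
  have := dep_adj h4
  exact (h2.trans (Within.of_adj h4)).mono (by omega)

/-- routes from `y` to a wall one level above -/
lemma wall_path {y x : V} (hd : S.dep x + 1 = S.dep y) (h : S.G.Adj y x ∨ S.In y x) :
    S.G.Adj y x ∨ (∃ p, S.G.Adj y p ∧ S.dep p + 1 = S.dep y ∧ S.G.Adj p x) ∨
      (∃ p q, S.G.Adj y p ∧ S.dep p + 1 = S.dep y ∧ S.G.Adj p q ∧ S.dep q + 1 = S.dep p ∧
        S.G.Adj q x) := by
  rcases h with h | h
  · exact Or.inl h
  right
  have hne : y ≠ S.o := by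
    rintro rfl
    exact not_root_in h
  obtain ⟨p, hyp, hp⟩ := exists_pred (S := S) hne
  rcases h.step hyp with h1 | h1
  · right
    have hne : p ≠ S.o := by
      rintro rfl
      exact not_root_in h1
    obtain ⟨q, hpq, hq⟩ := exists_pred (S := S) hne
    rcases h1.step hpq with h2 | h2
    · exfalso
      have := h2.dep_le
      omega
    · exact ⟨p, q, hyp, hp, hpq, hq, h2⟩
  · exact Or.inl ⟨p, hyp, hp, h1⟩

lemma wall_near {y x f : V} (hd : S.dep x < S.dep y) (hf : S.In f x) (hfy : ¬ S.Ext f y) :
    S.G.Adj y x ∨ S.In y x := by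
  have hne : y ≠ x := by
    rintro rfl
    omega
  rcases tri (S := S) hne with h1 | h1 | h1 | h1
  · exact Or.inl h1
  · exact Or.inr h1
  · have := h1.dep_le
    omega
  · exact absurd (hf.ext h1.symm) hfy

variable (S)

/-- connectedness inside the vertices of depth greater than `k` -/
def CR (k : ℕ) (a b : V) : Prop :=
  Relation.ReflTransGen (fun a b => S.G.Adj a b ∧ k < S.dep a ∧ k < S.dep b) a b

variable {S}

lemma CR.refl (k : ℕ) (a : V) : S.CR k a a := Relation.ReflTransGen.refl

lemma CR.symm {k : ℕ} {a b : V} (h : S.CR k a b) : S.CR k b a := by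
  unfold CR at *
  induction h with
  | refl => exact Relation.ReflTransGen.refl
  | tail _ h ih => exact Relation.ReflTransGen.head ⟨h.1.symm, h.2.2, h.2.1⟩ ih

lemma CR.trans {k : ℕ} {a b c : V} (h : S.CR k a b) (h' : S.CR k b c) : S.CR k a c :=
  Relation.ReflTransGen.trans h h'

lemma CR.of_adj {k : ℕ} {a b : V} (h : S.G.Adj a b) (ha : k < S.dep a) (hb : k < S.dep b) :
    S.CR k a b := Relation.ReflTransGen.single ⟨h, ha, hb⟩

lemma CR.mono {k k' : ℕ} (hk : k ≤ k') {a b : V} (h : S.CR k' a b) : S.CR k a b := by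
  unfold CR at *
  induction h with
  | refl => exact Relation.ReflTransGen.refl
  | tail _ h ih => exact Relation.ReflTransGen.tail ih ⟨h.1, by omega, by omega⟩

lemma CR.dep {k : ℕ} {a b : V} (h : S.CR k a b) (ha : k < S.dep a) : k < S.dep b := by
  unfold CR at h
  induction h with
  | refl => exact ha
  | tail _ h _ => exact h.2.2

lemma CR.in_of_in {k : ℕ} {a b v : V} (h : S.CR k a b) (hv : S.dep v < k) (ha : S.In a v) :
    S.In b v := by
  unfold CR at h
  induction h with
  | refl => exact ha
  | tail _ h ih =>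
    rcases ih.step h.1 with h1 | h1
    · exact h1
    · have := dep_adj' h1
      omega

lemma CR.in_iff {k : ℕ} {a b v : V} (h : S.CR k a b) (hv : S.dep v < k) :
    S.In a v ↔ S.In b v := ⟨h.in_of_in hv, h.symm.in_of_in hv⟩

/-- going down to the lowest level of the component -/
lemma descend {j : ℕ} : ∀ (n : ℕ) (z : V), S.dep z = n → j < S.dep z →
    ∃ f, S.CR j z f ∧ S.dep f = j + 1 := by
  intro n
  induction n with
  | zero => intro z hz h; omega
  | succ n ih =>
    intro z hz h
    by_cases h1 : S.dep z = j + 1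
    · exact ⟨z, CR.refl _ _, h1⟩
    · have hne : z ≠ S.o := by
        rintro rfl
        rw [dep_root] at h
        omega
      obtain ⟨u, hzu, hu⟩ := exists_pred (S := S) hne
      obtain ⟨f, hf1, hf2⟩ := ih u (by omega) (by omega)
      exact ⟨f, (CR.of_adj hzu h (by omega)).trans hf1, hf2⟩

end Sys

end BallQI
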